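import Pool.Agent.Lib.MP_60675c_an.Final

/-! The two analytic boundary curves (fixed point `± π / 2` of the period map). -/

set_option autoImplicit false

open Filter Topology Set

namespace Pool.Agent.Lib.MP_60675c_an

section analytic

open Complex ComplexConjugate
open scoped BoundedContinuousFunction ContDiff

lemma Zf_cd {M : Type*} [NormedRing M] [NormedAlgebra ℂ M] [CompleteSpace M] [NormedSpace ℝ M]
    [SMulCommClass ℝ ℂ M] (τ : ℝ) : ContDiff ℂ ω fun A : ℝ →ᵇ M => Zf A τ := by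
  refine contDiff_iff_contDiffAt.2 fun A => ?_
  have h0 : ContDiff ℂ ω fun B : ℝ →ᵇ M => 1 - pic (kap_pos A) B := by
    unfold pic
    exact contDiff_const.sub
      (contDiff_const.clm_comp (ContinuousLinearMap.mul ℂ (ℝ →ᵇ M)).contDiff)
  have h1 : ContDiffAt ℂ ω (fun B : ℝ →ᵇ M => Ring.inverse (1 - pic (kap_pos A) B)) A := by
    have h := contDiffAt_ringInverse ℂ (n := ω) (R := (ℝ →ᵇ M) →L[ℂ] (ℝ →ᵇ M))
      (pic_unit (kap_pos A) (kap_gt A)).unit
    exact ContDiffAt.comp (g := Ring.inverse) A h h0.contDiffAt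
  have h2 : ContDiffAt ℂ ω (fun B : ℝ →ᵇ M => fixp (kap_pos A) B) A :=
    h1.clm_apply contDiffAt_const
  have h3 : ContDiffAt ℂ ω (fun B : ℝ →ᵇ M => Zk (kap_pos A) B τ) A :=
    (((BoundedContinuousFunction.evalCLM ℂ τ : (ℝ →ᵇ M) →L[ℂ] M).contDiff.contDiffAt).comp A
      h2).const_smul (ch (2 * ‖A‖ + 1) τ)
  refine h3.congr_of_eventuallyEq ?_
  filter_upwards [ev_norm_lt A] with B hB
  rw [Zf_eq_Zk (kap_pos A) hB]

lemma s1_cd (b u v : ℂ) (τ : ℝ) : ContDiff ℂ ω fun q : ℂ × ℂ => s1 q.2 q.1 b b u v τ := by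
  have h1 : ContDiff ℂ ω fun q : ℂ × ℂ => coefG opH opB opC q.2 q.1 b b := by
    unfold coefG; fun_prop
  exact (((Zf_cd τ).comp h1).clm_apply (contDiff_const (c := (u, v)))).fst

lemma ww_cd (η α τ : ℝ) : ContDiff ℝ ω fun q : ℝ × ℝ => ww q.2 q.1 η α τ := by
  have h : ContDiff ℝ ω fun q : ℝ × ℝ => ((q.1 : ℂ), (q.2 : ℂ)) :=
    (ofRealCLM.contDiff.comp contDiff_fst).prodMk (ofRealCLM.contDiff.comp contDiff_snd)
  have h2 := ((s1_cd (η / 2 : ℝ) (exp (α * I)) (exp (-(α * I))) τ).restrict_scalars ℝ).comp h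
  simpa only [Function.comp_def, ww] using h2

lemma level_analytic {η α s μ₁ : ℝ} {g : ℝ → ℝ} (hg : ContinuousAt g μ₁)
    (h : ∀ μ, Ps (g μ) μ η α = s) : AnalyticAt ℝ g μ₁ := by
  set F : ℝ × ℝ → ℝ := fun q => (conj (ww (g μ₁) μ₁ η α Real.pi) * ww q.2 q.1 η α Real.pi).im
    with hF
  have cF : ContDiffAt ℝ ω F (μ₁, g μ₁) :=
    (imCLM.contDiff.comp (contDiff_const.mul (ww_cd η α Real.pi))).contDiffAt
  have eF : ∀ q : ℝ × ℝ, F q = rr (g μ₁) μ₁ η α Real.pi * rr q.2 q.1 η α Real.pi *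
      Real.sin (th q.2 q.1 η α Real.pi - th (g μ₁) μ₁ η α Real.pi) := by
    intro q
    simp only [hF, ww_polar, conj_mul_polar]
  set G : ℝ → ℝ := fun ν => (1 / 2) * ∫ σ in (0:ℝ)..Real.pi,
    (conj (ww (g μ₁) μ₁ η α σ) * ww ν μ₁ η α σ).re with hG
  have cG : Continuous G := continuous_const.mul
    (intervalIntegral.continuous_parametric_intervalIntegral_of_continuous' (by fun_prop) _ _)
  have pG : 0 < G (g μ₁) := by
    refine mul_pos (by norm_num) (intervalIntegral.intervalIntegral_pos_of_pos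
      (Continuous.intervalIntegrable (by fun_prop) _ _) (fun σ => ?_) Real.pi_pos)
    rw [← normSq_eq_conj_mul_self, ofReal_re]
    exact normSq_pos.2 (ww_ne _ _ _ _ _)
  have e1 : ∀ ν, F (μ₁, ν) = (ν - g μ₁) * G ν := by
    intro ν
    rw [eF, lagrange, hG]
    simp only [sub_self, Real.sin_zero, zero_add]
    rw [← mul_assoc, ← intervalIntegral.integral_const_mul]
    congr 1
    funext σ
    simp only [ar]
    ring
  have d1 : HasDerivAt (fun ν => F (μ₁, ν)) (G (g μ₁)) (g μ₁) := by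
    rw [hasDerivAt_iff_tendsto_slope]
    refine (cG.continuousAt.tendsto.mono_left nhdsWithin_le_nhds).congr' ?_
    filter_upwards [self_mem_nhdsWithin] with ν hν
    have : ν - g μ₁ ≠ 0 := sub_ne_zero.2 hν
    rw [slope_def_field, e1, e1]
    field_simp
    ring
  have d2 : HasFDerivAt (fun ν => F (μ₁, ν))
      (fderiv ℝ F (μ₁, g μ₁) ∘L ContinuousLinearMap.inr ℝ ℝ ℝ) (g μ₁) :=
    (cF.differentiableAt (by simp)).hasFDerivAt.comp (g μ₁) (hasFDerivAt_prodMk_right μ₁ (g μ₁))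
  have inv : (fderiv ℝ F (μ₁, g μ₁) ∘L ContinuousLinearMap.inr ℝ ℝ ℝ).IsInvertible := by
    rw [d2.unique d1.hasFDerivAt]
    exact ⟨ContinuousLinearEquiv.unitsEquivAut ℝ (Units.mk0 _ pG.ne'), by ext; simp⟩
  have a1 := (cF.contDiffAt_implicitFunction (by simp) inv).analyticAt
  have t : Tendsto (fun μ => (μ, g μ)) (𝓝 μ₁) (𝓝 (μ₁, g μ₁)) := continuousAt_id.prodMk hg
  refine a1.congr ?_
  filter_upwards [t.eventually (cF.eventually_apply_eq_iff_implicitFunction (by simp) inv)]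
    with μ hμ
  refine hμ.1 ?_
  rw [eF, eF]
  simp only [th_pi, h, sub_self, Real.sin_zero, mul_zero]

end analytic

lemma Ps_near (ν μ η α : ℝ) : |Ps ν μ η α - ν| ≤ |η| := by
  have hpi := Real.pi_pos
  have h : ∀ τ, HasDerivAt (fun τ => th ν μ η α τ - ν / 2 * τ - μ * Real.sin τ)
      (-(η / 2 * Real.cos (2 * th ν μ η α τ))) τ := fun τ =>
    (((th_isTh ν μ η α τ).sub ((hasDerivAt_id' τ).const_mul _)).sub
      ((Real.hasDerivAt_sin τ).const_mul μ)).congr_deriv (by rw [ar]; ring)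
  have h2 := convex_univ.norm_image_sub_le_of_norm_hasDerivWithin_le (C := |η| / 2)
    (fun τ _ => (h τ).hasDerivWithinAt) (fun τ _ => by
      rw [norm_neg, norm_mul, Real.norm_eq_abs, Real.norm_eq_abs, abs_div, abs_two]
      exact mul_le_of_le_one_right (by positivity) (Real.abs_cos_le_one _))
    (mem_univ 0) (mem_univ Real.pi)
  simp only [th_pi, th_zero, Real.sin_pi, Real.sin_zero, mul_zero, sub_zero, Real.norm_eq_abs,
    abs_of_pos hpi] at h2
  have e : α + Real.pi * Ps ν μ η α / 2 - ν / 2 * Real.pi - α =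
      Real.pi / 2 * (Ps ν μ η α - ν) := by ring
  rw [e, abs_mul, abs_of_pos (by positivity : 0 < Real.pi / 2)] at h2
  nlinarith

lemma exists_level (μ η α s : ℝ) : ∃ ν, Ps ν μ η α = s := by
  refine intermediate_value_univ (f := fun ν => Ps ν μ η α) (s - |η|) (s + |η|) (by fun_prop)
    ⟨?_, ?_⟩
  · linarith [(abs_le.1 (Ps_near (s - |η|) μ η α)).2]
  · linarith [(abs_le.1 (Ps_near (s + |η|) μ η α)).1]

/-- the level curve `ν = lev μ η` -/
noncomputable def lev (α s μ η : ℝ) : ℝ := (exists_level μ η α s).choose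

lemma lev_spec (α s μ η : ℝ) : Ps (lev α s μ η) μ η α = s := (exists_level μ η α s).choose_spec

lemma lev_iff {α s μ η ν : ℝ} : Ps ν μ η α = s ↔ ν = lev α s μ η := by
  constructor
  · intro h
    exact (Ps_strictMono μ η α).injective (h.trans (lev_spec α s μ η).symm)
  · rintro rfl
    exact lev_spec _ _ _ _

lemma lev_cont (α s : ℝ) : Continuous fun q : ℝ × ℝ => lev α s q.1 q.2 := by
  refine continuous_iff_continuousAt.2 fun q₀ => tendsto_order.2 ⟨fun a ha => ?_, fun a ha => ?_⟩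
  · have h1 : Ps a q₀.1 q₀.2 α < s := by
      rw [← lev_spec α s q₀.1 q₀.2]; exact Ps_strictMono _ _ _ ha
    have h2 : ∀ᶠ q : ℝ × ℝ in 𝓝 q₀, Ps a q.1 q.2 α < s :=
      (isOpen_lt (by fun_prop) continuous_const).mem_nhds h1
    filter_upwards [h2] with q hq
    rw [← lev_spec α s q.1 q.2] at hq
    exact (Ps_strictMono _ _ _).lt_iff_lt.1 hq
  · have h1 : s < Ps a q₀.1 q₀.2 α := by
      rw [← lev_spec α s q₀.1 q₀.2]; exact Ps_strictMono _ _ _ ha
    have h2 : ∀ᶠ q : ℝ × ℝ in 𝓝 q₀, s < Ps a q.1 q.2 α :=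
      (isOpen_lt continuous_const (by fun_prop)).mem_nhds h1
    filter_upwards [h2] with q hq
    rw [← lev_spec α s q.1 q.2] at hq
    exact (Ps_strictMono _ _ _).lt_iff_lt.1 hq

lemma lev_analytic (α s η μ : ℝ) : AnalyticAt ℝ (fun μ => lev α s μ η) μ :=
  level_analytic (η := η) (α := α) (s := s)
    ((lev_cont α s).comp (continuous_id.prodMk continuous_const)).continuousAt
    fun μ => lev_spec α s μ η

lemma two_pi_iff {ν μ η α : ℝ} (hα : Sy α) (s : ℤ) :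
    th ν μ η α (2 * Real.pi) = α + s * Real.pi ↔ Ps ν μ η α = s := by
  have hpi := Real.pi_pos
  have e : th ν μ η α Real.pi - th ν μ η α (-Real.pi) = Real.pi * Ps ν μ η α := by
    rw [th_rev]
    rcases hα with rfl | rfl
    · rw [neg_zero, th_pi]; ring
    · have : -(Real.pi / 2) = Real.pi / 2 + ((-1 : ℤ) : ℝ) * Real.pi := by push_cast; ring
      rw [this, th_addPi, th_pi]; push_cast; ring
  have h0 := th_isTh ν μ η α
  have e1 : -Real.pi + ((1 : ℤ) : ℝ) * (2 * Real.pi) = Real.pi := by push_cast; ring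
  have e2 : 0 + ((1 : ℤ) : ℝ) * (2 * Real.pi) = 2 * Real.pi := by push_cast; ring
  constructor
  · intro h
    have := congrFun ((h0.shift 1).unique (h0.addPi s) (t := 0)
      (by simp only [e2, th_zero, h])) (-Real.pi)
    simp only [e1] at this
    exact mul_left_cancel₀ hpi.ne' (by linarith)
  · intro h
    have := congrFun ((h0.shift 1).unique (h0.addPi s) (t := -Real.pi)
      (by simp only [e1]; rw [h] at e; linarith)) 0
    simpa only [e2, th_zero] using this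

lemma curve_iff {ω : ℝ} (hω : 0 < ω) (B A : ℝ) (s : ℤ) {σ α : ℝ}
    (hσ : (σ = 1 ∧ α = 0) ∨ (σ = -1 ∧ α = Real.pi / 2)) :
    (∃ φ : ℝ → ℝ, (∀ t, HasDerivAt φ (-Real.sin (φ t) + B + A * Real.cos (ω * t)) t) ∧
      φ 0 = σ * (Real.pi / 2) ∧ φ (2 * Real.pi / ω) = φ 0 + 2 * Real.pi * s) ↔
    Ps (B / ω) (A / (2 * ω)) (1 / ω) α = s := by
  have hω' := hω.ne'
  have hα : Sy α := hσ.imp And.right And.right
  obtain ⟨k, hk⟩ : ∃ k : ℤ, σ * (Real.pi / 2) = 2 * (α + k * Real.pi) + Real.pi / 2 := by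
    rcases hσ with ⟨rfl, rfl⟩ | ⟨rfl, rfl⟩
    · exact ⟨0, by push_cast; ring⟩
    · exact ⟨-1, by push_cast; ring⟩
  rw [← two_pi_iff hα]
  constructor
  · rintro ⟨φ, hφ, h0, h1⟩
    have hθ : IsTh (B / ω) (A / (2 * ω)) (1 / ω) fun τ => (φ (τ / ω) - Real.pi / 2) / 2 :=
      fun τ => by
        refine ((((hφ (τ / ω)).comp τ ((hasDerivAt_id' τ).div_const ω)).sub_const
          _).div_const 2).congr_deriv ?_
        have : 2 * ((φ (τ / ω) - Real.pi / 2) / 2) = φ (τ / ω) - Real.pi / 2 := by ring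
        rw [this, Real.cos_sub_pi_div_two, ar, mul_div_cancel₀ τ hω']
        field_simp
        ring
    have h2 := congrFun hθ.eq_th (2 * Real.pi)
    have e : (φ (0 / ω) - Real.pi / 2) / 2 = α + k * Real.pi := by
      rw [zero_div, h0, hk]; ring
    simp only [e, th_addPi, h1, h0, hk] at h2
    linarith
  · intro h
    have hθ := (th_isTh (B / ω) (A / (2 * ω)) (1 / ω) α).addPi k
    refine ⟨fun t => 2 * (th (B / ω) (A / (2 * ω)) (1 / ω) α (ω * t) + k * Real.pi) + Real.pi / 2,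
      fun t => ?_, ?_, ?_⟩
    · refine ((((hθ (ω * t)).comp t ((hasDerivAt_id' t).const_mul ω)).const_mul 2).add_const
        _).congr_deriv ?_
      rw [Real.sin_add_pi_div_two, ar]
      field_simp
      ring
    · simp only [mul_zero, th_zero, hk]
    · simp only [mul_zero, th_zero, mul_div_cancel₀ _ hω', h]
      ring

lemma or_iff_mn_mx (ν μ η s : ℝ) :
    (Ps ν μ η 0 = s ∨ Ps ν μ η (Real.pi / 2) = s) ↔ (mn ν μ η = s ∨ mx ν μ η = s) := by
  rcases le_total (Ps ν μ η 0) (Ps ν μ η (Real.pi / 2)) with h | h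
  · rw [mn, mx, min_eq_left h, max_eq_right h]
  · rw [mn, mx, min_eq_right h, max_eq_left h, or_comm]

lemma frontier_iff {ω : ℝ} (hω : 0 < ω) (s : ℤ) (p : ℝ × ℝ) :
    p ∈ frontier {p : ℝ × ℝ | RotEq ω p.1 p.2 s} ↔
      (mn (p.1 / ω) (p.2 / (2 * ω)) (1 / ω) = s ∨ mx (p.1 / ω) (p.2 / (2 * ω)) (1 / ω) = s) := by
  have c1 : Continuous fun p : ℝ × ℝ => mn (p.1 / ω) (p.2 / (2 * ω)) (1 / ω) := by fun_prop
  have c2 : Continuous fun p : ℝ × ℝ => mx (p.1 / ω) (p.2 / (2 * ω)) (1 / ω) := by fun_prop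
  have e : {p : ℝ × ℝ | RotEq ω p.1 p.2 s} =
      {p | mn (p.1 / ω) (p.2 / (2 * ω)) (1 / ω) ≤ s} ∩
        {p | (s : ℝ) ≤ mx (p.1 / ω) (p.2 / (2 * ω)) (1 / ω)} := by
    ext q
    simp only [mem_ofPred_eq, mem_inter_iff, rotEq_iff hω, rotTh_iff]
  have hlt : ∀ {B B' : ℝ}, B < B' → B / ω < B' / ω := fun h => div_lt_div_of_pos_right h hω
  have t : Tendsto (fun B => (B, p.2)) (𝓝 p.1) (𝓝 p) := continuousAt_id.prodMk continuousAt_const
  rw [e, ((isClosed_le c1 continuous_const).inter (isClosed_le continuous_const c2)).frontier_eq,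
    Set.mem_sdiff, mem_interior_iff_mem_nhds]
  constructor
  · rintro ⟨⟨h1, h2⟩, h3⟩
    by_contra hc
    push Not at hc
    refine h3 ?_
    filter_upwards [(isOpen_lt c1 continuous_const).mem_nhds (lt_of_le_of_ne h1 hc.1),
      (isOpen_lt continuous_const c2).mem_nhds (lt_of_le_of_ne h2 hc.2.symm)] with q a b
    exact ⟨le_of_lt a, le_of_lt b⟩
  · rintro (h | h)
    · refine ⟨⟨h.le, h ▸ mn_le _ _ _⟩, fun h3 => ?_⟩
      obtain ⟨B, a, b⟩ := (((t.eventually h3).filter_mono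
        (nhdsWithin_le_nhds (s := Ioi p.1))).and self_mem_nhdsWithin).exists
      have := mn_strictMono (p.2 / (2 * ω)) (1 / ω) (hlt (show p.1 < B from b))
      have a1 : mn (B / ω) (p.2 / (2 * ω)) (1 / ω) ≤ s := a.1
      simp only at this
      linarith
    · refine ⟨⟨h ▸ mn_le _ _ _, h.ge⟩, fun h3 => ?_⟩
      obtain ⟨B, a, b⟩ := (((t.eventually h3).filter_mono
        (nhdsWithin_le_nhds (s := Iio p.1))).and self_mem_nhdsWithin).exists
      have := mx_strictMono (p.2 / (2 * ω)) (1 / ω) (hlt (show B < p.1 from b))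
      have a1 : (s : ℝ) ≤ mx (B / ω) (p.2 / (2 * ω)) (1 / ω) := a.2
      simp only at this
      linarith

lemma not_const_or {l s : ℕ} {μ₀ η₀ : ℝ} (hη : 0 < η₀) :
    ¬ ∀ᶠ μ in 𝓝 μ₀, mn l μ η₀ = s ∨ mx l μ η₀ = s := by
  intro h
  obtain ⟨μ₁, h1, h2⟩ := ((not_eventually.1
    (not_const (l := l) (s := s) (μ₀ := μ₀) hη (Or.inl rfl))).and_eventually
      h.eventually_nhds).exists
  refine not_const (l := l) (s := s) (μ₀ := μ₁) hη (Or.inr rfl) ?_
  have c : ∀ᶠ μ in 𝓝 μ₁, mn l μ η₀ ≠ s :=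
    (Continuous.continuousAt (f := fun μ => mn l μ η₀) (by fun_prop)).eventually_ne h1
  filter_upwards [h2, c] with μ a b
  exact a.resolve_left b

lemma core_curve {l s : ℕ} {μ₀ η₀ α : ℝ} (hμ : 0 < μ₀) (hη : 0 < η₀) (hα : Sy α)
    (h0 : Ps l μ₀ η₀ α = s) (h2 : ∀ᶠ μ in 𝓝 μ₀, Ps l μ η₀ α ≤ s)
    (h3 : ∀ᶠ q : ℝ × ℝ in 𝓝 (μ₀, η₀), q.2 < η₀ → Ps l q.1 q.2 α ≠ s) : False := by
  have Φc : Continuous fun q : ℝ × ℝ => Ps l q.1 q.2 α := by fun_prop
  have t : Tendsto (fun μ => (μ, η₀)) (𝓝 μ₀) (𝓝 (μ₀, η₀)) :=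
    continuousAt_id.prodMk continuousAt_const
  obtain ⟨ε, hε, hbox⟩ := box_of_ev h3
  set W : Set (ℝ × ℝ) := Ioo (μ₀ - ε) (μ₀ + ε) ×ˢ Ioo (η₀ - ε) η₀ with hW
  have Wc : IsPreconnected W := isPreconnected_Ioo.prod isPreconnected_Ioo
  have Wne : ∀ q ∈ W, Ps l q.1 q.2 α ≠ s := fun q hq =>
    hbox q.1 q.2 (abs_lt.2 ⟨by linarith [hq.1.1], by linarith [hq.1.2]⟩)
      (abs_lt.2 ⟨by linarith [hq.2.1], by linarith [hq.2.2]⟩) hq.2.2
  have v : ∀ᶠ q : ℝ × ℝ in 𝓝 (μ₀, η₀), q.1 ∈ Ioo (μ₀ - ε) (μ₀ + ε) ∧ η₀ - ε < q.2 :=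
    (continuousAt_fst.eventually (Ioo_mem_nhds (by linarith) (by linarith))).and
      (continuousAt_snd.eventually (lt_mem_nhds (by linarith)))
  by_cases hex : ∃ q₀ ∈ W, (s : ℝ) ≤ Ps l q₀.1 q₀.2 α
  · obtain ⟨q₀, q0W, a2⟩ := hex
    have Wge : ∀ q ∈ W, (s : ℝ) ≤ Ps l q.1 q.2 α := by
      intro q hq
      by_contra hc
      obtain ⟨r, hr, e⟩ := Wc.intermediate_value hq q0W Φc.continuousOn ⟨(not_le.1 hc).le, a2⟩
      exact Wne r hr e
    refine not_const_or (l := l) (s := s) (μ₀ := μ₀) hη ?_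
    filter_upwards [h2, Ioo_mem_nhds (show μ₀ - ε < μ₀ by linarith)
      (show μ₀ < μ₀ + ε by linarith)] with μ b1 b2
    have ht : Tendsto (fun η => Ps l μ η α) (𝓝[<] η₀) (𝓝 (Ps l μ η₀ α)) :=
      ((Φc.comp (continuous_const.prodMk continuous_id)).tendsto η₀).mono_left nhdsWithin_le_nhds
    have b3 : Ps l μ η₀ α = s := by
      refine le_antisymm b1 (ge_of_tendsto ht ?_)
      filter_upwards [Ioo_mem_nhdsLT (show η₀ - ε < η₀ by linarith)] with η hη'
      exact Wge (μ, η) ⟨b2, hη'⟩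
    rw [← or_iff_mn_mx]
    rcases hα with rfl | rfl
    · exact Or.inl b3
    · exact Or.inr b3
  · push Not at hex
    rcases eq_or_lt_of_le (h0 ▸ hα.mn_le l μ₀ η₀) with h | h
    · refine core hμ hη (Or.inl rfl) h (h2.mono fun μ b => (hα.mn_le _ _ _).trans b) ?_
      filter_upwards [v] with q b1 b2
      exact ((hα.mn_le _ _ _).trans_lt (hex q ⟨b1.1, b1.2, b2⟩)).ne
    · have c : ∀ᶠ q : ℝ × ℝ in 𝓝 (μ₀, η₀), mn l q.1 q.2 < Ps l q.1 q.2 α :=
        (isOpen_lt (by fun_prop) Φc).mem_nhds (by simpa only [mem_ofPred_eq, h0] using h)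
      have c' : ∀ᶠ q : ℝ × ℝ in 𝓝 (μ₀, η₀), mx l q.1 q.2 = Ps l q.1 q.2 α := by
        filter_upwards [c] with q b
        rcases hα with rfl | rfl
        · exact max_eq_left (le_of_not_ge fun d => by rw [mn, min_eq_left d] at b; exact b.false)
        · exact max_eq_right (le_of_not_ge fun d => by rw [mn, min_eq_right d] at b; exact b.false)
      refine core hμ hη (Or.inr rfl) (c'.self_of_nhds.trans h0) ?_ ?_
      · filter_upwards [h2, t.eventually c'] with μ b1 b2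
        exact b2.le.trans b1
      · filter_upwards [h3, c'] with q b1 b2 b3
        rw [b2]
        exact b1 b3

lemma final_curve {ω₀ μ₀ α : ℝ} (hω : 0 < ω₀) (hμ : 0 < μ₀) (l s : ℕ) (hα : Sy α)
    (C : ℝ → Set (ℝ × ℝ))
    (hC : ∀ ω, 0 < ω → ∀ p, p ∈ C ω ↔ Ps (p.1 / ω) (p.2 / (2 * ω)) (1 / ω) α = s)
    (h1 : ((l : ℝ) * ω₀, 2 * μ₀ * ω₀) ∈ C ω₀)
    (h2 : ∀ᶠ p in 𝓝 ((l : ℝ) * ω₀, 2 * μ₀ * ω₀), p ∈ C ω₀ → l * ω₀ ≤ p.1)
    {U : Set (ℝ × ℝ)} (hU : U ∈ 𝓝 ((l : ℝ) * ω₀, 2 * μ₀ * ω₀))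
    (h3 : ∀ᶠ ω in 𝓝[>] ω₀, ∀ p ∈ C ω, p.1 = l * ω → p ∉ U) : False := by
  have hω' := hω.ne'
  have e : ∀ {ω : ℝ}, ω ≠ 0 → ∀ μ, 2 * μ * ω / (2 * ω) = μ := fun h μ => by field_simp
  rw [hC _ hω] at h1
  simp only [mul_div_cancel_right₀ _ hω', e hω'] at h1
  refine core_curve (l := l) (s := s) (η₀ := 1 / ω₀) hμ (by positivity) hα h1 ?_ ?_
  · have c : Continuous fun μ => (lev α s μ (1 / ω₀) * ω₀, 2 * μ * ω₀) :=
      (((lev_cont α s).comp (continuous_id.prodMk continuous_const)).mul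
        continuous_const).prodMk (by fun_prop)
    have t := c.tendsto μ₀
    rw [← lev_iff.1 h1] at t
    filter_upwards [t.eventually h2] with μ b
    have b1 := b (by
      rw [hC _ hω]
      simp only [mul_div_cancel_right₀ _ hω', e hω', lev_spec])
    rw [← lev_spec α s μ (1 / ω₀)]
    exact (Ps_strictMono _ _ _).monotone (le_of_mul_le_mul_right b1 hω)
  · have c1 : ContinuousAt (fun q : ℝ × ℝ => 1 / q.2) (μ₀, 1 / ω₀) :=
      continuousAt_const.div continuousAt_snd (by positivity)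
    have e1 : 1 / (1 / ω₀) = ω₀ := one_div_one_div ω₀
    have t1 : Tendsto (fun q : ℝ × ℝ => 1 / q.2) (𝓝 (μ₀, 1 / ω₀)) (𝓝 ω₀) := by
      have := c1.tendsto
      simpa only [e1] using this
    have t2 : Tendsto (fun q : ℝ × ℝ => ((l : ℝ) * (1 / q.2), 2 * q.1 * (1 / q.2)))
        (𝓝 (μ₀, 1 / ω₀)) (𝓝 ((l : ℝ) * ω₀, 2 * μ₀ * ω₀)) :=
      (t1.const_mul _).prodMk_nhds ((continuousAt_fst.tendsto.const_mul 2).mul t1)
    have ev1 : ∀ᶠ q : ℝ × ℝ in 𝓝 (μ₀, 1 / ω₀), 0 < q.2 :=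
      continuousAt_snd.eventually (lt_mem_nhds (by positivity))
    filter_upwards [ev1, t2.eventually hU, t1.eventually (eventually_nhdsWithin_iff.1 h3)]
      with q b1 b2 b3 b4 b5
    have hq : 0 < 1 / q.2 := by positivity
    refine b3 ?_ _ ?_ rfl b2
    · rw [mem_Ioi, lt_div_iff₀ b1]
      rw [lt_div_iff₀ hω] at b4
      linarith
    · rw [hC _ hq]
      simp only [mul_div_cancel_right₀ _ hq.ne', e hq.ne', one_div_one_div]
      exact b5

end Pool.Agent.Lib.MP_60675c_an
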