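import Pool.Agent.Lib.MP_60675c_an.Trace

-- part Pool.Agent.Lib.MP_60675c_an.Global
section

/-! Global behaviour along the axis `ν = l`. -/

set_option autoImplicit false

open Filter Topology MeasureTheory intervalIntegral Complex ComplexConjugate Set

namespace Pool.Agent.Lib.MP_60675c_an

lemma Sy.le_mx {α : ℝ} (h : Sy α) (ν μ η : ℝ) : Ps ν μ η α ≤ mx ν μ η := by
  rcases h with rfl | rfl
  · exact le_max_left _ _
  · exact le_max_right _ _

lemma Sy.mn_le {α : ℝ} (h : Sy α) (ν μ η : ℝ) : mn ν μ η ≤ Ps ν μ η α := by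
  rcases h with rfl | rfl
  · exact min_le_left _ _
  · exact min_le_right _ _

lemma mx_choice (ν μ η : ℝ) : ∃ α, Sy α ∧ Ps ν μ η α = mx ν μ η := by
  rcases max_choice (Ps ν μ η 0) (Ps ν μ η (Real.pi / 2)) with h | h
  · exact ⟨0, Or.inl rfl, h.symm⟩
  · exact ⟨_, Or.inr rfl, h.symm⟩

lemma mn_choice (ν μ η : ℝ) : ∃ α, Sy α ∧ Ps ν μ η α = mn ν μ η := by
  rcases min_choice (Ps ν μ η 0) (Ps ν μ η (Real.pi / 2)) with h | h
  · exact ⟨0, Or.inl rfl, h.symm⟩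
  · exact ⟨_, Or.inr rfl, h.symm⟩

lemma mx_down {l : ℕ} {μ e a b : ℝ} (hμ : 0 < μ) (he : Ev l e) (ha : 0 < a) (hab : a ≤ b)
    (h : e ≤ mx l μ b) : e ≤ mx l μ a := by
  refine ge_of_level (f := fun η => mx l μ η) (by fun_prop) hab h fun x hx hxe => ?_
  obtain ⟨α, hα, e1⟩ := mx_choice l μ x
  rw [hxe] at e1
  obtain ⟨α', hα', e2, hS⟩ := even_cross hμ (ha.trans hx.1) hα (e1 ▸ he)
  filter_upwards [(Ps_loc_eta hS).1] with y hy
  rw [e2, e1] at hy
  exact hy.le.trans (hα'.le_mx _ _ _)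

lemma mn_up {l : ℕ} {μ e a b : ℝ} (hμ : 0 < μ) (he : Ev l e) (ha : 0 < a) (hab : a ≤ b)
    (h : mn l μ a ≤ e) : mn l μ b ≤ e := by
  refine le_of_level (f := fun η => mn l μ η) (by fun_prop) hab h fun x hx hxe => ?_
  obtain ⟨α, hα, e1⟩ := mn_choice l μ x
  rw [hxe] at e1
  obtain ⟨α', hα', e2, hS⟩ := even_cross hμ (ha.trans_le hx.1) hα (e1 ▸ he)
  filter_upwards [(Ps_loc_eta hS).2] with y hy
  rw [e2, e1] at hy
  exact (hα'.mn_le _ _ _).trans hy.le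

lemma eT_isSol (ν μ : ℝ) : IsSol ν μ 0 0 (eT ν μ) (fun _ => 0) :=
  ⟨fun τ => (eT_deriv ν μ τ).congr_deriv (by ring),
    fun τ => by simpa using hasDerivAt_const τ (0 : ℂ)⟩

lemma eT_per (l : ℕ) (μ : ℝ) : Per l (eT l μ) := by
  have e3 : ((-1 : ℂ) ^ l) * (-1) ^ l = 1 := by rw [← mul_pow]; simp
  rw [Per, ← eT_neg_pi]
  linear_combination (-eT l μ (-Real.pi)) * e3

lemma ww_eta_zero (ν μ α τ : ℝ) : ww ν μ 0 α τ = exp (α * I) * eT ν μ τ := by
  have h1 : ∀ τ, HasDerivAt (fun τ => ww ν μ 0 α τ * conj (eT ν μ τ)) 0 τ := by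
    intro τ
    refine ((ww_deriv ν μ 0 α τ).mul (hasDerivAt_conj (eT_deriv ν μ τ))).congr_deriv ?_
    rw [aa_real, map_mul, map_mul, conj_I, conj_ofReal]
    simp only [zero_div, ofReal_zero]
    ring
  have h2 := is_const_of_deriv_eq_zero (fun τ => (h1 τ).differentiableAt)
    (fun τ => (h1 τ).deriv) τ 0
  rw [ww_zero, eT_zero, map_one, mul_one] at h2
  rw [← h2]
  linear_combination (-ww ν μ 0 α τ) * eT_mul_conj ν μ τ

lemma bessel_ne (l : ℕ) {μ : ℝ} (hμ : μ ≠ 0) :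
    ¬ ∀ᶠ μ' in 𝓝 μ, cg l μ' (eT l μ') 0 = 0 := by
  intro h
  have hpi := Real.pi_pos
  have c0 := h.self_of_nhds
  set J : ℂ := ∫ τ in (-Real.pi)..Real.pi, eT l μ τ * eT l μ τ * (Real.sin τ : ℝ) with hJ
  have hb : ∀ᶠ t : ℝ in 𝓝[>] 0, ‖J‖ ≤ 4 * Real.pi * t := by
    have ht : Tendsto (fun t : ℝ => μ + t) (𝓝[>] 0) (𝓝 μ) := by
      have : Tendsto (fun t : ℝ => μ + t) (𝓝 0) (𝓝 (μ + 0)) :=
        (continuous_const.add continuous_id).tendsto 0
      rw [add_zero] at this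
      exact this.mono_left nhdsWithin_le_nhds
    filter_upwards [ht.eventually h, Ioo_mem_nhdsGT (show (0 : ℝ) < 1 / 2 by norm_num)]
      with t h1 h2
    have e : ∀ τ, eT l (μ + t) τ * eT l (μ + t) τ =
        eT l μ τ * eT l μ τ * exp ((2 * t * Real.sin τ : ℝ) * I) := by
      intro τ
      simp only [eT, ← exp_add]
      congr 1; push_cast; ring
    have e2 : ∫ τ in (-Real.pi)..Real.pi, eT l μ τ * eT l μ τ *
        (exp ((2 * t * Real.sin τ : ℝ) * I) - 1 - (2 * t * Real.sin τ : ℝ) * I) =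
        cg l (μ + t) (eT l (μ + t)) 0 - cg l μ (eT l μ) 0 - 2 * t * I * J := by
      rw [hJ, cg, cg, co, co, ← intervalIntegral.integral_const_mul,
        ← intervalIntegral.integral_sub (Continuous.intervalIntegrable (by fun_prop) _ _)
          (Continuous.intervalIntegrable (by fun_prop) _ _),
        ← intervalIntegral.integral_sub (Continuous.intervalIntegrable (by fun_prop) _ _)
          (Continuous.intervalIntegrable (by fun_prop) _ _)]
      congr 1; funext τ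
      rw [e]
      simp only [Int.cast_zero, zero_mul, exp_zero]
      push_cast; ring
    have e3 := intervalIntegral.norm_integral_le_of_norm_le_const (a := -Real.pi) (b := Real.pi)
      (C := (2 * t) ^ 2) (f := fun τ => eT l μ τ * eT l μ τ *
        (exp ((2 * t * Real.sin τ : ℝ) * I) - 1 - (2 * t * Real.sin τ : ℝ) * I)) (fun τ _ => by
      have n1 : ‖eT l μ τ‖ = 1 := norm_exp_ofReal_mul_I _
      have n2 : ‖((2 * t * Real.sin τ : ℝ) : ℂ) * I‖ ≤ 2 * t := by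
        rw [norm_mul, norm_I, mul_one, norm_real, Real.norm_eq_abs, abs_mul,
          abs_of_pos (by linarith [h2.1] : 0 < 2 * t)]
        exact mul_le_of_le_one_right (by linarith [h2.1]) (Real.abs_sin_le_one τ)
      rw [norm_mul, norm_mul, n1, one_mul, one_mul]
      refine (norm_exp_sub_one_sub_id_le (n2.trans (by linarith [h2.2]))).trans ?_
      exact pow_le_pow_left₀ (norm_nonneg _) n2 2)
    rw [e2, h1, c0, sub_zero, zero_sub, norm_neg, norm_mul, norm_mul, norm_mul, norm_I,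
      norm_real, norm_ofNat, Real.norm_eq_abs, abs_of_pos h2.1,
      abs_of_pos (by linarith : 0 < Real.pi - -Real.pi)] at e3
    have := h2.1
    nlinarith
  have hJ0 : J = 0 := by
    have ht : Tendsto (fun t : ℝ => 4 * Real.pi * t) (𝓝[>] 0) (𝓝 (4 * Real.pi * 0)) :=
      ((continuous_const.mul continuous_id).tendsto 0).mono_left nhdsWithin_le_nhds
    rw [mul_zero] at ht
    exact norm_le_zero_iff.1 (ge_of_tendsto ht hb)
  have e1 : cg l μ (eT l μ) 1 - cg l μ (eT l μ) (-1) = 2 * I * J := by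
    rw [hJ, cg, cg, co, co, ← intervalIntegral.integral_const_mul,
      ← intervalIntegral.integral_sub (Continuous.intervalIntegrable (by fun_prop) _ _)
        (Continuous.intervalIntegrable (by fun_prop) _ _)]
    congr 1; funext τ
    have := two_sin (τ : ℂ)
    simp only [Int.cast_one, one_mul, Int.cast_neg, neg_mul, ofReal_sin] at this ⊢
    linear_combination (-I * eT l μ τ * eT l μ τ) * this +
      (eT l μ τ * eT l μ τ * (exp (τ * I) - exp (-(τ * I)))) * I_mul_I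
  have hz : Per l fun _ => 0 := by simp [Per]
  have r0 := rec_g (eT_isSol l μ) (eT_per l μ) 0
  have hμ' : (μ : ℂ) ≠ 0 := ofReal_ne_zero.2 hμ
  rw [c0, mul_zero, zero_add, zero_mul, zero_add, zero_sub] at r0
  have r1 := (mul_eq_zero.1 r0).resolve_left hμ'
  rw [hJ0, mul_zero] at e1
  have p1 : cg l μ (eT l μ) 1 = 0 := by linear_combination (1 / 2) * r1 + (1 / 2) * e1
  have p2 : cg l μ (eT l μ) (-1) = 0 := by linear_combination (1 / 2) * r1 - (1 / 2) * e1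
  have q1 := eq_zero_of_rec hμ' (c := fun k : ℕ => cg l μ (eT l μ) k) (by simpa using c0)
    (by simpa using p1) (rec_pos (eT_isSol l μ) (eT_per l μ) hz)
  have q2 := eq_zero_of_rec hμ' (c := fun k : ℕ => cg l μ (eT l μ) (-k)) (by simpa using c0)
    (by simpa using p2) (rec_neg (eT_isSol l μ) (eT_per l μ) hz)
  have := zero_of_cg (l := l) (μ := μ) (eT_cont l μ) fun n => by
    obtain ⟨k, rfl | rfl⟩ := n.eq_nat_or_neg
    · exact q1 k
    · exact q2 k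
  rw [eT_zero] at this
  exact one_ne_zero this

lemma mn_le_l (l : ℕ) {μ η : ℝ} (hμ : 0 < μ) (hη : 0 < η) : mn l μ η ≤ l := by
  by_contra hc
  apply bessel_ne l hμ.ne'
  have h1 : ∀ᶠ μ' in 𝓝 μ, (l : ℝ) < mn l μ' η :=
    (Continuous.continuousAt (by fun_prop)).eventually (lt_mem_nhds (not_le.1 hc))
  filter_upwards [h1, lt_mem_nhds hμ] with μ' h2 h3
  have key : ∀ α, Sy α → SS l μ' 0 α ≤ 0 := by
    intro α hα
    by_contra hS
    obtain ⟨η', h4, h5⟩ := ((Ps_loc_eta (not_le.1 hS)).2.and (Ioo_mem_nhdsGT hη)).exists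
    rw [Ps_eta_zero] at h4
    have := mn_up h3 (l := l) (e := l) ⟨0, by simp⟩ h5.1 h5.2.le
      ((hα.mn_le _ _ _).trans h4.le)
    linarith
  have e : SS l μ' 0 (Real.pi / 2) = -SS l μ' 0 0 := by
    rw [SS, SS, ← intervalIntegral.integral_neg]
    congr 1; funext τ
    rw [ww_eta_zero, ww_eta_zero, ← neg_re]
    congr 1
    simp only [ofReal_div, ofReal_ofNat, exp_pi_div_two_mul_I, ofReal_zero, zero_mul, exp_zero]
    linear_combination (eT l μ' τ * eT l μ' τ) * I_mul_I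
  have s0 : SS l μ' 0 0 = 0 := by
    have a := key 0 (Or.inl rfl)
    have b := key _ (Or.inr rfl)
    linarith
  have := Sf_self l μ' 0 (α := 0) (Or.inl rfl)
  rw [s0, mul_zero, ofReal_zero] at this
  rw [← this, Sf, cg, co]
  congr 1; funext τ
  simp [ww_eta_zero]

section odd

variable {l : ℕ} {μ s : ℝ}

lemma odd_sin (hs : Ev l (s + 1)) (P Q : ℝ) :
    Real.sin (Real.pi * (P - l) / 2) * Real.sin (Real.pi * (Q - l) / 2) =
      Real.cos (Real.pi * (P - s) / 2) * Real.cos (Real.pi * (Q - s) / 2) ∧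
    Real.cos (Real.pi * (P - l) / 2) * Real.cos (Real.pi * (Q - l) / 2) =
      Real.sin (Real.pi * (P - s) / 2) * Real.sin (Real.pi * (Q - s) / 2) := by
  obtain ⟨k, hk⟩ := hs
  have e : ∀ P : ℝ, Real.pi * (P - l) / 2 = Real.pi * (P - s) / 2 - Real.pi / 2 + k * Real.pi := by
    intro P
    have : (l : ℝ) = s + 1 - 2 * k := by linarith
    rw [this]; ring
  have h : ((-1 : ℝ) ^ k) * (-1) ^ k = 1 := by rw [← mul_zpow]; simp
  rw [e P, e Q, Real.sin_add_int_mul_pi, Real.sin_add_int_mul_pi, Real.cos_add_int_mul_pi,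
    Real.cos_add_int_mul_pi, Real.sin_sub_pi_div_two, Real.sin_sub_pi_div_two,
    Real.cos_sub_pi_div_two, Real.cos_sub_pi_div_two]
  constructor
  · linear_combination (Real.cos (Real.pi * (P - s) / 2) * Real.cos (Real.pi * (Q - s) / 2)) * h
  · linear_combination (Real.sin (Real.pi * (P - s) / 2) * Real.sin (Real.pi * (Q - s) / 2)) * h

lemma odd_cos_zero (hs : Ev l (s + 1)) : Real.cos (Real.pi * (s - l) / 2) = 0 := by
  have := (odd_sin hs s s).2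
  simpa using this

/-- both increments lie in the band around `s` -/
def Band (l : ℕ) (μ s η : ℝ) : Prop := s - 1 < mn l μ η ∧ mx l μ η < s + 1

/-- logarithm of the modulus of the normalised trace -/
noncomputable def lT (l : ℕ) (μ η : ℝ) : ℝ := Real.log ‖TT l μ (η / 2 * (η / 2) : ℝ)‖

lemma sin_sign {d : ℝ} (h1 : -1 < d) (h2 : d < 1) :
    (0 < d → 0 < Real.sin (Real.pi * d / 2)) ∧ (d < 0 → Real.sin (Real.pi * d / 2) < 0) := by
  have hpi := Real.pi_pos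
  exact ⟨fun h => Real.sin_pos_of_pos_of_lt_pi (by positivity) (by nlinarith),
    fun h => Real.sin_neg_of_neg_of_neg_pi_lt (by nlinarith) (by nlinarith)⟩

lemma band_facts (hs : Ev l (s + 1)) {η : ℝ} (hη : η ≠ 0) (hb : Band l μ s η) :
    (∃ t : ℝ, t < 0 ∧ TT l μ (η / 2 * (η / 2) : ℝ) = t) ∧
    ((mn l μ η = s ∨ mx l μ η = s) → lT l μ η = 0) ∧
    (0 < lT l μ η → mn l μ η < s ∧ s < mx l μ η) ∧
    (lT l μ η < 0 → s < mn l μ η ∨ mx l μ η < s) := by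
  have hpi := Real.pi_pos
  set P := Ps l μ η 0 with hP
  set Q := Ps l μ η (Real.pi / 2) with hQ
  have P1 : -1 < P - s := by linarith [hb.1, min_le_left P Q, show mn l μ η = min P Q from rfl]
  have Q1 : -1 < Q - s := by linarith [hb.1, min_le_right P Q, show mn l μ η = min P Q from rfl]
  have P2 : P - s < 1 := by linarith [hb.2, le_max_left P Q, show mx l μ η = max P Q from rfl]
  have Q2 : Q - s < 1 := by linarith [hb.2, le_max_right P Q, show mx l μ η = max P Q from rfl]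
  have r := mul_pos (rr_pos l μ η 0 Real.pi) (rr_pos l μ η (Real.pi / 2) Real.pi)
  have e1 := TT_eq l μ hη
  have e2 := TT_add_one l μ hη
  rw [← hP, ← hQ, (odd_sin hs P Q).1] at e1
  rw [← hP, ← hQ, mul_mul_mul_comm, (odd_sin hs P Q).2] at e2
  have cP : 0 < Real.cos (Real.pi * (P - s) / 2) :=
    Real.cos_pos_of_mem_Ioo ⟨by nlinarith, by nlinarith⟩
  have cQ : 0 < Real.cos (Real.pi * (Q - s) / 2) :=
    Real.cos_pos_of_mem_Ioo ⟨by nlinarith, by nlinarith⟩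
  set t := rr l μ η 0 Real.pi * rr l μ η (Real.pi / 2) Real.pi *
    (Real.cos (Real.pi * (P - s) / 2) * Real.cos (Real.pi * (Q - s) / 2)) with ht
  have tpos : 0 < t := mul_pos r (mul_pos cP cQ)
  have e3 : -t + 1 = rr l μ η 0 Real.pi * rr l μ η (Real.pi / 2) Real.pi *
      (Real.sin (Real.pi * (P - s) / 2) * Real.sin (Real.pi * (Q - s) / 2)) := by
    rw [e1] at e2
    exact_mod_cast e2
  have e4 : lT l μ η = Real.log t := by
    rw [lT, e1, norm_real, Real.norm_eq_abs, abs_neg, abs_of_pos tpos]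
  have sP := sin_sign P1 P2
  have sQ := sin_sign Q1 Q2
  refine ⟨⟨-t, by linarith, e1⟩, fun h => ?_, fun h => ?_, fun h => ?_⟩
  · have : P = s ∨ Q = s := by
      rcases h with h | h
      · rcases min_choice P Q with h' | h'
        · exact Or.inl (h'.symm.trans h)
        · exact Or.inr (h'.symm.trans h)
      · rcases max_choice P Q with h' | h'
        · exact Or.inl (h'.symm.trans h)
        · exact Or.inr (h'.symm.trans h)
    have t1 : t = 1 := by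
      rcases this with h' | h' <;> rw [h'] at e3 <;> simp at e3 <;> linarith
    rw [e4, t1, Real.log_one]
  · rw [e4, Real.log_pos_iff tpos.le] at h
    have h2 : Real.sin (Real.pi * (P - s) / 2) * Real.sin (Real.pi * (Q - s) / 2) < 0 := by
      by_contra hc
      nlinarith [mul_nonneg r.le (not_lt.1 hc)]
    change min P Q < s ∧ s < max P Q
    rw [min_lt_iff, lt_max_iff]
    rcases lt_trichotomy (P - s) 0 with a | a | a
    · rcases lt_trichotomy (Q - s) 0 with b | b | b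
      · exact absurd (mul_pos_of_neg_of_neg (sP.2 a) (sQ.2 b)) (not_lt.2 h2.le)
      · rw [b] at h2; simp at h2
      · exact ⟨Or.inl (by linarith), Or.inr (by linarith)⟩
    · rw [a] at h2; simp at h2
    · rcases lt_trichotomy (Q - s) 0 with b | b | b
      · exact ⟨Or.inr (by linarith), Or.inl (by linarith)⟩
      · rw [b] at h2; simp at h2
      · exact absurd (mul_pos (sP.1 a) (sQ.1 b)) (not_lt.2 h2.le)
  · rw [e4, Real.log_neg_iff tpos] at h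
    have h2 : 0 < Real.sin (Real.pi * (P - s) / 2) * Real.sin (Real.pi * (Q - s) / 2) := by
      have : 0 < rr l μ η 0 Real.pi * rr l μ η (Real.pi / 2) Real.pi *
        (Real.sin (Real.pi * (P - s) / 2) * Real.sin (Real.pi * (Q - s) / 2)) := by linarith
      exact (mul_pos_iff_of_pos_left r).1 this
    change s < min P Q ∨ max P Q < s
    rw [lt_min_iff, max_lt_iff]
    rcases lt_trichotomy (P - s) 0 with a | a | a
    · rcases lt_trichotomy (Q - s) 0 with b | b | b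
      · exact Or.inr ⟨by linarith, by linarith⟩
      · rw [b] at h2; simp at h2
      · exact absurd (mul_neg_of_neg_of_pos (sP.2 a) (sQ.1 b)) (not_lt.2 h2.le)
    · rw [a] at h2; simp at h2
    · rcases lt_trichotomy (Q - s) 0 with b | b | b
      · exact absurd (mul_neg_of_pos_of_neg (sP.1 a) (sQ.2 b)) (not_lt.2 h2.le)
      · rw [b] at h2; simp at h2
      · exact Or.inl ⟨by linarith, by linarith⟩

lemma band_conc (hμ : μ ≠ 0) (hs : Ev l (s + 1)) {a b : ℝ} (ha : 0 < a) (hab : a ≤ b)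
    (hb : ∀ η ∈ Icc a b, Band l μ s η) :
    StrictConcaveOn ℝ (Icc (a / 2 * (a / 2)) (b / 2 * (b / 2)))
      (fun x : ℝ => Real.log ‖TT l μ x‖) ∧
    StrictAntiOn (fun x : ℝ => (logDeriv (fun x => TT l μ x) x).re)
      (Icc (a / 2 * (a / 2)) (b / 2 * (b / 2))) ∧
    ∀ x ∈ Icc (a / 2 * (a / 2)) (b / 2 * (b / 2)),
      HasDerivAt (fun x : ℝ => Real.log ‖TT l μ x‖) (logDeriv (fun x => TT l μ x) x).re x := by
  refine log_concave (TT_diff_x l μ) (fun x hx => ?_) (TT_laguerre l hμ)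
  have hx0 : 0 < x := lt_of_lt_of_le (by positivity) hx.1
  have e : 2 * √x / 2 * (2 * √x / 2) = x := by
    rw [mul_div_cancel_left₀ _ two_ne_zero, Real.mul_self_sqrt hx0.le]
  have h1 : a / 2 ≤ √x := Real.le_sqrt_of_sq_le (by rw [sq]; exact hx.1)
  have h2 : √x ≤ |b / 2| := by
    rw [← Real.sqrt_mul_self_eq_abs]; exact Real.sqrt_le_sqrt hx.2
  rw [abs_of_nonneg (by linarith)] at h2
  have := (band_facts hs (η := 2 * √x) (by positivity) (hb _ ⟨by linarith, by linarith⟩)).1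
  rwa [e] at this

lemma sq_lt {a b : ℝ} (ha : 0 < a) (hab : a < b) : a / 2 * (a / 2) < b / 2 * (b / 2) := by
  nlinarith

lemma band_between (hμ : μ ≠ 0) (hs : Ev l (s + 1)) {a b η : ℝ} (ha : 0 < a) (h1 : a < η)
    (h2 : η < b) (hb : ∀ η ∈ Icc a b, Band l μ s η) (fa : 0 ≤ lT l μ a) (fb : 0 ≤ lT l μ b) :
    0 < lT l μ η := by
  have hab := sq_lt ha (h1.trans h2)
  have := (band_conc hμ hs ha (h1.trans h2).le hb).1.lt_on_openSegment
    (left_mem_Icc.2 hab.le) (right_mem_Icc.2 hab.le) hab.ne (z := η / 2 * (η / 2))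
    (by rw [openSegment_eq_Ioo hab]; exact ⟨sq_lt ha h1, sq_lt (ha.trans h1) h2⟩)
  exact (le_min fa fb).trans_lt this

lemma band_slope (hμ : μ ≠ 0) (hs : Ev l (s + 1)) {a b : ℝ} (ha : 0 < a) (h : a < b)
    (hb : ∀ η ∈ Icc a b, Band l μ s η) (f : lT l μ a = lT l μ b) :
    deriv (fun x => TT l μ x) (b / 2 * (b / 2) : ℝ) ≠ 0 := by
  have hab := sq_lt ha h
  obtain ⟨-, h2, h3⟩ := band_conc hμ hs ha h.le hb
  obtain ⟨c, hc, hc0⟩ := exists_hasDerivAt_eq_zero hab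
    (fun x hx => (h3 x hx).continuousAt.continuousWithinAt) f
    (fun x hx => h3 x (Ioo_subset_Icc_self hx))
  have := h2 (Ioo_subset_Icc_self hc) (right_mem_Icc.2 hab.le) hc.2
  intro h0
  beta_reduce at this
  rw [hc0, logDeriv_apply, h0, zero_div, zero_re] at this
  exact lt_irrefl _ this

lemma odd_left (hμ : 0 < μ) (hs : Ev l (s + 1)) (hs0 : 0 ≤ s) {Φ : ℝ → ℝ}
    (hΦ : Φ = mn l μ ∨ Φ = mx l μ) {η₀ η' : ℝ} (h0 : Φ η₀ = s) (h1 : 0 < η') (h2 : η' < η₀) :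
    s ≤ Φ η' := by
  by_contra hc
  have hc : Φ η' < s := not_le.1 hc
  have hη₀ : 0 < η₀ := h1.trans h2
  have hs' : Ev l (s - 1) := by
    obtain ⟨k, hk⟩ := hs
    exact ⟨k - 1, by push_cast; linarith⟩
  have Φc : Continuous Φ := by
    rcases hΦ with rfl | rfl <;> fun_prop
  have Φb : ∀ η, mn l μ η ≤ Φ η ∧ Φ η ≤ mx l μ η := by
    intro η
    rcases hΦ with rfl | rfl
    · exact ⟨le_rfl, mn_le _ _ _⟩
    · exact ⟨mn_le _ _ _, le_rfl⟩
  have Φe : ∀ η, Φ η = s → mn l μ η = s ∨ mx l μ η = s := by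
    intro η h
    rcases hΦ with rfl | rfl
    · exact Or.inl h
    · exact Or.inr h
  have low : ∀ b, s - 1 < mn l μ b → ∀ η, 0 < η → η ≤ b → s - 1 < mn l μ η := by
    intro b hb η a1 a2
    by_contra h
    exact absurd (mn_up hμ hs' a1 a2 (not_lt.1 h)) (not_le.2 hb)
  have up : ∀ a, 0 < a → mx l μ a < s + 1 → ∀ η, a ≤ η → mx l μ η < s + 1 := by
    intro a ha hb η a1
    by_contra h
    exact absurd (mx_down hμ hs ha a1 (not_lt.1 h)) (not_le.2 hb)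
  have m0 : s - 1 < mn l μ η₀ := by linarith [mx_lt l μ η₀, (Φb η₀).2]
  have hl : s + 1 ≤ l := by
    obtain ⟨k, hk⟩ := hs
    have := mn_le_l l hμ hη₀
    have h3 : ((k : ℝ)) < 1 := by linarith
    have h4 : k < 1 := by exact_mod_cast h3
    have h5 : ((k : ℝ)) ≤ 0 := by exact_mod_cast (by omega : k ≤ 0)
    linarith
  have Φ0 : Φ 0 = l := by
    rcases hΦ with rfl | rfl
    · simp [mn, Ps_eta_zero]
    · simp [mx, Ps_eta_zero]
  obtain ⟨η₁, hη₁, e1⟩ : s ∈ Φ '' Ioo 0 η' :=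
    intermediate_value_Ioo' h1.le Φc.continuousOn ⟨hc, by rw [Φ0]; linarith⟩
  have M1 : mx l μ η₁ < s + 1 := by linarith [mx_lt l μ η₁, (Φb η₁).1]
  have band : ∀ b, s - 1 < mn l μ b → ∀ η ∈ Icc η₁ b, Band l μ s η := fun b hb η hη =>
    ⟨low b hb η (hη₁.1.trans_le hη.1) hη.2, up η₁ hη₁.1 M1 η hη.1⟩
  have b0 := band η₀ m0
  have h10 : η₁ < η₀ := hη₁.2.trans h2
  have f1 : lT l μ η₁ = 0 :=
    (band_facts hs hη₁.1.ne' (b0 _ (left_mem_Icc.2 h10.le))).2.1 (Φe _ e1)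
  have f0 : lT l μ η₀ = 0 :=
    (band_facts hs hη₀.ne' (b0 _ (right_mem_Icc.2 h10.le))).2.1 (Φe _ h0)
  rcases hΦ with rfl | rfl
  · have hd := band_slope hμ.ne' hs hη₁.1 h10 b0 (f1.trans f0.symm)
    have hM : s < mx l μ η₀ := by
      refine lt_of_le_of_ne (h0 ▸ mn_le _ _ _) fun h => hd ?_
      have a1 : Ps l μ η₀ 0 = s :=
        le_antisymm (h ▸ le_max_left _ _) (h0 ▸ min_le_left _ _)
      have a2 : Ps l μ η₀ (Real.pi / 2) = s :=
        le_antisymm (h ▸ le_max_right _ _) (h0 ▸ min_le_right _ _)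
      exact TT_double l μ hη₀.ne' (by rw [a1]; exact odd_cos_zero hs)
        (by rw [a2]; exact odd_cos_zero hs)
    have ev1 : ∀ᶠ η in 𝓝 η₀, s < mx l μ η :=
      (Continuous.continuousAt (by fun_prop)).eventually (lt_mem_nhds hM)
    have ev2 : ∀ᶠ η in 𝓝 η₀, s - 1 < mn l μ η := Φc.continuousAt.eventually (lt_mem_nhds m0)
    have ev3 : ∀ᶠ η in 𝓝[>] η₀, s < mx l μ η ∧ s - 1 < mn l μ η :=
      nhdsWithin_le_nhds (ev1.and ev2)
    obtain ⟨η₃, ⟨g1, g2⟩, g3⟩ := (ev3.and self_mem_nhdsWithin).exists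
    have g3 : η₀ < η₃ := g3
    have f3 : lT l μ η₃ < 0 := by
      by_contra h
      have := band_between hμ.ne' hs hη₁.1 h10 g3 (band η₃ g2) f1.ge (not_lt.1 h)
      linarith
    have m3 : s < mn l μ η₃ :=
      ((band_facts hs (hη₀.trans g3).ne' (band η₃ g2 _ (right_mem_Icc.2 (h10.trans g3).le))).2.2.2
        f3).resolve_right (not_lt.2 g1.le)
    have big : mn l μ (η₃ + l + 2 * |μ|) ≤ s :=
      ((min_le_left _ _).trans (Ps_nonpos (by linarith))).trans hs0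
    obtain ⟨η₂, hη₂, e2⟩ : s ∈ mn l μ '' Icc η₃ (η₃ + l + 2 * |μ|) :=
      intermediate_value_Icc' (by linarith [abs_nonneg μ, Nat.cast_nonneg (α := ℝ) l])
        Φc.continuousOn ⟨big, m3.le⟩
    have h02 : η₀ < η₂ := g3.trans_le hη₂.1
    have b2 := band η₂ (by linarith)
    have f2 : lT l μ η₂ = 0 :=
      (band_facts hs (hη₀.trans h02).ne' (b2 _ (right_mem_Icc.2 (h10.trans h02).le))).2.1
        (Or.inl e2)
    have := band_between hμ.ne' hs hη₁.1 h10 h02 b2 f1.ge f2.ge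
    linarith
  · have := band_between hμ.ne' hs hη₁.1 hη₁.2 h2 b0 f1.ge f0.ge
    have := ((band_facts hs h1.ne' (b0 _ ⟨hη₁.2.le, h2.le⟩)).2.2.1 this).2
    linarith

end odd

end Pool.Agent.Lib.MP_60675c_an
end

-- part Pool.Agent.Lib.MP_60675c_an.Core
section

/-! Absence of left-moving tangencies in terms of the phase increments. -/

set_option autoImplicit false

open Filter Topology MeasureTheory intervalIntegral Complex ComplexConjugate Set

namespace Pool.Agent.Lib.MP_60675c_an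

lemma ev_or (l s : ℕ) : Ev l s ∨ Ev l ((s : ℝ) + 1) := by
  rcases Int.even_or_odd' ((s : ℤ) - l) with ⟨k, hk | hk⟩
  · left
    refine ⟨k, ?_⟩
    have : ((s : ℤ) : ℝ) - ((l : ℤ) : ℝ) = 2 * (k : ℝ) := by exact_mod_cast hk
    push_cast at this; linarith
  · right
    refine ⟨k + 1, ?_⟩
    have : ((s : ℤ) : ℝ) - ((l : ℤ) : ℝ) = 2 * (k : ℝ) + 1 := by exact_mod_cast hk
    push_cast at this ⊢; linarith

lemma freq_of_left {p : ℝ × ℝ → Prop} {μ₀ η₀ : ℝ} (h : ∀ᶠ η in 𝓝[<] η₀, p (μ₀, η)) :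
    ∃ᶠ q in 𝓝 (μ₀, η₀), q.2 < η₀ ∧ p q := by
  have ht : Tendsto (fun η : ℝ => (μ₀, η)) (𝓝[<] η₀) (𝓝 (μ₀, η₀)) :=
    ((continuous_const.prodMk continuous_id).tendsto η₀).mono_left nhdsWithin_le_nhds
  refine ht.frequently (Eventually.frequently ?_)
  filter_upwards [h, self_mem_nhdsWithin] with η h1 h2
  exact ⟨h2, h1⟩

lemma box_of_ev {p : ℝ × ℝ → Prop} {μ₀ η₀ : ℝ} (h : ∀ᶠ q in 𝓝 (μ₀, η₀), p q) :
    ∃ ε > 0, ∀ μ η, |μ - μ₀| < ε → |η - η₀| < ε → p (μ, η) := by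
  obtain ⟨ε, hε, h⟩ := Metric.eventually_nhds_iff.1 h
  refine ⟨ε, hε, fun μ η h1 h2 => h ?_⟩
  rw [Prod.dist_eq, max_lt_iff]
  exact ⟨h1, h2⟩

lemma persist {l : ℕ} {μ₀ η₀ s : ℝ} (hμ : 0 < μ₀) (hη : 0 < η₀) (hs : Ev l s)
    (h0 : mn l μ₀ η₀ = s) (hD : Dec l μ₀ (η₀ / 2 * (η₀ / 2))) :
    ∃ᶠ q in 𝓝 (μ₀, η₀), q.2 < η₀ ∧ s ≤ mn l q.1 q.2 := by
  obtain ⟨e0, e1, r0, r1, hS⟩ := constr hμ hη hD
  have e := ev_eq e0 e1 (Ps_close _ _ _)
  obtain ⟨α, hα, hP, hR, hN⟩ : ∃ α, Sy α ∧ Ps l μ₀ η₀ α = s ∧ RR l μ₀ η₀ α ≠ 0 ∧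
      SS l μ₀ η₀ α < 0 := by
    rw [mn, ← e, min_self] at h0
    rcases mul_neg_iff.1 hS with h2 | h2
    · exact ⟨_, Or.inr rfl, e.symm.trans h0, r1, h2.2⟩
    · exact ⟨_, Or.inl rfl, h0, r0, h2.1⟩
  intro hU
  have cS : Continuous fun q : ℝ × ℝ => SS l q.1 q.2 α :=
    SS_cont continuous_const continuous_fst continuous_snd continuous_const
  have v1 : ∀ᶠ q : ℝ × ℝ in 𝓝 (μ₀, η₀), SS l q.1 q.2 α < 0 :=
    (isOpen_lt cS continuous_const).mem_nhds hN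
  have v2 : ∀ᶠ q : ℝ × ℝ in 𝓝 (μ₀, η₀), 0 < q.1 :=
    continuousAt_fst.eventually (lt_mem_nhds hμ)
  have v3 : ∀ᶠ q : ℝ × ℝ in 𝓝 (μ₀, η₀), 0 < q.2 :=
    continuousAt_snd.eventually (lt_mem_nhds hη)
  obtain ⟨ε, hε, hbox⟩ := box_of_ev (p := fun q : ℝ × ℝ => ¬ (q.2 < η₀ ∧ s ≤ mn l q.1 q.2) ∧
    SS l q.1 q.2 α < 0 ∧ 0 < q.1 ∧ 0 < q.2) (Eventually.and hU (v1.and (v2.and v3)))
  simp only at hbox
  have hloc := Ps_loc_mu hR
  rw [hP] at hloc
  obtain ⟨μ₁, a1, a2⟩ := ((hloc.filter_mono (nhdsWithin_le_nhds (s := Iio μ₀))).and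
    (Ioo_mem_nhdsLT (show μ₀ - ε < μ₀ by linarith))).exists
  obtain ⟨μ₂, b1, b2⟩ := ((hloc.filter_mono (nhdsWithin_le_nhds (s := Ioi μ₀))).and
    (Ioo_mem_nhdsGT (show μ₀ < μ₀ + ε by linarith))).exists
  have a3 := a1 a2.2.ne
  have b3 := b1 b2.1.ne'
  have a4 : RR l μ₀ η₀ α * (Ps l μ₁ η₀ α - s) < 0 := by
    by_contra h
    nlinarith [mul_nonneg (sub_pos.2 a2.2).le (not_lt.1 h)]
  have b4 : 0 < RR l μ₀ η₀ α * (Ps l μ₂ η₀ α - s) := by
    rw [mul_assoc] at b3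
    exact (mul_pos_iff_of_pos_left (sub_pos.2 b2.1)).1 b3
  have w1 : ∀ᶠ η in 𝓝 η₀, RR l μ₀ η₀ α * (Ps l μ₁ η α - s) < 0 :=
    (Continuous.continuousAt (f := fun η => RR l μ₀ η₀ α * (Ps l μ₁ η α - s))
      (by fun_prop)).eventually (gt_mem_nhds a4)
  have w2 : ∀ᶠ η in 𝓝 η₀, 0 < RR l μ₀ η₀ α * (Ps l μ₂ η α - s) :=
    (Continuous.continuousAt (f := fun η => RR l μ₀ η₀ α * (Ps l μ₂ η α - s))
      (by fun_prop)).eventually (lt_mem_nhds b4)
  obtain ⟨η, ⟨c1, c2⟩, c3⟩ := (((w1.and w2).filter_mono (nhdsWithin_le_nhds (s := Iio η₀))).and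
    (Ioo_mem_nhdsLT (show η₀ - ε < η₀ by linarith))).exists
  obtain ⟨μ, d1, d2⟩ : (0 : ℝ) ∈ (fun μ => RR l μ₀ η₀ α * (Ps l μ η α - s)) '' Icc μ₁ μ₂ :=
    intermediate_value_Icc (a2.2.trans b2.1).le (Continuous.continuousOn (by fun_prop))
      ⟨c1.le, c2.le⟩
  have d3 : Ps l μ η α = s := sub_eq_zero.1 ((mul_eq_zero.1 d2).resolve_left hR)
  obtain ⟨g1, g2, g3, g4⟩ := hbox μ η
    (abs_lt.2 ⟨by linarith [a2.1, d1.1], by linarith [b2.2, d1.2]⟩)
    (abs_lt.2 ⟨by linarith [c3.1], by linarith [c3.2]⟩)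
  apply g1
  refine ⟨c3.2, ?_⟩
  have hs2 : Ev l (Ps l μ η α) := by rw [d3]; exact hs
  rcases even_alt (ne_of_gt g3) g4 hα hs2 with h | h
  · exact absurd h (not_lt.2 (le_of_lt g2))
  · obtain ⟨f0, f1, -⟩ := constr g3 g4 h
    have f := ev_eq f0 f1 (Ps_close _ _ _)
    rw [mn]
    rcases hα with rfl | rfl
    · rw [← f, min_self, d3]
    · rw [f, min_self, d3]

lemma near_ge {l s : ℕ} {μ₀ η₀ : ℝ} (hμ : 0 < μ₀) (hη : 0 < η₀) {Φ : ℝ → ℝ → ℝ → ℝ}
    (hΦ : Φ = mn ∨ Φ = mx) (h0 : Φ l μ₀ η₀ = s) :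
    ∃ᶠ q in 𝓝 (μ₀, η₀), q.2 < η₀ ∧ (s : ℝ) ≤ Φ l q.1 q.2 := by
  rcases ev_or l s with hs | hs
  · rcases hΦ with rfl | rfl
    · by_cases hD : Dec l μ₀ (η₀ / 2 * (η₀ / 2))
      · exact persist hμ hη hs h0 hD
      · have key : ∀ α, Sy α → ∀ᶠ η in 𝓝[<] η₀, (s : ℝ) ≤ Ps l μ₀ η α := by
          intro α hα
          rcases eq_or_lt_of_le (h0 ▸ hα.mn_le l μ₀ η₀) with h | h
          · have := (even_alt hμ.ne' hη hα (h ▸ hs)).resolve_right hD
            filter_upwards [(Ps_loc_eta this).1] with η h1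
            linarith
          · have : ∀ᶠ η in 𝓝 η₀, (s : ℝ) < Ps l μ₀ η α :=
              (Continuous.continuousAt (by fun_prop)).eventually (lt_mem_nhds h)
            filter_upwards [nhdsWithin_le_nhds this] with η h1
            exact h1.le
        refine freq_of_left (p := fun q => (s : ℝ) ≤ mn l q.1 q.2) ?_
        filter_upwards [key 0 (Or.inl rfl), key _ (Or.inr rfl)] with η h1 h2
        exact le_min h1 h2
    · refine freq_of_left (p := fun q => (s : ℝ) ≤ mx l q.1 q.2) ?_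
      filter_upwards [Ioo_mem_nhdsLT hη] with η h
      exact mx_down hμ hs h.1 h.2.le h0.ge
  · refine freq_of_left (p := fun q => (s : ℝ) ≤ Φ l q.1 q.2) ?_
    filter_upwards [Ioo_mem_nhdsLT hη] with η h
    exact odd_left hμ hs (Nat.cast_nonneg s) (Φ := Φ l μ₀)
      (by rcases hΦ with rfl | rfl <;> simp) h0 h.1 h.2

lemma not_const {l s : ℕ} {μ₀ η₀ : ℝ} (hη : 0 < η₀) {Φ : ℝ → ℝ → ℝ → ℝ}
    (hΦ : Φ = mn ∨ Φ = mx) : ¬ ∀ᶠ μ in 𝓝 μ₀, Φ l μ η₀ = s := by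
  intro h
  set x : ℂ := ((η₀ / 2 * (η₀ / 2) : ℝ) : ℂ) with hx
  have hF : Differentiable ℂ fun z => TT l z x * (TT l z x + 1) :=
    (TT_diff_mu l x).mul ((TT_diff_mu l x).add_const 1)
  have h1 : ∀ᶠ μ : ℝ in 𝓝 μ₀, TT l μ x * (TT l μ x + 1) = 0 := by
    filter_upwards [h] with μ hμ
    obtain ⟨α, hα, e⟩ : ∃ α, Sy α ∧ Ps l μ η₀ α = s := by
      rcases hΦ with rfl | rfl
      · rw [← hμ]; exact mn_choice _ _ _
      · rw [← hμ]; exact mx_choice _ _ _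
    rcases ev_or l s with hs | hs
    · have := (ev_iff l s).1 hs
      refine mul_eq_zero_of_left ?_ _
      rw [hx, TT_eq l μ hη.ne']
      rcases hα with rfl | rfl <;> rw [e, this] <;> simp
    · have := odd_cos_zero hs
      refine mul_eq_zero_of_right _ ?_
      rw [hx, TT_add_one l μ hη.ne']
      rcases hα with rfl | rfl <;> rw [e, this] <;> simp
  have ht : Tendsto (fun μ : ℝ => (μ : ℂ)) (𝓝[≠] μ₀) (𝓝[≠] (μ₀ : ℂ)) :=
    tendsto_nhdsWithin_iff.2 ⟨(continuous_ofReal.tendsto μ₀).mono_left nhdsWithin_le_nhds,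
      eventually_nhdsWithin_of_forall fun μ hμ => fun h' => hμ (ofReal_injective h')⟩
  have h2 : ∃ᶠ z in 𝓝[≠] (μ₀ : ℂ), TT l z x * (TT l z x + 1) = 0 :=
    ht.frequently (Eventually.frequently (nhdsWithin_le_nhds h1))
  have h3 := (hF.differentiableOn.analyticOnNhd isOpen_univ
    ).eqOn_zero_of_preconnected_of_frequently_eq_zero isPreconnected_univ (mem_univ _) h2
  obtain ⟨m, hm, hD⟩ := exists_Dec (l := l) (x := η₀ / 2 * (η₀ / 2)) (Nat.cast_nonneg l)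
    (mul_self_nonneg _)
  obtain ⟨e0, e1, r0, r1, -⟩ := constr hm hη hD
  have key : ∀ α, Ev l (Ps l m η₀ α) → RR l m η₀ α ≠ 0 →
      ∀ᶠ μ in 𝓝[≠] m, Real.sin (Real.pi * (Ps l μ η₀ α - l) / 2) ≠ 0 := by
    intro α he hR
    have c : ∀ᶠ μ in 𝓝 m, |Ps l μ η₀ α - Ps l m η₀ α| < 1 :=
      (Continuous.continuousAt (f := fun μ => |Ps l μ η₀ α - Ps l m η₀ α|)
        (by fun_prop)).eventually (gt_mem_nhds (by simp))
    filter_upwards [nhdsWithin_le_nhds (Ps_loc_mu hR), nhdsWithin_le_nhds c,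
      self_mem_nhdsWithin] with μ a b d
    intro h0
    have := ev_eq ((ev_iff l _).2 h0) he b
    have a' := a d
    rw [this] at a'
    simp at a'
  have t0 : TT l m x + 1 ≠ 0 := by
    rw [hx, TT_eq l m hη.ne', (ev_iff l _).1 e0]; simp
  have c1 : ∀ᶠ μ : ℝ in 𝓝 m, TT l μ x + 1 ≠ 0 :=
    (((TT_diff_mu l x).add_const 1).continuous.comp continuous_ofReal).continuousAt.eventually_ne t0
  obtain ⟨μ, ⟨a, b⟩, c⟩ := (((key _ e0 r0).and (key _ e1 r1)).and (nhdsWithin_le_nhds c1)).exists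
  have := h3 (mem_univ (μ : ℂ))
  simp only [Pi.zero_apply, mul_eq_zero, c, or_false] at this
  rw [hx, TT_eq l μ hη.ne', ofReal_eq_zero, neg_eq_zero] at this
  exact mul_ne_zero (mul_pos (rr_pos _ _ _ _ _) (rr_pos _ _ _ _ _)).ne' (mul_ne_zero a b) this

lemma core {l s : ℕ} {μ₀ η₀ : ℝ} (hμ : 0 < μ₀) (hη : 0 < η₀) {Φ : ℝ → ℝ → ℝ → ℝ}
    (hΦ : Φ = mn ∨ Φ = mx) (h0 : Φ l μ₀ η₀ = s) (h2 : ∀ᶠ μ in 𝓝 μ₀, Φ l μ η₀ ≤ s)
    (h3 : ∀ᶠ q : ℝ × ℝ in 𝓝 (μ₀, η₀), q.2 < η₀ → Φ l q.1 q.2 ≠ s) : False := by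
  have Φc : Continuous fun q : ℝ × ℝ => Φ l q.1 q.2 := by
    rcases hΦ with rfl | rfl <;> fun_prop
  obtain ⟨ε, hε, hbox⟩ := box_of_ev h3
  set W : Set (ℝ × ℝ) := Ioo (μ₀ - ε) (μ₀ + ε) ×ˢ Ioo (η₀ - ε) η₀ with hW
  have Wc : IsPreconnected W := isPreconnected_Ioo.prod isPreconnected_Ioo
  have Wne : ∀ q ∈ W, Φ l q.1 q.2 ≠ s := fun q hq =>
    hbox q.1 q.2 (abs_lt.2 ⟨by linarith [hq.1.1], by linarith [hq.1.2]⟩)
      (abs_lt.2 ⟨by linarith [hq.2.1], by linarith [hq.2.2]⟩) hq.2.2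
  have v : ∀ᶠ q : ℝ × ℝ in 𝓝 (μ₀, η₀), q.1 ∈ Ioo (μ₀ - ε) (μ₀ + ε) ∧ η₀ - ε < q.2 :=
    (continuousAt_fst.eventually (Ioo_mem_nhds (by linarith) (by linarith))).and
      (continuousAt_snd.eventually (lt_mem_nhds (by linarith)))
  obtain ⟨q₀, ⟨a1, a2⟩, a3, a4⟩ := ((near_ge hμ hη hΦ h0).and_eventually v).exists
  have q0W : q₀ ∈ W := ⟨a3, a4, a1⟩
  have Wge : ∀ q ∈ W, (s : ℝ) ≤ Φ l q.1 q.2 := by
    intro q hq
    by_contra hc
    obtain ⟨r, hr, e⟩ := Wc.intermediate_value hq q0W Φc.continuousOn ⟨(not_le.1 hc).le, a2⟩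
    exact Wne r hr e
  refine not_const (l := l) (s := s) (μ₀ := μ₀) hη hΦ ?_
  filter_upwards [h2, Ioo_mem_nhds (show μ₀ - ε < μ₀ by linarith)
    (show μ₀ < μ₀ + ε by linarith)] with μ b1 b2
  refine le_antisymm b1 ?_
  have ht : Tendsto (fun η => Φ l μ η) (𝓝[<] η₀) (𝓝 (Φ l μ η₀)) :=
    ((Φc.comp (continuous_const.prodMk continuous_id)).tendsto η₀).mono_left nhdsWithin_le_nhds
  refine ge_of_tendsto ht ?_
  filter_upwards [Ioo_mem_nhdsLT (show η₀ - ε < η₀ by linarith)] with η hη'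
  exact Wge (μ, η) ⟨b2, hη'⟩

end Pool.Agent.Lib.MP_60675c_an
end

-- part Pool.Agent.Lib.MP_60675c_an.Final
section

/-! Translation to the original parameters. -/

set_option autoImplicit false

open Filter Topology Set

namespace Pool.Agent.Lib.MP_60675c_an

lemma bd_iff {ω : ℝ} (hω : 0 < ω) (s : ℕ) {σ : ℝ} {Φ : ℝ → ℝ → ℝ → ℝ}
    (hΦ : (σ = 1 ∧ Φ = mn) ∨ (σ = -1 ∧ Φ = mx)) (B A : ℝ) :
    (RotEq ω B A s ∧ ∀ B' : ℝ, 0 < σ * (B' - B) → ¬ RotEq ω B' A s) ↔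
      Φ (B / ω) (A / (2 * ω)) (1 / ω) = s := by
  have hR : ∀ B, RotEq ω B A s ↔
      mn (B / ω) (A / (2 * ω)) (1 / ω) ≤ s ∧ s ≤ mx (B / ω) (A / (2 * ω)) (1 / ω) := by
    intro B
    have := rotTh_iff (B / ω) (A / (2 * ω)) (1 / ω) s
    rw [Int.cast_natCast] at this
    rw [rotEq_iff hω, this]
  simp only [hR]
  have hlt : ∀ {B B' : ℝ}, B < B' → B / ω < B' / ω := fun h => div_lt_div_of_pos_right h hω
  rcases hΦ with ⟨rfl, rfl⟩ | ⟨rfl, rfl⟩
  · constructor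
    · rintro ⟨⟨h1, h2⟩, h3⟩
      refine le_antisymm h1 (not_lt.1 fun h => ?_)
      have c : Continuous fun B => mn (B / ω) (A / (2 * ω)) (1 / ω) := by fun_prop
      have ev : ∀ᶠ B' in 𝓝 B, mn (B' / ω) (A / (2 * ω)) (1 / ω) < s :=
        (isOpen_lt c continuous_const).mem_nhds h
      obtain ⟨B', a, b⟩ := ((ev.filter_mono (nhdsWithin_le_nhds (s := Ioi B))).and
        self_mem_nhdsWithin).exists
      have b : B < B' := b
      exact h3 B' (by linarith) ⟨a.le, h2.trans (mx_strictMono _ _ (hlt b)).le⟩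
    · intro h
      refine ⟨⟨h.le, h ▸ mn_le _ _ _⟩, fun B' hB h' => ?_⟩
      have := mn_strictMono (A / (2 * ω)) (1 / ω) (hlt (show B < B' by linarith))
      simp only at this
      linarith [h'.1]
  · constructor
    · rintro ⟨⟨h1, h2⟩, h3⟩
      refine le_antisymm (not_lt.1 fun h => ?_) h2
      have c : Continuous fun B => mx (B / ω) (A / (2 * ω)) (1 / ω) := by fun_prop
      have ev : ∀ᶠ B' in 𝓝 B, (s : ℝ) < mx (B' / ω) (A / (2 * ω)) (1 / ω) :=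
        (isOpen_lt continuous_const c).mem_nhds h
      obtain ⟨B', a, b⟩ := ((ev.filter_mono (nhdsWithin_le_nhds (s := Iio B))).and
        self_mem_nhdsWithin).exists
      have b : B' < B := b
      exact h3 B' (by linarith) ⟨(mn_strictMono _ _ (hlt b)).le.trans h1, a.le⟩
    · intro h
      refine ⟨⟨h ▸ mn_le _ _ _, h.ge⟩, fun B' hB h' => ?_⟩
      have := mx_strictMono (A / (2 * ω)) (1 / ω) (hlt (show B' < B by linarith))
      simp only at this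
      linarith [h'.2]

lemma final {ω₀ : ℝ} (hω : 0 < ω₀) (l s : ℕ) {A₀ : ℝ} (hA : 0 < A₀) {σ : ℝ}
    (hσ : σ = 1 ∨ σ = -1) (L : ℝ → ℝ → ℝ → Prop) (hL : ∀ ω B A, L ω B A ↔ RotEq ω B A s)
    (Bd : ℝ → ℝ → ℝ → Prop)
    (hBd : ∀ ω B A, Bd ω B A ↔ (L ω B A ∧ ∀ B' : ℝ, 0 < σ * (B' - B) → ¬ L ω B' A)) :
    ¬ (Bd ω₀ ((l : ℝ) * ω₀) A₀ ∧
        (∃ ε > (0 : ℝ), ∀ B A : ℝ, |B - (l : ℝ) * ω₀| < ε → |A - A₀| < ε →
            Bd ω₀ B A → (l : ℝ) * ω₀ ≤ B) ∧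
        (∃ ε > (0 : ℝ), ∃ δ > (0 : ℝ), ∀ ω A : ℝ, ω₀ < ω → ω < ω₀ + δ →
            |(l : ℝ) * ω - (l : ℝ) * ω₀| < ε → |A - A₀| < ε →
            ¬ Bd ω ((l : ℝ) * ω) A)) := by
  obtain ⟨Φ, hΦ⟩ : ∃ Φ : ℝ → ℝ → ℝ → ℝ, (σ = 1 ∧ Φ = mn) ∨ (σ = -1 ∧ Φ = mx) := by
    rcases hσ with h | h
    · exact ⟨mn, Or.inl ⟨h, rfl⟩⟩
    · exact ⟨mx, Or.inr ⟨h, rfl⟩⟩
  have hΦ' : Φ = mn ∨ Φ = mx := hΦ.imp And.right And.right
  have key : ∀ ω, 0 < ω → ∀ B A, Bd ω B A ↔ Φ (B / ω) (A / (2 * ω)) (1 / ω) = s := by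
    intro ω h B A
    rw [hBd]
    simp only [hL]
    exact bd_iff h s hΦ B A
  have hω' := hω.ne'
  rintro ⟨h1, ⟨ε, hε, h2⟩, ⟨ε', hε', δ, hδ, h3⟩⟩
  rw [key ω₀ hω, mul_div_cancel_right₀ _ hω'] at h1
  have Φm : ∀ μ η, StrictMono fun ν => Φ ν μ η := by
    intro μ η
    rcases hΦ' with rfl | rfl
    · exact mn_strictMono μ η
    · exact mx_strictMono μ η
  have Φc1 : ∀ ν η, Continuous fun μ => Φ ν μ η := by
    intro ν η
    rcases hΦ' with rfl | rfl <;> fun_prop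
  have Φc2 : ∀ μ η, Continuous fun ν => Φ ν μ η := by
    intro μ η
    rcases hΦ' with rfl | rfl <;> fun_prop
  refine core (l := l) (s := s) (μ₀ := A₀ / (2 * ω₀)) (η₀ := 1 / ω₀) (by positivity)
    (by positivity) hΦ' h1 ?_ ?_
  · have hd : 0 < ε / (2 * ω₀) := by positivity
    have a1 : Φ (l - ε / (2 * ω₀)) (A₀ / (2 * ω₀)) (1 / ω₀) < s := by
      rw [← h1]; exact Φm _ _ (by linarith)
    have ev1 : ∀ᶠ μ in 𝓝 (A₀ / (2 * ω₀)), Φ (l - ε / (2 * ω₀)) μ (1 / ω₀) < s :=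
      (isOpen_lt (Φc1 _ _) continuous_const).mem_nhds a1
    have ev2 : ∀ᶠ μ in 𝓝 (A₀ / (2 * ω₀)), |2 * ω₀ * μ - A₀| < ε := by
      refine (isOpen_lt (f := fun μ => |2 * ω₀ * μ - A₀|) (by fun_prop)
        continuous_const).mem_nhds ?_
      have : 2 * ω₀ * (A₀ / (2 * ω₀)) - A₀ = 0 := by field_simp; ring
      simpa [this] using hε
    filter_upwards [ev1, ev2] with μ b1 b2
    by_contra hc
    obtain ⟨ν, hν, e⟩ : (s : ℝ) ∈ (fun ν => Φ ν μ (1 / ω₀)) '' Ioo (l - ε / (2 * ω₀)) l :=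
      intermediate_value_Ioo (by linarith) (Φc2 _ _).continuousOn ⟨b1, not_le.1 hc⟩
    have e2 : ε / (2 * ω₀) * ω₀ = ε / 2 := by field_simp
    have := h2 (ν * ω₀) (2 * ω₀ * μ) (abs_lt.2 ⟨by nlinarith [hν.1], by nlinarith [hν.2]⟩) b2
      (by rw [key ω₀ hω, mul_div_cancel_right₀ _ hω', mul_div_cancel_left₀ _ (by positivity)]
          exact e)
    nlinarith [hν.2]
  · have c1 : ContinuousAt (fun q : ℝ × ℝ => 1 / q.2) (A₀ / (2 * ω₀), 1 / ω₀) :=
      continuousAt_const.div continuousAt_snd (by positivity)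
    have e1 : 1 / (1 / ω₀) = ω₀ := one_div_one_div ω₀
    have ev1 : ∀ᶠ q : ℝ × ℝ in 𝓝 (A₀ / (2 * ω₀), 1 / ω₀), 0 < q.2 :=
      continuousAt_snd.eventually (lt_mem_nhds (by positivity))
    have ev2 : ∀ᶠ q : ℝ × ℝ in 𝓝 (A₀ / (2 * ω₀), 1 / ω₀), 1 / q.2 < ω₀ + δ :=
      c1.eventually (gt_mem_nhds (by simp only [e1]; linarith))
    have ev3 : ∀ᶠ q : ℝ × ℝ in 𝓝 (A₀ / (2 * ω₀), 1 / ω₀), |l * (1 / q.2) - l * ω₀| < ε' :=
      ((continuousAt_const.mul c1).sub continuousAt_const).abs.eventually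
        (gt_mem_nhds (by simpa using hε'))
    have ev4 : ∀ᶠ q : ℝ × ℝ in 𝓝 (A₀ / (2 * ω₀), 1 / ω₀), |2 * (1 / q.2) * q.1 - A₀| < ε' := by
      refine (((continuousAt_const.mul c1).mul continuousAt_fst).sub
        continuousAt_const).abs.eventually (gt_mem_nhds ?_)
      have : 2 * ω₀ * (A₀ / (2 * ω₀)) - A₀ = 0 := by field_simp; ring
      simpa [this] using hε'
    filter_upwards [ev1, ev2, ev3, ev4] with q b1 b2 b3 b4 b5 b6
    have hq : 0 < 1 / q.2 := by positivity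
    refine h3 (1 / q.2) (2 * (1 / q.2) * q.1) ?_ b2 b3 b4 ?_
    · rw [lt_div_iff₀ b1]
      rw [lt_div_iff₀ hω] at b5
      linarith
    · rw [key _ hq, mul_div_cancel_right₀ _ hq.ne', mul_div_cancel_left₀ _ (by positivity),
        one_div_one_div]
      exact b6

end Pool.Agent.Lib.MP_60675c_an
end
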