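import Mathlib

-- part Pool.Agent.Lib.MP_60675c_an.Pars
section

/-! Fourier coefficients on `[-π, π]` and the polarized Parseval identity. -/

set_option autoImplicit false

open Filter Topology MeasureTheory intervalIntegral Complex ComplexConjugate Set

namespace Pool.Agent.Lib.MP_60675c_an

/-- unnormalised Fourier coefficient -/
noncomputable def co (f : ℝ → ℂ) (n : ℤ) : ℂ :=
  ∫ τ in (-Real.pi)..Real.pi, f τ * exp (n * τ * I)

lemma neg_pi_lt : -Real.pi < Real.pi := by linarith [Real.pi_pos]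

lemma co_eq (f : ℝ → ℂ) (n : ℤ) :
    co f n = 2 * Real.pi * fourierCoeffOn neg_pi_lt f (-n) := by
  have hpi : (Real.pi : ℂ) ≠ 0 := ofReal_ne_zero.2 Real.pi_pos.ne'
  rw [fourierCoeffOn_eq_integral, co, neg_neg]
  have : ∀ x : ℝ, fourier n (x : AddCircle (Real.pi - -Real.pi)) • f x = f x * exp (n * x * I) := by
    intro x
    rw [fourier_coe_apply, smul_eq_mul, mul_comm]
    congr 2
    push_cast
    field_simp
    ring
  simp only [this, real_smul]
  generalize (∫ τ in (-Real.pi)..Real.pi, f τ * exp (n * τ * I)) = J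
  push_cast
  field_simp
  ring

lemma parseval_sq {f : ℝ → ℂ} (hf : Continuous f) :
    HasSum (fun n : ℤ => ‖co f n‖ ^ 2) (2 * Real.pi * ∫ τ in (-Real.pi)..Real.pi, ‖f τ‖ ^ 2) := by
  have hpi := Real.pi_pos
  obtain ⟨C, hC⟩ := (isCompact_Icc (a := -Real.pi) (b := Real.pi)).exists_bound_of_continuousOn
    hf.continuousOn
  have hL : MemLp f 2 (volume.restrict (Ioc (-Real.pi) Real.pi)) :=
    MemLp.of_bound hf.aestronglyMeasurable C
      ((ae_restrict_mem measurableSet_Ioc).mono fun x hx => hC x (Ioc_subset_Icc_self hx))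
  have h := (hasSum_sq_fourierCoeffOn neg_pi_lt hL).mul_left ((2 * Real.pi) ^ 2)
  have h2 := (Equiv.neg ℤ).hasSum_iff.2 h
  have e : (2 * Real.pi) ^ 2 * ((Real.pi - -Real.pi)⁻¹ • ∫ τ in (-Real.pi)..Real.pi, ‖f τ‖ ^ 2) =
      2 * Real.pi * ∫ τ in (-Real.pi)..Real.pi, ‖f τ‖ ^ 2 := by
    rw [smul_eq_mul]; field_simp; ring
  rw [e] at h2
  refine h2.congr_fun fun n => ?_
  simp only [Function.comp_apply, Equiv.neg_apply, co_eq, norm_mul, norm_ofNat, norm_real,
    Real.norm_eq_abs, abs_of_pos hpi, mul_pow]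

lemma co_comb {f g : ℝ → ℂ} (hf : Continuous f) (hg : Continuous g) (p q : ℂ) (n : ℤ) :
    co (fun τ => p * f τ + q * g τ) n = p * co f n + q * co g n := by
  unfold co
  rw [← intervalIntegral.integral_const_mul, ← intervalIntegral.integral_const_mul,
    ← intervalIntegral.integral_add (Continuous.intervalIntegrable (by fun_prop) _ _)
      (Continuous.intervalIntegrable (by fun_prop) _ _)]
  congr 1; funext τ; ring

lemma polar (p q : ℂ) : p * conj q = (1 / 4) * (((‖1 * p + 1 * q‖ ^ 2 : ℝ) : ℂ)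
    - ((‖1 * p + (-1) * q‖ ^ 2 : ℝ) : ℂ) + I * ((‖1 * p + I * q‖ ^ 2 : ℝ) : ℂ)
    - I * ((‖1 * p + (-I) * q‖ ^ 2 : ℝ) : ℂ)) := by
  simp only [← normSq_eq_norm_sq, ← mul_conj, map_add, map_mul, map_neg, map_one, conj_I]
  linear_combination (p * conj q - q * conj p) / 2 * I_mul_I

lemma parseval {f g : ℝ → ℂ} (hf : Continuous f) (hg : Continuous g) :
    HasSum (fun n : ℤ => co f n * conj (co g n))
      (2 * Real.pi * ∫ τ in (-Real.pi)..Real.pi, f τ * conj (g τ)) := by
  have key : ∀ q : ℂ, HasSum (fun n : ℤ => ((‖1 * co f n + q * co g n‖ ^ 2 : ℝ) : ℂ))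
      (2 * Real.pi * ∫ τ in (-Real.pi)..Real.pi, ((‖1 * f τ + q * g τ‖ ^ 2 : ℝ) : ℂ)) := by
    intro q
    have h := hasSum_ofReal.2 (parseval_sq (f := fun τ => 1 * f τ + q * g τ) (by fun_prop))
    simp only [co_comb hf hg] at h
    rw [intervalIntegral.integral_ofReal]
    convert h using 1
    push_cast; ring
  have h := ((((key 1).sub (key (-1))).add ((key I).mul_left I)).sub
    ((key (-I)).mul_left I)).mul_left (1 / 4)
  simp only [← polar] at h
  convert! h using 1
  have ii : ∀ q : ℂ, IntervalIntegrable (fun τ => ((‖1 * f τ + q * g τ‖ ^ 2 : ℝ) : ℂ)) volume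
      (-Real.pi) Real.pi := fun q => Continuous.intervalIntegrable (by fun_prop) _ _
  rw [show (fun τ => f τ * conj (g τ)) = _ from funext fun τ => polar (f τ) (g τ)]
  rw [intervalIntegral.integral_const_mul, intervalIntegral.integral_sub
    (((ii 1).sub (ii (-1))).add ((ii I).const_mul I)) ((ii (-I)).const_mul I),
    intervalIntegral.integral_add ((ii 1).sub (ii (-1))) ((ii I).const_mul I),
    intervalIntegral.integral_sub (ii 1) (ii (-1)), intervalIntegral.integral_const_mul,
    intervalIntegral.integral_const_mul]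
  ring

lemma co_tendsto {f : ℝ → ℂ} (hf : Continuous f) : Tendsto (co f) cofinite (𝓝 0) := by
  have h := (parseval_sq hf).summable.tendsto_cofinite_zero
  rw [tendsto_zero_iff_norm_tendsto_zero]
  have h2 := (Real.continuous_sqrt.tendsto 0).comp h
  simpa [Function.comp_def] using h2

lemma co_tendsto_pos {f : ℝ → ℂ} (hf : Continuous f) :
    Tendsto (fun k : ℕ => co f k) atTop (𝓝 0) := by
  rw [← Nat.cofinite_eq_atTop]
  exact (co_tendsto hf).comp (Nat.cast_injective (R := ℤ)).tendsto_cofinite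

lemma co_tendsto_neg {f : ℝ → ℂ} (hf : Continuous f) :
    Tendsto (fun k : ℕ => co f (-k)) atTop (𝓝 0) := by
  rw [← Nat.cofinite_eq_atTop]
  exact (co_tendsto hf).comp
    (neg_injective.comp (Nat.cast_injective (R := ℤ))).tendsto_cofinite

lemma zero_of_co {f : ℝ → ℂ} (hf : Continuous f) (h : ∀ n, co f n = 0) : f 0 = 0 := by
  by_contra h0
  have hpi := Real.pi_pos
  have h1 := parseval_sq hf
  simp only [h, norm_zero, ne_eq, OfNat.ofNat_ne_zero, not_false_eq_true, zero_pow] at h1
  have h2 := h1.unique hasSum_zero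
  have h3 : 0 < ∫ τ in (-Real.pi)..Real.pi, ‖f τ‖ ^ 2 :=
    intervalIntegral.integral_pos neg_pi_lt (by fun_prop) (fun x _ => by positivity)
      ⟨0, ⟨by linarith, by linarith⟩, by positivity⟩
  nlinarith

lemma co_cos {f : ℝ → ℂ} (hf : Continuous f) (n : ℤ) :
    co (fun τ => 2 * (Real.cos τ : ℝ) * f τ) n = co f (n + 1) + co f (n - 1) := by
  unfold co
  rw [← intervalIntegral.integral_add (Continuous.intervalIntegrable (by fun_prop) _ _)
      (Continuous.intervalIntegrable (by fun_prop) _ _)]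
  congr 1; funext τ
  have e1 : exp (((n + 1 : ℤ) : ℂ) * τ * I) = exp (n * τ * I) * exp (τ * I) := by
    rw [← exp_add]; congr 1; push_cast; ring
  have e2 : exp (((n - 1 : ℤ) : ℂ) * τ * I) = exp (n * τ * I) * exp (-τ * I) := by
    rw [← exp_add]; congr 1; push_cast; ring
  beta_reduce
  rw [e1, e2, ofReal_cos, two_cos]
  ring

lemma co_deriv {f f' : ℝ → ℂ} (hf : ∀ τ, HasDerivAt f (f' τ) τ) (hf' : Continuous f')
    (hp : f (-Real.pi) = f Real.pi) (n : ℤ) : co f' n = -(n * I) * co f n := by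
  have hc : Continuous f := continuous_iff_continuousAt.2 fun τ => (hf τ).continuousAt
  have he : ∀ τ : ℝ, HasDerivAt (fun τ : ℝ => exp (n * τ * I)) (exp (n * τ * I) * (n * I)) τ := by
    intro τ
    have := (((hasDerivAt_id' τ).ofReal_comp.const_mul (n : ℂ)).mul_const I).cexp
    simpa using this
  have h := intervalIntegral.integral_deriv_mul_eq_sub (a := -Real.pi) (b := Real.pi)
    (fun τ _ => hf τ) (fun τ _ => he τ) (hf'.intervalIntegrable _ _)
    (Continuous.intervalIntegrable (by fun_prop) _ _)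
  have e : exp (n * Real.pi * I) = exp (n * (-Real.pi : ℝ) * I) := by
    have : (n * Real.pi * I : ℂ) = n * (-Real.pi : ℝ) * I + n * (2 * Real.pi * I) := by
      push_cast; ring
    rw [this, exp_add, exp_int_mul_two_pi_mul_I, mul_one]
  rw [hp, e, sub_self, intervalIntegral.integral_add
    (Continuous.intervalIntegrable (by fun_prop) _ _)
    (Continuous.intervalIntegrable (by fun_prop) _ _)] at h
  have e2 : ∫ τ in (-Real.pi)..Real.pi, f τ * (exp (n * τ * I) * (n * I)) = n * I * co f n := by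
    rw [co, ← intervalIntegral.integral_const_mul]
    congr 1; funext τ; ring
  rw [e2] at h
  rw [co]
  linear_combination h

lemma integral_fold {f : ℝ → ℂ} (hf : Continuous f) :
    ∫ τ in (-Real.pi)..Real.pi, f τ = ∫ τ in (0:ℝ)..Real.pi, (f τ + f (-τ)) := by
  rw [intervalIntegral.integral_add (hf.intervalIntegrable _ _)
    (Continuous.intervalIntegrable (by fun_prop) _ _), intervalIntegral.integral_comp_neg,
    neg_zero, add_comm, intervalIntegral.integral_add_adjacent_intervals
      (hf.intervalIntegrable _ _) (hf.intervalIntegrable _ _)]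

lemma mean_val {F : ℂ → ℂ} (hF : DifferentiableOn ℂ F (Metric.ball 0 2)) :
    ∫ τ in (-Real.pi)..Real.pi, F (exp (-(τ * I))) = 2 * Real.pi * F 0 := by
  have hpi : (Real.pi : ℂ) ≠ 0 := ofReal_ne_zero.2 Real.pi_pos.ne'
  have hd : DiffContOnCl ℂ F (Metric.ball 0 |1|) :=
    hF.diffContOnCl_ball (Metric.closedBall_subset_ball (by norm_num))
  have h := hd.circleAverage
  rw [Real.circleAverage_eq_integral_add (-Real.pi),
    intervalIntegral.integral_comp_add_right (fun θ => F (circleMap 0 1 θ))] at h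
  have e : ∫ τ in (-Real.pi)..Real.pi, F (exp (-(τ * I))) =
      ∫ τ in (-Real.pi)..Real.pi, F (circleMap 0 1 τ) := by
    have := intervalIntegral.integral_comp_neg (a := -Real.pi) (b := Real.pi)
      (fun θ => F (circleMap 0 1 θ))
    rw [neg_neg] at this
    rw [← this]
    congr 1; funext τ
    simp [circleMap]
  rw [e, ← h, zero_add, show 2 * Real.pi + -Real.pi = Real.pi by ring, real_smul]
  generalize (∫ τ in (-Real.pi)..Real.pi, F (circleMap 0 1 τ)) = J
  push_cast
  field_simp

end Pool.Agent.Lib.MP_60675c_an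
end

-- part Pool.Agent.Lib.MP_60675c_an.Rec
section

/-! The three-term recurrence for the Fourier coefficients. -/

set_option autoImplicit false

open Filter Topology Set

namespace Pool.Agent.Lib.MP_60675c_an

/-- diagonal entry of the recurrence -/
noncomputable def dg (l x : ℝ) (k : ℕ) : ℝ := (k + 1) + l + x / (k + 1)

/-- forward solution of the recurrence -/
noncomputable def HH (l μ x : ℝ) : ℕ → ℝ
  | 0 => 0
  | 1 => 1
  | (k + 2) => -(dg l x k / μ) * HH l μ x (k + 1) - HH l μ x k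

lemma HH_zero (l μ x : ℝ) : HH l μ x 0 = 0 := rfl

lemma HH_one (l μ x : ℝ) : HH l μ x 1 = 1 := rfl

lemma HH_add_two (l μ x : ℝ) (k : ℕ) :
    HH l μ x (k + 2) = -(dg l x k / μ) * HH l μ x (k + 1) - HH l μ x k := rfl

lemma HH_rec (l x : ℝ) {μ : ℝ} (hμ : μ ≠ 0) (k : ℕ) :
    dg l x k * HH l μ x (k + 1) + μ * (HH l μ x (k + 2) + HH l μ x k) = 0 := by
  rw [HH_add_two]; field_simp; ring

lemma dg_ge {l x : ℝ} (hl : 0 ≤ l) (hx : 0 ≤ x) (k : ℕ) : (k : ℝ) + 1 ≤ dg l x k := by
  have : 0 ≤ x / (k + 1) := by positivity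
  unfold dg; linarith

/-- the forward solution is bounded -/
def Dec (l μ x : ℝ) : Prop := ∃ C, ∀ k, |HH l μ x k| ≤ C

lemma eq_mul_HH {l μ x : ℝ} (hμ : μ ≠ 0) {c : ℕ → ℂ} (h0 : c 0 = 0)
    (h : ∀ k, (dg l x k : ℂ) * c (k + 1) + μ * (c (k + 2) + c k) = 0) (k : ℕ) :
    c k = c 1 * HH l μ x k := by
  have hμ' : (μ : ℂ) ≠ 0 := Complex.ofReal_ne_zero.2 hμ
  suffices ∀ k, c k = c 1 * HH l μ x k ∧ c (k + 1) = c 1 * HH l μ x (k + 1) from (this k).1
  intro k
  induction k with
  | zero => simp [h0, HH_zero, HH_one]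
  | succ k ih =>
    refine ⟨ih.2, ?_⟩
    have h1 := h k
    rw [ih.1, ih.2] at h1
    rw [HH_add_two]
    push_cast
    field_simp
    linear_combination h1

lemma Dec.decay {l μ x : ℝ} (hl : 0 ≤ l) (hx : 0 ≤ x) (hμ : 0 < μ) (h : Dec l μ x) :
    ∃ C, 0 ≤ C ∧ ∀ k, |HH l μ x k| ≤ C * (1 / 4) ^ k := by
  obtain ⟨C, hC⟩ := h
  have hC0 : 0 ≤ C := (abs_nonneg _).trans (hC 0)
  obtain ⟨K, hK⟩ := exists_nat_ge (8 * μ)
  have key : ∀ j k, K + j ≤ k → |HH l μ x k| ≤ C * (1 / 4) ^ j := by
    intro j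
    induction j with
    | zero => intro k _; simpa using hC k
    | succ j ih =>
      intro k hk
      obtain ⟨k, rfl⟩ : ∃ k', k = k' + 1 := ⟨k - 1, by omega⟩
      have h1 := ih k (by omega)
      have h2 := ih (k + 2) (by omega)
      have h3 := HH_rec l x hμ.ne' k
      have h4 : 8 * μ ≤ dg l x k := by
        have : (K : ℝ) ≤ k := by exact_mod_cast (by omega : K ≤ k)
        linarith [dg_ge hl hx k]
      have h5 : dg l x k * |HH l μ x (k + 1)| ≤ μ * (2 * (C * (1 / 4) ^ j)) := by
        have e : dg l x k * HH l μ x (k + 1) = -(μ * (HH l μ x (k + 2) + HH l μ x k)) := by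
          linarith
        rw [← abs_of_nonneg (show 0 ≤ dg l x k by linarith), ← abs_mul, e, abs_neg, abs_mul,
          abs_of_pos hμ]
        have := abs_add_le (HH l μ x (k + 2)) (HH l μ x k)
        gcongr
        linarith
      have h6 : μ * (8 * |HH l μ x (k + 1)|) ≤ μ * (2 * (C * (1 / 4) ^ j)) := by
        nlinarith [abs_nonneg (HH l μ x (k + 1))]
      have h7 := le_of_mul_le_mul_left h6 hμ
      rw [pow_succ]
      linarith
  refine ⟨C * 4 ^ K, by positivity, fun k => ?_⟩
  rcases le_total K k with hk | hk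
  · obtain ⟨j, rfl⟩ := Nat.exists_eq_add_of_le hk
    refine (key j _ le_rfl).trans (le_of_eq ?_)
    rw [pow_add, one_div, inv_pow, inv_pow]
    field_simp
  · obtain ⟨j, rfl⟩ := Nat.exists_eq_add_of_le hk
    refine (hC k).trans ?_
    have : C * 4 ^ (k + j) * (1 / 4) ^ k = C * 4 ^ j := by
      rw [pow_add, one_div, inv_pow]
      field_simp
    rw [this]
    exact le_mul_of_one_le_right hC0 (one_le_pow₀ (by norm_num))

/-- sign-corrected forward solution -/
noncomputable def PP (l μ x : ℝ) (k : ℕ) : ℝ := (-1) ^ (k + 1) * HH l μ x k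

lemma PP_add_two (l μ x : ℝ) (k : ℕ) :
    PP l μ x (k + 2) = dg l x k / μ * PP l μ x (k + 1) - PP l μ x k := by
  simp only [PP, HH_add_two, pow_succ]; ring

lemma PP_zero (l μ x : ℝ) : PP l μ x 0 = 0 := by simp [PP, HH_zero]

lemma PP_one (l μ x : ℝ) : PP l μ x 1 = 1 := by simp [PP, HH_one]

lemma PP_cont (l x : ℝ) {μ : ℝ} (hμ : μ ≠ 0) (k : ℕ) :
    ContinuousAt (fun μ => PP l μ x k) μ := by
  suffices ∀ k, ContinuousAt (fun μ => PP l μ x k) μ ∧
      ContinuousAt (fun μ => PP l μ x (k + 1)) μ from (this k).1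
  intro k
  induction k with
  | zero => simp only [PP_zero, zero_add, PP_one]; exact ⟨continuousAt_const, continuousAt_const⟩
  | succ k ih =>
    refine ⟨ih.2, ?_⟩
    simp only [show k + 1 + 1 = k + 2 from rfl, PP_add_two]
    exact ((continuousAt_const.div continuousAt_id hμ).mul ih.2).sub ih.1

lemma PP_incr {l μ x : ℝ} (hl : 0 ≤ l) (hx : 0 ≤ x) (hμ : 0 < μ) {k : ℕ} (hk : 2 * μ ≤ k + 1)
    (h0 : 0 ≤ PP l μ x k) (h1 : PP l μ x k < PP l μ x (k + 1)) (j : ℕ) :
    0 ≤ PP l μ x (k + j) ∧ PP l μ x (k + j) < PP l μ x (k + j + 1) := by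
  induction j with
  | zero => exact ⟨h0, h1⟩
  | succ j ih =>
    refine ⟨(ih.1.trans_lt ih.2).le, ?_⟩
    rw [show k + (j + 1) + 1 = k + j + 2 from rfl, PP_add_two, show k + (j + 1) = k + j + 1 from rfl]
    have h2 : 2 ≤ dg l x (k + j) / μ := by
      rw [le_div_iff₀ hμ]
      have := dg_ge hl hx (k + j)
      push_cast at this
      have : (0 : ℝ) ≤ j := by positivity
      linarith
    nlinarith [ih.1, ih.2]

lemma exists_Dec {l x : ℝ} (hl : 0 ≤ l) (hx : 0 ≤ x) : ∃ μ, 0 < μ ∧ Dec l μ x := by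
  set S : Set ℝ := {μ | 0 < μ ∧ ∀ k, 0 < PP l μ x (k + 1)} with hS
  have h1 : (1 / 2 : ℝ) ∈ S := by
    refine ⟨by norm_num, fun k => ?_⟩
    have := PP_incr hl hx (μ := 1 / 2) (by norm_num) (k := 0) (by norm_num)
      (by rw [PP_zero]) (by rw [PP_zero, zero_add, PP_one]; norm_num) k
    rw [zero_add] at this
    exact this.1.trans_lt this.2
  have hb : BddAbove S := by
    refine ⟨dg l x 0 * dg l x 1, fun μ hμ => ?_⟩
    have h3 := hμ.2 2
    rw [show 2 + 1 = 1 + 2 from rfl, PP_add_two, show 1 + 1 = 0 + 2 from rfl, PP_add_two,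
      PP_zero, zero_add, PP_one] at h3
    have a0 := dg_ge hl hx 0
    have a1 := dg_ge hl hx 1
    simp only [CharP.cast_eq_zero, zero_add, Nat.cast_one] at a0 a1
    have hμ0 := hμ.1
    have e : dg l x 1 / μ * (dg l x 0 / μ * 1 - 0) - 1 = (dg l x 0 * dg l x 1 - μ ^ 2) / μ ^ 2 := by
      field_simp; ring
    rw [e] at h3
    have h4 := (div_pos_iff_of_pos_right (by positivity)).1 h3
    by_contra h5
    have h6 : 1 ≤ dg l x 0 * dg l x 1 := by nlinarith
    nlinarith [not_le.1 h5]
  set m := sSup S with hm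
  have hm0 : 0 < m := lt_of_lt_of_le (by norm_num) (le_csSup hb h1)
  have hcl : m ∈ closure S := csSup_mem_closure ⟨_, h1⟩ hb
  have hnn : ∀ k, 0 ≤ PP l m x (k + 1) := by
    intro k
    by_contra h
    have h2 := (PP_cont l x hm0.ne' (k + 1)).eventually (gt_mem_nhds (not_le.1 h))
    obtain ⟨μ, h3, h4⟩ := mem_closure_iff_nhds.1 hcl _ h2
    exact absurd (h4.2 k) (not_lt.2 (le_of_lt h3))
  have hpos : ∀ k, 0 < PP l m x (k + 1) := by
    intro k
    induction k with
    | zero => rw [zero_add, PP_one]; norm_num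
    | succ k ih =>
      refine lt_of_le_of_ne (hnn _) fun h => ?_
      have h2 := hnn (k + 2)
      rw [show k + 2 + 1 = k + 1 + 2 from rfl, PP_add_two, ← h] at h2
      linarith
  refine ⟨m, hm0, ?_⟩
  by_contra hD
  obtain ⟨K, hK⟩ := exists_nat_ge (2 * (m + 1))
  have hex : ∃ k, K ≤ k ∧ PP l m x (k + 1) < PP l m x (k + 1 + 1) := by
    by_contra h
    push Not at h
    apply hD
    have hanti : ∀ j, PP l m x (K + j + 1) ≤ PP l m x (K + 1) := by
      intro j
      induction j with
      | zero => exact le_rfl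
      | succ j ih => exact (h (K + j) (by omega)).trans ih
    refine ⟨∑ i ∈ Finset.range (K + 2), |HH l m x i|, fun k => ?_⟩
    have habs : ∀ i, |HH l m x i| = |PP l m x i| := by
      intro i; simp [PP, abs_mul]
    have hle : ∀ i, i < K + 2 → |HH l m x i| ≤ ∑ i ∈ Finset.range (K + 2), |HH l m x i| :=
      fun i hi => Finset.single_le_sum (f := fun i => |HH l m x i|) (fun _ _ => abs_nonneg _)
        (Finset.mem_range.2 hi)
    by_cases hk : k < K + 2
    · exact hle k hk
    · obtain ⟨j, rfl⟩ : ∃ j, k = K + j + 1 := ⟨k - K - 1, by omega⟩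
      refine le_trans ?_ (hle (K + 1) (by omega))
      rw [habs, habs, abs_of_pos (hpos _), abs_of_pos (hpos _)]
      exact hanti j
  obtain ⟨k, hk, hlt⟩ := hex
  have e1 : ∀ᶠ μ in 𝓝 m, ∀ j ∈ Finset.range (k + 1), 0 < PP l μ x (j + 1) :=
    (Finset.eventually_all _).2 fun j _ =>
      (PP_cont l x hm0.ne' (j + 1)).eventually (lt_mem_nhds (hpos j))
  have e2 : ∀ᶠ μ in 𝓝 m, PP l μ x (k + 1) < PP l μ x (k + 1 + 1) :=
    (PP_cont l x hm0.ne' (k + 1)).eventually_lt (PP_cont l x hm0.ne' (k + 1 + 1)) hlt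
  have e3 : ∀ᶠ μ in 𝓝 m, μ < m + 1 := gt_mem_nhds (by linarith)
  have e4 : ∀ᶠ μ in 𝓝[>] m, (∀ j ∈ Finset.range (k + 1), 0 < PP l μ x (j + 1)) ∧
      PP l μ x (k + 1) < PP l μ x (k + 1 + 1) ∧ μ < m + 1 :=
    nhdsWithin_le_nhds (e1.and (e2.and e3))
  obtain ⟨μ, ⟨f1, f2, f3⟩, f4⟩ := (e4.and self_mem_nhdsWithin).exists
  have f4' : m < μ := f4
  have hμ : 0 < μ := hm0.trans f4'
  have hmem : μ ∈ S := by
    refine ⟨hμ, fun j => ?_⟩
    by_cases hj : j < k + 1
    · exact f1 j (Finset.mem_range.2 hj)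
    · obtain ⟨i, rfl⟩ : ∃ i, j = k + 1 + i := ⟨j - (k + 1), by omega⟩
      have hkK : (K : ℝ) ≤ k := by exact_mod_cast hk
      have := PP_incr hl hx hμ (k := k + 1) (by push_cast; linarith)
        (f1 k (Finset.mem_range.2 (by omega))).le f2 i
      exact this.1.trans_lt this.2
  exact absurd (le_csSup hb hmem) (not_le.2 f4')

lemma eq_zero_of_rec {μ : ℂ} (hμ : μ ≠ 0) {c d : ℕ → ℂ} (h0 : c 0 = 0) (h1 : c 1 = 0)
    (h : ∀ k, d k * c (k + 1) + μ * (c (k + 2) + c k) = 0) (k : ℕ) : c k = 0 := by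
  suffices ∀ k, c k = 0 ∧ c (k + 1) = 0 from (this k).1
  intro k
  induction k with
  | zero => exact ⟨h0, h1⟩
  | succ k ih =>
    refine ⟨ih.2, ?_⟩
    have h2 := h k
    rw [ih.1, ih.2] at h2
    simpa [hμ] using h2

lemma eq_zero_of_im {μ : ℝ} (hμ : μ ≠ 0) {x : ℂ} (hx : x.im ≠ 0) {b : ℕ → ℝ} {c : ℕ → ℂ}
    (h0 : c 0 = 0) (h : ∀ k, (b k + x / (k + 1)) * c (k + 1) + μ * (c (k + 2) + c k) = 0)
    (hc : Tendsto c atTop (𝓝 0)) (k : ℕ) : c k = 0 := by
  have key : ∀ N : ℕ, x.im * ∑ k ∈ Finset.range N, Complex.normSq (c (k + 1)) / (k + 1) =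
      -(μ * (c (N + 1) * (starRingEnd ℂ) (c N)).im) := by
    intro N
    induction N with
    | zero => simp [h0]
    | succ N ih =>
      rw [Finset.sum_range_succ, mul_add, ih]
      have h1 := congrArg (fun z => (z * (starRingEnd ℂ) (c (N + 1))).im) (h N)
      have e : ((N : ℂ) + 1) = ((N + 1 : ℝ) : ℂ) := by push_cast; ring
      simp only [add_mul, mul_assoc, Complex.mul_conj, e, Complex.add_im, zero_mul,
        Complex.zero_im, Complex.im_ofReal_mul, Complex.ofReal_im, mul_zero,
        Complex.im_mul_ofReal, Complex.div_ofReal_im, zero_add] at h1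
      have h2 : (c N * (starRingEnd ℂ) (c (N + 1))).im =
          -(c (N + 1) * (starRingEnd ℂ) (c N)).im := by
        simp only [Complex.mul_im, Complex.conj_re, Complex.conj_im]; ring
      rw [h2] at h1
      rw [show N + 1 + 1 = N + 2 from rfl]
      have : x.im * (Complex.normSq (c (N + 1)) / (N + 1)) =
          x.im / (N + 1) * Complex.normSq (c (N + 1)) := by ring
      rw [this]
      linarith
  have ht : Tendsto (fun N : ℕ => -(μ * (c (N + 1) * (starRingEnd ℂ) (c N)).im) / x.im) atTop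
      (𝓝 (-(μ * ((0 : ℂ) * (starRingEnd ℂ) 0).im) / x.im)) := by
    refine (Tendsto.neg (Tendsto.const_mul _ ?_)).div_const _
    refine (Complex.continuous_im.tendsto _).comp ?_
    exact (hc.comp (tendsto_add_atTop_nat 1)).mul ((Complex.continuous_conj.tendsto _).comp hc)
  simp only [zero_mul, Complex.zero_im, mul_zero, neg_zero, zero_div] at ht
  have h1 : Complex.normSq (c 1) ≤ 0 := by
    refine ge_of_tendsto ht ?_
    filter_upwards [eventually_ge_atTop 1] with N hN
    rw [← key N, mul_div_cancel_left₀ _ hx]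
    have := Finset.single_le_sum (f := fun k : ℕ => Complex.normSq (c (k + 1)) / (k + 1))
      (fun i _ => div_nonneg (Complex.normSq_nonneg _) (by positivity))
      (Finset.mem_range.2 (show 0 < N from hN))
    simpa using this
  have h2 : c 1 = 0 := Complex.normSq_eq_zero.1 (le_antisymm h1 (Complex.normSq_nonneg _))
  exact eq_zero_of_rec (Complex.ofReal_ne_zero.2 hμ) h0 h2 h k

end Pool.Agent.Lib.MP_60675c_an
end

-- part Pool.Agent.Lib.MP_60675c_an.Laguerre
section

/-! Laguerre's inequality for entire functions of exponential type with real zeros. -/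

set_option autoImplicit false

open Filter Topology Complex Set Metric

namespace Pool.Agent.Lib.MP_60675c_an

lemma logDeriv_diffAt {f : ℂ → ℂ} (hf : Differentiable ℂ f) {z : ℂ} (hz : f z ≠ 0) :
    DifferentiableAt ℂ (logDeriv f) z := by
  have h : logDeriv f = fun z => deriv f z / f z := rfl
  rw [h]
  exact (hf.deriv z).div (hf z) hz

lemma ld2_mul {f g : ℂ → ℂ} (hf : Differentiable ℂ f) (hg : Differentiable ℂ g) {z : ℂ}
    (h1 : f z ≠ 0) (h2 : g z ≠ 0) :
    deriv (logDeriv fun w => f w * g w) z = deriv (logDeriv f) z + deriv (logDeriv g) z := by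
  have e : (logDeriv fun w => f w * g w) =ᶠ[𝓝 z] fun w => logDeriv f w + logDeriv g w := by
    filter_upwards [hf.continuous.continuousAt.eventually_ne h1,
      hg.continuous.continuousAt.eventually_ne h2] with w hw1 hw2
    exact logDeriv_mul w hw1 hw2 (hf w) (hg w)
  rw [e.deriv_eq]
  exact deriv_fun_add (logDeriv_diffAt hf h1) (logDeriv_diffAt hg h2)

lemma ld2_affine (p q z : ℂ) (h : p * z + q ≠ 0) :
    deriv (logDeriv fun w => p * w + q) z = -(p ^ 2 / (p * z + q) ^ 2) := by
  have e : (logDeriv fun w => p * w + q) = fun w => p / (p * w + q) := by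
    funext w
    rw [logDeriv_apply, (((hasDerivAt_id' w).const_mul p).add_const q).deriv, mul_one]
  rw [e]
  have := ((hasDerivAt_const z p).div (((hasDerivAt_id' z).const_mul p).add_const q) h).deriv
  refine Eq.trans this ?_
  field_simp
  ring

lemma laguerre_free {F : ℂ → ℂ} (hF : Differentiable ℂ F) {R M : ℝ} (hR : 0 < R) (hM : 0 < M)
    (h0 : ∀ z ∈ ball (0 : ℂ) R, F z ≠ 0)
    (hb : ∀ z ∈ ball (0 : ℂ) R, ‖F z‖ ≤ ‖F 0‖ * Real.exp M) :
    ‖deriv (logDeriv F) 0‖ ≤ 16 * M / R ^ 2 := by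
  have hd : DifferentiableOn ℂ (logDeriv F) (ball 0 R) := fun z hz =>
    (logDeriv_diffAt hF (h0 z hz)).differentiableWithinAt
  obtain ⟨h, hh0, hh⟩ := hd.isExactOn_ball.with_val_at 0 0
  have hhd : DifferentiableOn ℂ h (ball 0 R) := fun z hz =>
    (hh z hz).differentiableAt.differentiableWithinAt
  have hc : ∀ z ∈ ball (0 : ℂ) R, HasDerivAt (fun z => F z * exp (-h z)) 0 z := by
    intro z hz
    refine ((hF z).hasDerivAt.mul (hh z hz).neg.cexp).congr_deriv ?_
    have := h0 z hz
    simp only [logDeriv_apply, Pi.neg_apply]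
    field_simp
    ring
  obtain ⟨a, ha⟩ := isOpen_ball.exists_is_const_of_deriv_eq_zero (convex_ball (0 : ℂ) R).isPreconnected
    (fun z hz => (hc z hz).differentiableAt.differentiableWithinAt)
    (fun z hz => (hc z hz).deriv)
  have h00 := ha 0 (mem_ball_self hR)
  rw [hh0, neg_zero, exp_zero, mul_one] at h00
  have hF0 : 0 < ‖F 0‖ := norm_pos_iff.2 (h0 0 (mem_ball_self hR))
  have hre : MapsTo h (ball 0 R) {z | z.re ≤ M} := by
    intro z hz
    have e : F z = F 0 * exp (h z) := by
      rw [h00, ← ha z hz, mul_assoc, ← exp_add]; simp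
    have := hb z hz
    rw [e, norm_mul, norm_exp] at this
    exact Real.exp_le_exp.1 (le_of_mul_le_mul_left this hF0)
  have hsph : ∀ z ∈ sphere (0 : ℂ) (R / 2), ‖h z‖ ≤ 2 * M := by
    intro z hz
    have hz' : ‖z‖ = R / 2 := by simpa using hz
    have := borelCaratheodory_zero hM hhd hre hR (z := z)
      (by rw [mem_ball_zero_iff, hz']; linarith) hh0
    rw [hz'] at this
    refine this.trans (le_of_eq ?_)
    field_simp
    ring
  have hdc : DiffContOnCl ℂ h (ball 0 (R / 2)) :=
    hhd.diffContOnCl_ball (closedBall_subset_ball (by linarith))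
  have key := norm_iteratedDeriv_le_of_forall_mem_sphere_norm_le 2 (by positivity) hdc hsph
  have e : deriv h =ᶠ[𝓝 0] logDeriv F := by
    filter_upwards [ball_mem_nhds (0 : ℂ) hR] with z hz
    exact (hh z hz).deriv
  rw [iteratedDeriv_succ, iteratedDeriv_one, e.deriv_eq] at key
  refine key.trans (le_of_eq ?_)
  simp only [Nat.factorial_two, Nat.cast_ofNat]
  field_simp
  ring

lemma dslope_entire {F : ℂ → ℂ} (hF : Differentiable ℂ F) (a : ℂ) :
    Differentiable ℂ (dslope F a) := by
  rw [← differentiableOn_univ, differentiableOn_dslope univ_mem]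
  exact hF.differentiableOn

lemma dslope_factor {F : ℂ → ℂ} {a : ℂ} (ha : F a = 0) (z : ℂ) :
    F z = (z - a) * dslope F a z := by
  have := sub_smul_dslope F a z
  rw [ha, sub_zero, smul_eq_mul] at this
  exact this.symm

lemma laguerre_ind {R M K : ℝ} (hR : 0 < R) (hM : 0 < M) : ∀ (n : ℕ) (F : ℂ → ℂ),
    Differentiable ℂ F → (∀ z, F z = 0 → z.im = 0) → F 0 ≠ 0 →
    (∀ z, ‖z‖ ≤ R → ‖F z‖ ≤ K) → K ≤ ‖F 0‖ * Real.exp M → K < 2 ^ n * ‖F 0‖ →
    (deriv (logDeriv F) 0).re ≤ 64 * M / R ^ 2 := by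
  intro n
  induction n with
  | zero =>
    intro F _ _ _ hK _ h
    have := hK 0 (by simpa using hR.le)
    simp only [pow_zero, one_mul] at h
    linarith
  | succ n ih =>
    intro F hF hreal h0 hK hKM hn
    by_cases hz : ∀ z ∈ ball (0 : ℂ) (R / 2), F z ≠ 0
    · have := laguerre_free hF (R := R / 2) (by positivity) hM hz (fun z hz' =>
        (hK z (by rw [mem_ball_zero_iff] at hz'; linarith)).trans hKM)
      refine (re_le_norm _).trans (this.trans (le_of_eq ?_))
      field_simp
      ring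
    · push Not at hz
      obtain ⟨a, ha, hFa⟩ := hz
      obtain ⟨t, rfl⟩ : ∃ t : ℝ, a = t := ⟨a.re, by
        apply Complex.ext <;> simp [hreal a hFa]⟩
      have ht : |t| < R / 2 := by simpa using ha
      have ht0 : t ≠ 0 := by
        rintro rfl
        exact h0 (by simpa using hFa)
      have hta : 0 < |t| := abs_pos.2 ht0
      set D := dslope F t with hD
      have hDd : Differentiable ℂ D := dslope_entire hF t
      have hfac : ∀ z, F z = (z - t) * D z := dslope_factor hFa
      have hD0 : D 0 ≠ 0 := by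
        intro h; apply h0; rw [hfac 0, h, mul_zero]
      have hRc : (R : ℂ) ≠ 0 := ofReal_ne_zero.2 hR.ne'
      set G : ℂ → ℂ := fun z => ((-(t / R)) * z + R) * D z with hG
      have hGd : Differentiable ℂ G := by fun_prop
      have hG0 : G 0 = R * D 0 := by simp [hG]
      have hn0 : ‖F 0‖ = |t| * ‖D 0‖ := by rw [hfac 0]; simp
      have hnG : ‖G 0‖ = R * ‖D 0‖ := by rw [hG0]; simp [abs_of_pos hR]
      have hDpos : 0 < ‖D 0‖ := norm_pos_iff.2 hD0
      have h2 : 2 * ‖F 0‖ ≤ ‖G 0‖ := by rw [hn0, hnG]; nlinarith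
      have hGreal : ∀ z, G z = 0 → z.im = 0 := by
        intro z hz
        rcases mul_eq_zero.1 hz with h | h
        · have := congrArg Complex.im h
          have e : ((-(t / R) : ℂ) * z + R).im = -(t / R) * z.im := by
            rw [← ofReal_div, ← ofReal_neg, add_im, im_ofReal_mul, ofReal_im, add_zero]
          rw [e, zero_im] at this
          exact (mul_eq_zero.1 this).resolve_left (neg_ne_zero.2 (div_ne_zero ht0 hR.ne'))
        · exact hreal z (by rw [hfac z, h, mul_zero])
      have hGK : ∀ z, ‖z‖ ≤ R → ‖G z‖ ≤ K := by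
        intro z hz
        refine norm_le_of_forall_mem_frontier_norm_le (U := ball 0 R) isBounded_ball
          hGd.diffContOnCl (fun w hw => ?_) (by rw [closure_ball _ hR.ne']; simpa using hz)
        rw [frontier_ball _ hR.ne'] at hw
        have hw' : ‖w‖ = R := by simpa using hw
        have e1 : (-(t / R) : ℂ) * w + R = w / R * (starRingEnd ℂ) (w - t) := by
          have : w * (starRingEnd ℂ) w = (R : ℂ) ^ 2 := by
            rw [mul_conj, normSq_eq_norm_sq, hw']; push_cast; ring
          rw [map_sub, conj_ofReal]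
          field_simp
          linear_combination -this
        have e2 : ‖G w‖ = ‖F w‖ := by
          rw [hfac w, hG]
          simp only [e1, norm_mul, norm_div, hw', norm_conj, norm_real, Real.norm_eq_abs,
            abs_of_pos hR, div_self hR.ne', one_mul]
        rw [e2]; exact hK w hw'.le
      have hF0 : 0 ≤ ‖F 0‖ := norm_nonneg _
      have key := ih G hGd hGreal (by rw [hG0]; exact mul_ne_zero hRc hD0) hGK
        (hKM.trans (mul_le_mul_of_nonneg_right (by linarith) (Real.exp_pos _).le))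
        (by
          refine hn.trans_le ?_
          rw [pow_succ, mul_assoc]
          exact mul_le_mul_of_nonneg_left h2 (by positivity))
      have e1 : deriv (logDeriv G) 0 = -((t / R) ^ 2 / R ^ 2) + deriv (logDeriv D) 0 := by
        rw [hG, ld2_mul (by fun_prop) hDd (by simpa using hR.ne') hD0,
          ld2_affine _ _ _ (by simpa using hR.ne')]
        simp
      have e2 : deriv (logDeriv F) 0 = -(1 / t ^ 2) + deriv (logDeriv D) 0 := by
        have : F = fun z => (1 * z + -(t : ℂ)) * D z := by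
          funext z; rw [hfac z]; ring
        conv_lhs => rw [this]
        rw [ld2_mul (by fun_prop) hDd (by simpa using ht0) hD0,
          ld2_affine _ _ _ (by simpa using ht0)]
        simp
      have e3 : deriv (logDeriv F) 0 =
          ((t / R) ^ 2 / R ^ 2 - 1 / t ^ 2 : ℝ) + deriv (logDeriv G) 0 := by
        rw [e1, e2]; push_cast; ring
      rw [e3, add_re, ofReal_re]
      have : (t / R) ^ 2 / R ^ 2 ≤ 1 / t ^ 2 := by
        have ht2 : 0 < t ^ 2 := by positivity
        have h3 : t ^ 2 ≤ R ^ 2 := by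
          rw [← sq_abs t]; exact pow_le_pow_left₀ hta.le (by linarith) 2
        rw [div_pow, div_div, div_le_div_iff₀ (by positivity) ht2]
        nlinarith
      linarith

lemma laguerre_zero {F : ℂ → ℂ} (hF : Differentiable ℂ F) (hreal : ∀ z, F z = 0 → z.im = 0)
    (h0 : F 0 ≠ 0) {C k r : ℝ} (hk : 0 ≤ k) (hg : ∀ z, r ≤ ‖z‖ → ‖F z‖ ≤ C * Real.exp (k * ‖z‖)) :
    (deriv (logDeriv F) 0).re ≤ 0 := by
  have hF0 : 0 < ‖F 0‖ := norm_pos_iff.2 h0
  set c := |Real.log (|C| / ‖F 0‖ + 1)| + 1 with hc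
  have hcpos : 0 < c := by positivity
  have h1 : ∀ᶠ R : ℝ in atTop, (deriv (logDeriv F) 0).re ≤ 64 * c / R ^ 2 + 64 * k / R := by
    filter_upwards [eventually_ge_atTop r, eventually_gt_atTop 0] with R hr hR
    have hK : ∀ z, ‖z‖ ≤ R → ‖F z‖ ≤ |C| * Real.exp (k * R) := by
      intro z hz
      refine norm_le_of_forall_mem_frontier_norm_le (U := ball 0 R) isBounded_ball
        hF.diffContOnCl (fun w hw => ?_) (by rw [closure_ball _ hR.ne']; simpa using hz)
      rw [frontier_ball _ hR.ne'] at hw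
      have hw' : ‖w‖ = R := by simpa using hw
      refine (hg w (hw' ▸ hr)).trans ?_
      rw [hw']
      exact mul_le_mul_of_nonneg_right (le_abs_self C) (Real.exp_pos _).le
    obtain ⟨n, hn⟩ := pow_unbounded_of_one_lt (|C| * Real.exp (k * R) / ‖F 0‖) (one_lt_two (α := ℝ))
    have := laguerre_ind hR (M := c + k * R) (by positivity) n F hF hreal h0 hK (by
      rw [Real.exp_add, ← mul_assoc]
      refine mul_le_mul_of_nonneg_right ?_ (Real.exp_pos _).le
      rw [← div_le_iff₀' hF0]
      have h2 : |C| / ‖F 0‖ + 1 ≤ Real.exp c := by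
        rw [← Real.log_le_iff_le_exp (by positivity)]
        linarith [le_abs_self (Real.log (|C| / ‖F 0‖ + 1))]
      linarith) (by rwa [div_lt_iff₀ hF0] at hn)
    refine this.trans (le_of_eq ?_)
    field_simp
  have h2 : Tendsto (fun R : ℝ => 64 * c / R ^ 2 + 64 * k / R) atTop (𝓝 (0 + 0)) :=
    (tendsto_const_nhds.div_atTop (tendsto_pow_atTop two_ne_zero)).add
      (tendsto_const_nhds.div_atTop tendsto_id)
  rw [add_zero] at h2
  exact ge_of_tendsto h2 h1

/-- strict Laguerre inequality for a function vanishing at the origin -/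
lemma laguerre_strict {F : ℂ → ℂ} (hF : Differentiable ℂ F) (hreal : ∀ z, F z = 0 → z.im = 0)
    (hF0 : F 0 = 0) {C k : ℝ} (hC : 0 ≤ C) (hk : 0 ≤ k)
    (hg : ∀ z, ‖F z‖ ≤ C * Real.exp (k * ‖z‖)) {x : ℝ} (hx : F x ≠ 0) :
    (deriv (logDeriv F) x).re < 0 := by
  set D := dslope F 0 with hD
  have hDd : Differentiable ℂ D := dslope_entire hF 0
  have hfac : ∀ z, F z = (z - 0) * D z := dslope_factor hF0
  have hx0 : (x : ℂ) ≠ 0 := by
    intro h; rw [h] at hx; exact hx hF0
  have hx0' : x ≠ 0 := ofReal_ne_zero.1 hx0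
  have hDx : D x ≠ 0 := by
    intro h; apply hx; rw [hfac x, h, mul_zero]
  have e2 : deriv (logDeriv F) x = -(1 / x ^ 2 : ℝ) + deriv (logDeriv D) x := by
    have : F = fun z => (1 * z + 0) * D z := by
      funext z; rw [hfac z]; ring
    conv_lhs => rw [this]
    rw [ld2_mul (by fun_prop) hDd (by simpa using hx0') hDx,
      ld2_affine _ _ _ (by simpa using hx0')]
    simp
  have e3 : (logDeriv fun z => D (z + x)) = fun z => logDeriv D (z + x) := by
    funext z
    rw [logDeriv_apply, logDeriv_apply, deriv_comp_add_const]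
  have key := laguerre_zero (F := fun z => D (z + x)) (by fun_prop)
    (fun z hz => by
      have := hreal (z + x) (by rw [hfac, hz, mul_zero])
      simpa using this)
    (by simpa using hDx) (C := C * Real.exp (k * |x|)) (r := |x| + 1) hk (fun z hz => by
      have h1 : 1 ≤ ‖z + x‖ := by
        have := norm_sub_le (z + x) x
        rw [add_sub_cancel_right, norm_real, Real.norm_eq_abs] at this
        linarith
      have h2 : ‖D (z + x)‖ ≤ ‖F (z + x)‖ := by
        rw [hfac, sub_zero, norm_mul]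
        exact le_mul_of_one_le_left (norm_nonneg _) h1
      refine h2.trans ((hg _).trans ?_)
      rw [mul_assoc, ← Real.exp_add]
      have h3 : ‖z + x‖ ≤ ‖z‖ + |x| := by
        have := norm_add_le z x
        rwa [norm_real, Real.norm_eq_abs] at this
      gcongr
      nlinarith)
  rw [e3, deriv_comp_add_const, zero_add] at key
  rw [e2, add_re, neg_re, ofReal_re]
  have : 0 < 1 / x ^ 2 := by positivity
  linarith

/-- consequences on an interval where the function is negative -/
lemma log_concave {F : ℂ → ℂ} (hF : Differentiable ℂ F) {a b : ℝ}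
    (hneg : ∀ x ∈ Icc a b, ∃ t : ℝ, t < 0 ∧ F x = t)
    (hL : ∀ x : ℝ, F x ≠ 0 → (deriv (logDeriv F) x).re < 0) :
    StrictConcaveOn ℝ (Icc a b) (fun x : ℝ => Real.log ‖F x‖) ∧
    StrictAntiOn (fun x : ℝ => (logDeriv F x).re) (Icc a b) ∧
    ∀ x ∈ Icc a b, HasDerivAt (fun x : ℝ => Real.log ‖F x‖) (logDeriv F x).re x := by
  have hne : ∀ x ∈ Icc a b, F x ≠ 0 := by
    intro x hx
    obtain ⟨t, ht, e⟩ := hneg x hx
    rw [e]; exact ofReal_ne_zero.2 ht.ne
  have hd : ∀ x ∈ Icc a b, HasDerivAt (fun x : ℝ => Real.log ‖F x‖) (logDeriv F x).re x := by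
    intro x hx
    obtain ⟨t, ht, e⟩ := hneg x hx
    have h1 : -F x ∈ slitPlane := by
      rw [e, ← ofReal_neg]; exact ofReal_mem_slitPlane.2 (neg_pos.2 ht)
    have h2 := ((hF x).hasDerivAt.neg.clog h1).real_of_complex
    simp only [Pi.neg_apply, log_re, norm_neg, neg_div_neg_eq] at h2
    exact h2
  have hd2 : ∀ x ∈ Icc a b, HasDerivAt (fun x : ℝ => (logDeriv F x).re)
      (deriv (logDeriv F) x).re x := fun x hx =>
    (logDeriv_diffAt hF (hne x hx)).hasDerivAt.real_of_complex
  have hanti : StrictAntiOn (fun x : ℝ => (logDeriv F x).re) (Icc a b) :=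
    strictAntiOn_of_deriv_neg (convex_Icc a b)
      (fun x hx => (hd2 x hx).continuousAt.continuousWithinAt)
      (fun x hx => by
        rw [(hd2 x (interior_subset hx)).deriv]
        exact hL x (hne x (interior_subset hx)))
  refine ⟨?_, hanti, hd⟩
  refine StrictAntiOn.strictConcaveOn_of_deriv (convex_Icc a b)
    (fun x hx => (hd x hx).continuousAt.continuousWithinAt) ?_
  intro x hx y hy hxy
  rw [(hd x (interior_subset hx)).deriv, (hd y (interior_subset hy)).deriv]
  exact hanti (interior_subset hx) (interior_subset hy) hxy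

end Pool.Agent.Lib.MP_60675c_an
end
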