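import Mathlib

-- part Pool.Agent.Lib.MP_60675c_an.ODE
section

/-! Global fundamental solution of a linear ODE with bounded continuous coefficients in a Banach
algebra, with holomorphic dependence on the coefficients. -/

set_option autoImplicit false
set_option linter.unusedSectionVars false

open Filter Topology MeasureTheory intervalIntegral
open scoped BoundedContinuousFunction

namespace Pool.Agent.Lib.MP_60675c_an

variable {M : Type*} [NormedRing M] [NormedAlgebra ℂ M] [CompleteSpace M] [NormedSpace ℝ M]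
  [SMulCommClass ℝ ℂ M]

/-- the weight -/
noncomputable def ch (κ τ : ℝ) : ℂ := (Real.cosh (κ * τ) : ℂ)

lemma ch_norm (κ τ : ℝ) : ‖ch κ τ‖ = Real.cosh (κ * τ) := by
  rw [ch, Complex.norm_real, Real.norm_eq_abs, abs_of_pos (Real.cosh_pos _)]

lemma ch_ne (κ τ : ℝ) : ch κ τ ≠ 0 := by
  rw [← norm_ne_zero_iff, ch_norm]; exact (Real.cosh_pos _).ne'

@[fun_prop] lemma ch_cont (κ : ℝ) : Continuous (ch κ) := by
  unfold ch; fun_prop

lemma ch_inv_cont (κ : ℝ) : Continuous fun τ => (ch κ τ)⁻¹ :=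
  (ch_cont κ).inv₀ (ch_ne κ)

lemma cosh_int_bound {κ : ℝ} (hκ : 0 < κ) (f : ℝ →ᵇ M) (τ : ℝ) :
    ‖(ch κ τ)⁻¹ • ∫ σ in (0:ℝ)..τ, ch κ σ • f σ‖ ≤ κ⁻¹ * ‖f‖ := by
  have hc : 0 < Real.cosh (κ * τ) := Real.cosh_pos _
  have h1 : ‖∫ σ in (0:ℝ)..τ, ch κ σ • f σ‖
      ≤ |∫ σ in (0:ℝ)..τ, Real.cosh (κ * σ) * ‖f‖| := by
    apply intervalIntegral.norm_integral_le_abs_of_norm_le
    · refine Eventually.of_forall fun σ => ?_
      rw [norm_smul, ch_norm]
      exact mul_le_mul_of_nonneg_left (f.norm_coe_le_norm σ) (Real.cosh_pos _).le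
    · exact Continuous.intervalIntegrable (by fun_prop) _ _
  have h2 : ∫ σ in (0:ℝ)..τ, Real.cosh (κ * σ) * ‖f‖ = κ⁻¹ * Real.sinh (κ * τ) * ‖f‖ := by
    have : ∀ σ : ℝ, HasDerivAt (fun σ => κ⁻¹ * Real.sinh (κ * σ) * ‖f‖)
        (Real.cosh (κ * σ) * ‖f‖) σ := by
      intro σ
      have h := (((hasDerivAt_id' σ).const_mul κ).sinh.const_mul κ⁻¹).mul_const ‖f‖
      refine h.congr_deriv ?_
      field_simp
    rw [intervalIntegral.integral_eq_sub_of_hasDerivAt (fun σ _ => this σ)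
      (Continuous.intervalIntegrable (by fun_prop) _ _)]
    simp
  rw [norm_smul, norm_inv, ch_norm, inv_mul_le_iff₀ hc]
  refine h1.trans ?_
  rw [h2, abs_mul, abs_mul, abs_of_pos (inv_pos.2 hκ), abs_norm]
  have : |Real.sinh (κ * τ)| ≤ Real.cosh (κ * τ) := by
    rw [abs_le]
    have h3 := Real.sinh_lt_cosh (κ * τ)
    have h4 := Real.sinh_lt_cosh (-(κ * τ))
    rw [Real.sinh_neg, Real.cosh_neg] at h4
    constructor <;> linarith
  have h5 : 0 ≤ κ⁻¹ := (inv_pos.2 hκ).le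
  calc κ⁻¹ * |Real.sinh (κ * τ)| * ‖f‖ ≤ κ⁻¹ * Real.cosh (κ * τ) * ‖f‖ := by gcongr
    _ = _ := by ring

lemma cosh_int_cont (κ : ℝ) (f : ℝ →ᵇ M) :
    Continuous fun τ : ℝ => (ch κ τ)⁻¹ • ∫ σ in (0:ℝ)..τ, ch κ σ • f σ := by
  refine (ch_inv_cont κ).smul ?_
  exact intervalIntegral.continuous_primitive
    (fun a b => Continuous.intervalIntegrable (by fun_prop) _ _) 0

/-- weighted integration, as a linear map -/
noncomputable def wIl {κ : ℝ} (hκ : 0 < κ) : (ℝ →ᵇ M) →ₗ[ℂ] (ℝ →ᵇ M) where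
  toFun f := BoundedContinuousFunction.ofNormedAddCommGroup _ (cosh_int_cont κ f) (κ⁻¹ * ‖f‖)
    (cosh_int_bound hκ f)
  map_add' f g := by
    ext τ
    simp only [BoundedContinuousFunction.coe_ofNormedAddCommGroup,
      BoundedContinuousFunction.coe_add, Pi.add_apply, smul_add]
    rw [intervalIntegral.integral_add (Continuous.intervalIntegrable (by fun_prop) _ _)
      (Continuous.intervalIntegrable (by fun_prop) _ _), smul_add]
  map_smul' c f := by
    ext τ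
    simp only [BoundedContinuousFunction.coe_ofNormedAddCommGroup,
      BoundedContinuousFunction.coe_smul, RingHom.id_apply]
    rw [smul_comm c]
    congr 1
    rw [← intervalIntegral.integral_smul]
    congr 1
    funext σ
    exact smul_comm _ _ _

lemma wIl_bound {κ : ℝ} (hκ : 0 < κ) (f : ℝ →ᵇ M) : ‖wIl hκ f‖ ≤ κ⁻¹ * ‖f‖ :=
  (BoundedContinuousFunction.norm_le (by positivity)).2 (cosh_int_bound hκ f)

/-- weighted integration -/
noncomputable def wI {κ : ℝ} (hκ : 0 < κ) : (ℝ →ᵇ M) →L[ℂ] (ℝ →ᵇ M) :=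
  (wIl (M := M) hκ).mkContinuous κ⁻¹ (fun f => wIl_bound (M := M) hκ f)

lemma wI_apply {κ : ℝ} (hκ : 0 < κ) (f : ℝ →ᵇ M) (τ : ℝ) :
    wI hκ f τ = (ch κ τ)⁻¹ • ∫ σ in (0:ℝ)..τ, ch κ σ • f σ := rfl

lemma wI_norm {κ : ℝ} (hκ : 0 < κ) : ‖(wI hκ : (ℝ →ᵇ M) →L[ℂ] (ℝ →ᵇ M))‖ ≤ κ⁻¹ :=
  LinearMap.mkContinuous_norm_le _ (inv_pos.2 hκ).le _

/-- the Picard operator -/
noncomputable def pic {κ : ℝ} (hκ : 0 < κ) (A : ℝ →ᵇ M) : (ℝ →ᵇ M) →L[ℂ] (ℝ →ᵇ M) :=
  (wI hκ).comp (ContinuousLinearMap.mul ℂ (ℝ →ᵇ M) A)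

lemma pic_norm {κ : ℝ} (hκ : 0 < κ) (A : ℝ →ᵇ M) : ‖pic hκ A‖ ≤ κ⁻¹ * ‖A‖ := by
  have h := ContinuousLinearMap.opNorm_comp_le (wI (M := M) hκ)
    (ContinuousLinearMap.mul ℂ (ℝ →ᵇ M) A)
  refine h.trans ?_
  exact mul_le_mul (wI_norm (M := M) hκ) (ContinuousLinearMap.opNorm_mul_apply_le ℂ _ A)
    (norm_nonneg _) (inv_pos.2 hκ).le

lemma pic_diff {κ : ℝ} (hκ : 0 < κ) : Differentiable ℂ (fun A : ℝ →ᵇ M => pic hκ A) := by
  unfold pic
  exact (differentiable_const _).clm_comp (ContinuousLinearMap.mul ℂ (ℝ →ᵇ M)).differentiable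

lemma e0_bound (κ τ : ℝ) : ‖(ch κ τ)⁻¹ • (1 : M)‖ ≤ ‖(1 : M)‖ := by
  rw [norm_smul, norm_inv, ch_norm]
  exact mul_le_of_le_one_left (norm_nonneg _) (inv_le_one_of_one_le₀ (Real.one_le_cosh _))

/-- weighted constant -/
noncomputable def e0 (κ : ℝ) : ℝ →ᵇ M :=
  BoundedContinuousFunction.ofNormedAddCommGroup (fun τ => (ch κ τ)⁻¹ • (1 : M))
    ((ch_inv_cont κ).smul continuous_const) ‖(1 : M)‖ (e0_bound κ)

lemma e0_norm (κ : ℝ) : ‖(e0 κ : ℝ →ᵇ M)‖ ≤ ‖(1 : M)‖ :=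
  (BoundedContinuousFunction.norm_le (norm_nonneg _)).2 (e0_bound κ)

/-- weighted fixed point -/
noncomputable def fixp {κ : ℝ} (hκ : 0 < κ) (A : ℝ →ᵇ M) : ℝ →ᵇ M :=
  Ring.inverse (1 - pic hκ A) (e0 κ)

lemma pic_lt {κ : ℝ} (hκ : 0 < κ) {A : ℝ →ᵇ M} (hA : ‖A‖ < κ) : ‖pic hκ A‖ < 1 := by
  refine (pic_norm hκ A).trans_lt ?_
  rw [inv_mul_lt_iff₀ hκ]; linarith

lemma pic_unit {κ : ℝ} (hκ : 0 < κ) {A : ℝ →ᵇ M} (hA : ‖A‖ < κ) : IsUnit (1 - pic hκ A) :=
  isUnit_one_sub_of_norm_lt_one (R := (ℝ →ᵇ M) →L[ℂ] (ℝ →ᵇ M)) (pic_lt hκ hA)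

lemma fixp_eq {κ : ℝ} (hκ : 0 < κ) {A : ℝ →ᵇ M} (hA : ‖A‖ < κ) :
    fixp hκ A = e0 κ + pic hκ A (fixp hκ A) := by
  have h := Ring.mul_inverse_cancel _ (pic_unit hκ hA)
  have h2 : (1 - pic hκ A) (fixp hκ A) = e0 κ := by
    unfold fixp
    rw [← mul_apply_eq_comp, h, one_apply_eq_self]
  rw [← h2]
  simp

lemma fixp_diffAt {κ : ℝ} (hκ : 0 < κ) {A : ℝ →ᵇ M} (hA : ‖A‖ < κ) :
    DifferentiableAt ℂ (fun B : ℝ →ᵇ M => fixp hκ B) A := by
  unfold fixp
  refine DifferentiableAt.clm_apply ?_ (differentiableAt_const _)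
  exact DifferentiableAt.inverse ((differentiableAt_const _).sub (pic_diff hκ A)) (pic_unit hκ hA)

/-- solution with weight `κ` -/
noncomputable def Zk {κ : ℝ} (hκ : 0 < κ) (A : ℝ →ᵇ M) (τ : ℝ) : M :=
  ch κ τ • fixp hκ A τ

lemma Zk_int {κ : ℝ} (hκ : 0 < κ) {A : ℝ →ᵇ M} (hA : ‖A‖ < κ) (τ : ℝ) :
    Zk hκ A τ = 1 + ∫ σ in (0:ℝ)..τ, A σ * Zk hκ A σ := by
  have hc := ch_ne κ τ
  have h := congrArg (fun f : ℝ →ᵇ M => ch κ τ • f τ) (fixp_eq hκ hA)
  simp only [BoundedContinuousFunction.coe_add, Pi.add_apply, smul_add] at h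
  unfold Zk
  rw [h]
  congr 1
  · change ch κ τ • ((ch κ τ)⁻¹ • (1 : M)) = 1
    rw [smul_smul, mul_inv_cancel₀ hc, one_smul]
  · change ch κ τ • wI hκ (A * fixp hκ A) τ = _
    rw [wI_apply, smul_smul, mul_inv_cancel₀ hc, one_smul]
    congr 1
    ext σ
    simp

lemma Zk_cont {κ : ℝ} (hκ : 0 < κ) (A : ℝ →ᵇ M) : Continuous (Zk hκ A) := by
  unfold Zk; fun_prop

lemma Zk_deriv {κ : ℝ} (hκ : 0 < κ) {A : ℝ →ᵇ M} (hA : ‖A‖ < κ) (τ : ℝ) :
    HasDerivAt (Zk hκ A) (A τ * Zk hκ A τ) τ := by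
  have hc : Continuous fun σ => A σ * Zk hκ A σ := A.continuous.mul (Zk_cont hκ A)
  have h := ((hc.integral_hasStrictDerivAt 0 τ).hasDerivAt).const_add 1
  have : Zk hκ A = fun τ => 1 + ∫ σ in (0:ℝ)..τ, A σ * Zk hκ A σ := funext (Zk_int hκ hA)
  rw [← this] at h
  exact h

lemma Zk_zero {κ : ℝ} (hκ : 0 < κ) {A : ℝ →ᵇ M} (hA : ‖A‖ < κ) : Zk hκ A 0 = 1 := by
  rw [Zk_int hκ hA]; simp

lemma lin_unique (A : ℝ →ᵇ M) {f g : ℝ → M} (hf : ∀ τ, HasDerivAt f (A τ * f τ) τ)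
    (hg : ∀ τ, HasDerivAt g (A τ * g τ) τ) {t : ℝ} (h : f t = g t) : f = g := by
  refine ODE_solution_unique_univ (v := fun τ y => A τ * y) (s := fun _ => Set.univ)
    (K := ‖A‖₊) (fun τ => ?_) (fun τ => ⟨hf τ, trivial⟩) (fun τ => ⟨hg τ, trivial⟩) h
  refine LipschitzWith.lipschitzOnWith (LipschitzWith.of_dist_le_mul fun x y => ?_)
  rw [dist_eq_norm, dist_eq_norm, ← mul_sub]
  refine (norm_mul_le _ _).trans ?_
  exact mul_le_mul_of_nonneg_right (A.norm_coe_le_norm τ) (norm_nonneg _)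

lemma kap_pos (A : ℝ →ᵇ M) : 0 < 2 * ‖A‖ + 1 := by positivity

lemma kap_gt (A : ℝ →ᵇ M) : ‖A‖ < 2 * ‖A‖ + 1 := by linarith [norm_nonneg A]

/-- the fundamental solution -/
noncomputable def Zf (A : ℝ →ᵇ M) : ℝ → M := Zk (kap_pos A) A

lemma Zf_deriv (A : ℝ →ᵇ M) (τ : ℝ) : HasDerivAt (Zf A) (A τ * Zf A τ) τ :=
  Zk_deriv _ (kap_gt A) τ

lemma Zf_zero (A : ℝ →ᵇ M) : Zf A 0 = 1 := Zk_zero _ (kap_gt A)

lemma Zf_eq_Zk {κ : ℝ} (hκ : 0 < κ) {A : ℝ →ᵇ M} (hA : ‖A‖ < κ) : Zf A = Zk hκ A :=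
  lin_unique A (Zf_deriv A) (Zk_deriv hκ hA) (t := 0) (by rw [Zf_zero, Zk_zero hκ hA])

lemma ev_norm_lt (A : ℝ →ᵇ M) : ∀ᶠ B in 𝓝 A, ‖B‖ < 2 * ‖A‖ + 1 :=
  (continuous_norm.tendsto A).eventually (gt_mem_nhds (kap_gt A))

lemma Zf_diff (τ : ℝ) : Differentiable ℂ fun A : ℝ →ᵇ M => Zf A τ := by
  intro A
  have h1 : DifferentiableAt ℂ (fun B : ℝ →ᵇ M => Zk (kap_pos A) B τ) A := by
    unfold Zk
    have h2 : DifferentiableAt ℂ (fun B : ℝ →ᵇ M => fixp (kap_pos A) B τ) A :=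
      (BoundedContinuousFunction.evalCLM ℂ τ : (ℝ →ᵇ M) →L[ℂ] M).differentiableAt.comp A
        (fixp_diffAt (kap_pos A) (kap_gt A))
    exact h2.const_smul (ch (2 * ‖A‖ + 1) τ)
  refine h1.congr_of_eventuallyEq ?_
  filter_upwards [ev_norm_lt A] with B hB
  rw [Zf_eq_Zk (kap_pos A) hB]

lemma Zf_cont : Continuous fun q : (ℝ →ᵇ M) × ℝ => Zf q.1 q.2 := by
  refine continuous_iff_continuousAt.2 fun q => ?_
  have h1 : ContinuousAt (fun r : (ℝ →ᵇ M) × ℝ => Zk (kap_pos q.1) r.1 r.2) q := by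
    unfold Zk
    refine ContinuousAt.smul (by fun_prop) ?_
    have h2 : ContinuousAt (fun r : (ℝ →ᵇ M) × ℝ => fixp (kap_pos q.1) r.1) q :=
      ContinuousAt.comp (f := Prod.fst) (fixp_diffAt (kap_pos q.1) (kap_gt q.1)).continuousAt
        continuousAt_fst
    exact (continuous_eval.continuousAt).comp (h2.prodMk continuousAt_snd)
  refine h1.congr ?_
  filter_upwards [continuousAt_fst.eventually (ev_norm_lt q.1)] with r hr
  rw [Zf_eq_Zk (kap_pos q.1) hr]

lemma Zf_norm (A : ℝ →ᵇ M) (τ : ℝ) :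
    ‖Zf A τ‖ ≤ 2 * ‖(1 : M)‖ * Real.exp ((2 * ‖A‖ + 1) * |τ|) := by
  have h1 : ‖fixp (kap_pos A) A‖ ≤ 2 * ‖(1 : M)‖ := by
    have h := fixp_eq (kap_pos A) (kap_gt A)
    have h2 : ‖pic (kap_pos A) A‖ ≤ 1 / 2 := by
      refine (pic_norm _ A).trans ?_
      rw [inv_mul_le_iff₀ (kap_pos A)]; linarith
    have h3 : ‖fixp (kap_pos A) A‖ ≤ ‖(1 : M)‖ + 1 / 2 * ‖fixp (kap_pos A) A‖ := by
      conv_lhs => rw [h]
      refine (norm_add_le _ _).trans (add_le_add (e0_norm _) ?_)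
      exact ((pic _ A).le_opNorm _).trans (mul_le_mul_of_nonneg_right h2 (norm_nonneg _))
    linarith
  unfold Zf Zk
  rw [norm_smul, ch_norm, mul_comm]
  refine mul_le_mul (((fixp _ A).norm_coe_le_norm τ).trans h1) ?_ (Real.cosh_pos _).le
    (by positivity)
  rw [← Real.cosh_abs, abs_mul, abs_of_pos (kap_pos A), Real.cosh_eq]
  have : Real.exp (-((2 * ‖A‖ + 1) * |τ|)) ≤ Real.exp ((2 * ‖A‖ + 1) * |τ|) := by
    apply Real.exp_le_exp.2
    have : 0 ≤ (2 * ‖A‖ + 1) * |τ| := by positivity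
    linarith
  linarith

/-- cosine times a constant -/
noncomputable def cosG (H : M) : ℝ →ᵇ M :=
  BoundedContinuousFunction.ofNormedAddCommGroup (fun τ => ((Real.cos τ : ℝ) : ℂ) • H)
    (by fun_prop) ‖H‖ (fun τ => by
      rw [norm_smul, Complex.norm_real, Real.norm_eq_abs]
      exact mul_le_of_le_one_left (norm_nonneg _) (Real.abs_cos_le_one τ))

/-- constant function -/
noncomputable def cst (X : M) : ℝ →ᵇ M := BoundedContinuousFunction.const ℝ X

/-- the coefficient -/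
noncomputable def coefG (H B C : M) (ν μ b c : ℂ) : ℝ →ᵇ M :=
  (ν / 2) • cst H + μ • cosG H + b • cst B + c • cst C

lemma coefG_apply (H B C : M) (ν μ b c : ℂ) (τ : ℝ) :
    coefG H B C ν μ b c τ = (ν / 2 + μ * (Real.cos τ : ℝ)) • H + b • B + c • C := by
  simp [coefG, cst, cosG, add_smul, mul_smul]

lemma coefG_bound (H B C : M) (ν μ b c : ℂ) (τ : ℝ) :
    ‖coefG H B C ν μ b c τ‖ ≤ ‖coefG H B C ν μ b c‖ :=
  BoundedContinuousFunction.norm_coe_le_norm _ _

/-- the fundamental solution -/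
noncomputable def ZG (H B C : M) (ν μ b c : ℂ) (τ : ℝ) : M := Zf (coefG H B C ν μ b c) τ

lemma ZG_zero (H B C : M) (ν μ b c : ℂ) : ZG H B C ν μ b c 0 = 1 := Zf_zero _

lemma ZG_deriv (H B C : M) (ν μ b c : ℂ) (τ : ℝ) :
    HasDerivAt (ZG H B C ν μ b c) (coefG H B C ν μ b c τ * ZG H B C ν μ b c τ) τ :=
  Zf_deriv _ τ

lemma ZG_cont (H B C : M) {X : Type*} [TopologicalSpace X] {ν μ b c : X → ℂ} {τ : X → ℝ}
    (hν : Continuous ν) (hμ : Continuous μ) (hb : Continuous b) (hc : Continuous c)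
    (hτ : Continuous τ) : Continuous fun x => ZG H B C (ν x) (μ x) (b x) (c x) (τ x) := by
  have h1 : Continuous fun x => coefG H B C (ν x) (μ x) (b x) (c x) := by
    unfold coefG; fun_prop
  have h2 := (Zf_cont (M := M)).comp (h1.prodMk hτ)
  simpa only [Function.comp_def, ZG] using h2

lemma ZG_diff (H B C : M) {ν μ b c : ℂ → ℂ}
    (hν : Differentiable ℂ ν) (hμ : Differentiable ℂ μ) (hb : Differentiable ℂ b)
    (hc : Differentiable ℂ c) (τ : ℝ) :
    Differentiable ℂ fun x => ZG H B C (ν x) (μ x) (b x) (c x) τ := by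
  have h1 : Differentiable ℂ fun x => coefG H B C (ν x) (μ x) (b x) (c x) := by
    unfold coefG; fun_prop
  exact (Zf_diff τ).comp h1

lemma ZG_growth (H B C : M) (ν μ b : ℂ) (τ : ℝ) : ∃ K k : ℝ, 0 ≤ K ∧ 0 ≤ k ∧ ∀ c : ℂ,
    ‖ZG H B C ν μ b c τ‖ ≤ K * Real.exp (k * ‖c‖) := by
  set A₀ : ℝ →ᵇ M := (ν / 2) • cst H + μ • cosG H + b • cst B with hA₀
  refine ⟨2 * ‖(1 : M)‖ * Real.exp ((2 * ‖A₀‖ + 1) * |τ|), 2 * ‖cst C‖ * |τ|,
    by positivity, by positivity, fun c => ?_⟩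
  have h1 : ‖coefG H B C ν μ b c‖ ≤ ‖A₀‖ + ‖c‖ * ‖cst C‖ := by
    rw [← norm_smul]; exact norm_add_le _ _
  refine (Zf_norm _ τ).trans ?_
  rw [mul_assoc (2 * ‖(1 : M)‖), ← Real.exp_add]
  gcongr
  have := abs_nonneg τ
  nlinarith

end Pool.Agent.Lib.MP_60675c_an
end

-- part Pool.Agent.Lib.MP_60675c_an.Sys
section

/-! The 2×2 linear system `y₁' = i (a y₁ - b y₂)`, `y₂' = i (c y₁ - a y₂)`,
`a = ν/2 + μ cos τ`. -/

set_option autoImplicit false

open Filter Topology MeasureTheory intervalIntegral Complex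
open scoped BoundedContinuousFunction

namespace Pool.Agent.Lib.MP_60675c_an

/-- operators on the plane -/
abbrev Op := (ℂ × ℂ) →L[ℂ] (ℂ × ℂ)

noncomputable def opH : Op :=
  (I • ContinuousLinearMap.fst ℂ ℂ ℂ).prod ((-I) • ContinuousLinearMap.snd ℂ ℂ ℂ)

noncomputable def opB : Op := ((-I) • ContinuousLinearMap.snd ℂ ℂ ℂ).prod 0

noncomputable def opC : Op := ContinuousLinearMap.prod 0 (I • ContinuousLinearMap.fst ℂ ℂ ℂ)

/-- the diagonal entry -/
noncomputable def aa (ν μ : ℂ) (τ : ℝ) : ℂ := ν / 2 + μ * (Real.cos τ : ℝ)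

lemma coef_apply (ν μ b c : ℂ) (τ : ℝ) (y : ℂ × ℂ) :
    (coefG opH opB opC ν μ b c τ : Op) y =
      (I * (aa ν μ τ * y.1 - b * y.2), I * (c * y.1 - aa ν μ τ * y.2)) := by
  rw [coefG_apply]
  ext
  · simp [opH, opB, opC, aa]; ring
  · simp [opH, opB, opC, aa]; ring

/-- being a solution -/
def IsSol (ν μ b c : ℂ) (y z : ℝ → ℂ) : Prop :=
  (∀ τ, HasDerivAt y (I * (aa ν μ τ * y τ - b * z τ)) τ) ∧
  (∀ τ, HasDerivAt z (I * (c * y τ - aa ν μ τ * z τ)) τ)

lemma IsSol.cont1 {ν μ b c : ℂ} {y z : ℝ → ℂ} (h : IsSol ν μ b c y z) : Continuous y :=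
  continuous_iff_continuousAt.2 fun τ => (h.1 τ).continuousAt

lemma IsSol.cont2 {ν μ b c : ℂ} {y z : ℝ → ℂ} (h : IsSol ν μ b c y z) : Continuous z :=
  continuous_iff_continuousAt.2 fun τ => (h.2 τ).continuousAt

lemma IsSol.unique {ν μ b c : ℂ} {y z y' z' : ℝ → ℂ} (h : IsSol ν μ b c y z)
    (h' : IsSol ν μ b c y' z') {t : ℝ} (h1 : y t = y' t) (h2 : z t = z' t) :
    y = y' ∧ z = z' := by
  have key : (fun τ => (y τ, z τ)) = fun τ => (y' τ, z' τ) := by
    refine ODE_solution_unique_univ (v := fun τ w => (coefG opH opB opC ν μ b c τ : Op) w) (s := fun _ => Set.univ)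
      (K := ⟨‖coefG opH opB opC ν μ b c‖, norm_nonneg _⟩) (t₀ := t) (fun τ => ?_) (fun τ => ⟨?_, trivial⟩)
      (fun τ => ⟨?_, trivial⟩) (by simp [h1, h2])
    · refine LipschitzWith.lipschitzOnWith (LipschitzWith.of_dist_le_mul fun x y => ?_)
      rw [dist_eq_norm, dist_eq_norm, ← map_sub]
      refine (ContinuousLinearMap.le_opNorm _ _).trans ?_
      exact mul_le_mul_of_nonneg_right (coefG_bound opH opB opC ν μ b c τ) (norm_nonneg _)
    · rw [coef_apply]; exact (h.1 τ).prodMk (h.2 τ)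
    · rw [coef_apply]; exact (h'.1 τ).prodMk (h'.2 τ)
  exact ⟨funext fun τ => congrArg Prod.fst (congrFun key τ),
    funext fun τ => congrArg Prod.snd (congrFun key τ)⟩

lemma IsSol.zero (ν μ b c : ℂ) : IsSol ν μ b c (fun _ => 0) (fun _ => 0) :=
  ⟨fun τ => by simpa using hasDerivAt_const τ (0 : ℂ),
   fun τ => by simpa using hasDerivAt_const τ (0 : ℂ)⟩

lemma IsSol.comb {ν μ b c : ℂ} {y z y' z' : ℝ → ℂ} (h : IsSol ν μ b c y z)
    (h' : IsSol ν μ b c y' z') (p q : ℂ) :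
    IsSol ν μ b c (fun τ => p * y τ + q * y' τ) (fun τ => p * z τ + q * z' τ) :=
  ⟨fun τ => (((h.1 τ).const_mul p).add ((h'.1 τ).const_mul q)).congr_deriv (by ring),
   fun τ => (((h.2 τ).const_mul p).add ((h'.2 τ).const_mul q)).congr_deriv (by ring)⟩

lemma IsSol.wronsk {ν μ b c : ℂ} {y z y' z' : ℝ → ℂ} (h : IsSol ν μ b c y z)
    (h' : IsSol ν μ b c y' z') (τ : ℝ) :
    y τ * z' τ - z τ * y' τ = y 0 * z' 0 - z 0 * y' 0 := by
  have : ∀ τ, HasDerivAt (fun τ => y τ * z' τ - z τ * y' τ) 0 τ := fun τ =>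
    (((h.1 τ).mul (h'.2 τ)).sub ((h.2 τ).mul (h'.1 τ))).congr_deriv (by ring)
  exact is_const_of_deriv_eq_zero (fun τ => (this τ).differentiableAt)
    (fun τ => (this τ).deriv) τ 0

/-- first component of the solution with initial value `(u, v)` -/
noncomputable def s1 (ν μ b c u v : ℂ) (τ : ℝ) : ℂ := ((ZG opH opB opC ν μ b c τ : Op) (u, v)).1

/-- second component of the solution with initial value `(u, v)` -/
noncomputable def s2 (ν μ b c u v : ℂ) (τ : ℝ) : ℂ := ((ZG opH opB opC ν μ b c τ : Op) (u, v)).2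

lemma s1_zero (ν μ b c u v : ℂ) : s1 ν μ b c u v 0 = u := by simp [s1, ZG_zero]

lemma s2_zero (ν μ b c u v : ℂ) : s2 ν μ b c u v 0 = v := by simp [s2, ZG_zero]

lemma s_isSol (ν μ b c u v : ℂ) : IsSol ν μ b c (s1 ν μ b c u v) (s2 ν μ b c u v) := by
  have key : ∀ τ, HasDerivAt (fun τ => (ZG opH opB opC ν μ b c τ : Op) (u, v))
      ((coefG opH opB opC ν μ b c τ : Op) ((ZG opH opB opC ν μ b c τ : Op) (u, v))) τ := by
    intro τ
    have h := ((ContinuousLinearMap.apply ℂ (ℂ × ℂ) (u, v)).restrictScalars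
      ℝ).hasFDerivAt.comp_hasDerivAt τ (ZG_deriv opH opB opC ν μ b c τ)
    exact h
  constructor
  · intro τ
    have h := (key τ).fst
    rw [coef_apply] at h
    exact h
  · intro τ
    have h := (key τ).snd
    rw [coef_apply] at h
    exact h

lemma IsSol.eq_s {ν μ b c : ℂ} {y z : ℝ → ℂ} (h : IsSol ν μ b c y z) :
    y = s1 ν μ b c (y 0) (z 0) ∧ z = s2 ν μ b c (y 0) (z 0) :=
  h.unique (s_isSol _ _ _ _ _ _) (t := 0) (by rw [s1_zero]) (by rw [s2_zero])

section cont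

variable {X : Type*} [TopologicalSpace X] {ν μ b c u v : X → ℂ} {τ : X → ℝ}

lemma Zs_cont (hν : Continuous ν) (hμ : Continuous μ) (hb : Continuous b) (hc : Continuous c)
    (hu : Continuous u) (hv : Continuous v) (hτ : Continuous τ) :
    Continuous fun x => (ZG opH opB opC (ν x) (μ x) (b x) (c x) (τ x) : Op) (u x, v x) := by
  have h2 := ZG_cont opH opB opC hν hμ hb hc hτ
  exact h2.clm_apply (hu.prodMk hv)

@[fun_prop] lemma s1_cont (hν : Continuous ν) (hμ : Continuous μ) (hb : Continuous b)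
    (hc : Continuous c) (hu : Continuous u) (hv : Continuous v) (hτ : Continuous τ) :
    Continuous fun x => s1 (ν x) (μ x) (b x) (c x) (u x) (v x) (τ x) :=
  (Zs_cont hν hμ hb hc hu hv hτ).fst

@[fun_prop] lemma s2_cont (hν : Continuous ν) (hμ : Continuous μ) (hb : Continuous b)
    (hc : Continuous c) (hu : Continuous u) (hv : Continuous v) (hτ : Continuous τ) :
    Continuous fun x => s2 (ν x) (μ x) (b x) (c x) (u x) (v x) (τ x) :=
  (Zs_cont hν hμ hb hc hu hv hτ).snd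

end cont

section diff

variable {ν μ b c : ℂ → ℂ}

lemma Zs_diff (hν : Differentiable ℂ ν) (hμ : Differentiable ℂ μ) (hb : Differentiable ℂ b)
    (hc : Differentiable ℂ c) (u v : ℂ) (τ : ℝ) :
    Differentiable ℂ fun x => (ZG opH opB opC (ν x) (μ x) (b x) (c x) τ : Op) (u, v) := by
  have h2 := ZG_diff opH opB opC hν hμ hb hc τ
  exact h2.clm_apply (differentiable_const _)

@[fun_prop] lemma s1_diff (hν : Differentiable ℂ ν) (hμ : Differentiable ℂ μ)
    (hb : Differentiable ℂ b) (hc : Differentiable ℂ c) (u v : ℂ) (τ : ℝ) :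
    Differentiable ℂ fun x => s1 (ν x) (μ x) (b x) (c x) u v τ :=
  (Zs_diff hν hμ hb hc u v τ).fst

@[fun_prop] lemma s2_diff (hν : Differentiable ℂ ν) (hμ : Differentiable ℂ μ)
    (hb : Differentiable ℂ b) (hc : Differentiable ℂ c) (u v : ℂ) (τ : ℝ) :
    Differentiable ℂ fun x => s2 (ν x) (μ x) (b x) (c x) u v τ :=
  (Zs_diff hν hμ hb hc u v τ).snd

end diff

lemma s_growth (ν μ b : ℂ) (τ : ℝ) : ∃ C k : ℝ, 0 ≤ C ∧ 0 ≤ k ∧ ∀ c u v : ℂ, ‖u‖ ≤ 1 → ‖v‖ ≤ 1 →
    ‖s1 ν μ b c u v τ‖ ≤ C * Real.exp (k * ‖c‖) ∧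
    ‖s2 ν μ b c u v τ‖ ≤ C * Real.exp (k * ‖c‖) := by
  obtain ⟨K, k, hK, hk, h⟩ := ZG_growth opH opB opC ν μ b τ
  refine ⟨K, k, hK, hk, fun c u v hu hv => ?_⟩
  have h2 : ‖(ZG opH opB opC ν μ b c τ : Op) (u, v)‖ ≤ K * Real.exp (k * ‖c‖) := by
    refine (ContinuousLinearMap.le_opNorm _ _).trans ?_
    have h3 : ‖(u, v)‖ ≤ 1 := by rw [Prod.norm_def]; exact max_le hu hv
    exact (mul_le_of_le_one_right (norm_nonneg _) h3).trans (h c)
  exact ⟨(norm_fst_le _).trans h2, (norm_snd_le _).trans h2⟩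

end Pool.Agent.Lib.MP_60675c_an
end

-- part Pool.Agent.Lib.MP_60675c_an.Phase
section

/-! Real parameters: modulus and phase of the solutions. -/

set_option autoImplicit false

open Filter Topology MeasureTheory intervalIntegral Complex ComplexConjugate Set

namespace Pool.Agent.Lib.MP_60675c_an

lemma hasDerivAt_conj {f : ℝ → ℂ} {f' : ℂ} {x : ℝ} (h : HasDerivAt f f' x) :
    HasDerivAt (fun x => conj (f x)) (conj f') x := h.star

lemma hasDerivAt_im {f : ℝ → ℂ} {f' : ℂ} {x : ℝ} (h : HasDerivAt f f' x) :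
    HasDerivAt (fun x => (f x).im) f'.im x :=
  imCLM.hasFDerivAt.comp_hasDerivAt x h

lemma hasDerivAt_re {f : ℝ → ℂ} {f' : ℂ} {x : ℝ} (h : HasDerivAt f f' x) :
    HasDerivAt (fun x => (f x).re) f'.re x :=
  reCLM.hasFDerivAt.comp_hasDerivAt x h

lemma hasDerivAt_rev {f : ℝ → ℂ} {f' : ℂ} {x : ℝ} (h : HasDerivAt f f' (-x)) :
    HasDerivAt (fun x => f (-x)) (-f') x := by
  have := h.scomp x (hasDerivAt_neg x)
  simpa [Function.comp_def] using this

/-- real diagonal entry -/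
noncomputable def ar (ν μ τ : ℝ) : ℝ := ν / 2 + μ * Real.cos τ

lemma aa_real (ν μ τ : ℝ) : aa ν μ τ = (ar ν μ τ : ℂ) := by simp [aa, ar]

lemma aa_neg (ν μ : ℂ) (τ : ℝ) : aa ν μ (-τ) = aa ν μ τ := by simp [aa]

@[fun_prop] lemma aa_cont {X : Type*} [TopologicalSpace X] {ν μ : X → ℂ} {τ : X → ℝ}
    (hν : Continuous ν) (hμ : Continuous μ) (hτ : Continuous τ) :
    Continuous fun x => aa (ν x) (μ x) (τ x) := by
  unfold aa; fun_prop

@[fun_prop] lemma ar_cont {X : Type*} [TopologicalSpace X] {ν μ τ : X → ℝ}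
    (hν : Continuous ν) (hμ : Continuous μ) (hτ : Continuous τ) :
    Continuous fun x => ar (ν x) (μ x) (τ x) := by
  unfold ar; fun_prop

lemma IsSol.swapConj {ν μ b : ℝ} {y z : ℝ → ℂ} (h : IsSol ν μ b b y z) :
    IsSol ν μ b b (fun τ => conj (z τ)) (fun τ => conj (y τ)) := by
  constructor
  · intro τ
    refine (hasDerivAt_conj (h.2 τ)).congr_deriv ?_
    simp [aa_real]; ring
  · intro τ
    refine (hasDerivAt_conj (h.1 τ)).congr_deriv ?_
    simp [aa_real]; ring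

lemma IsSol.revConj {ν μ b c : ℝ} {y z : ℝ → ℂ} (h : IsSol ν μ b c y z) :
    IsSol ν μ b c (fun τ => conj (y (-τ))) (fun τ => conj (z (-τ))) := by
  constructor
  · intro τ
    refine (hasDerivAt_conj (hasDerivAt_rev (h.1 (-τ)))).congr_deriv ?_
    rw [aa_neg]
    simp [aa_real]
  · intro τ
    refine (hasDerivAt_conj (hasDerivAt_rev (h.2 (-τ)))).congr_deriv ?_
    rw [aa_neg]
    simp [aa_real]

/-- the solution with initial phase `α` -/
noncomputable def ww (ν μ η α τ : ℝ) : ℂ :=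
  s1 ν μ (η / 2 : ℝ) (η / 2 : ℝ) (exp (α * I)) (exp (-(α * I))) τ

@[fun_prop] lemma ww_cont {X : Type*} [TopologicalSpace X] {ν μ η α τ : X → ℝ}
    (hν : Continuous ν) (hμ : Continuous μ) (hη : Continuous η) (hα : Continuous α)
    (hτ : Continuous τ) : Continuous fun x => ww (ν x) (μ x) (η x) (α x) (τ x) := by
  unfold ww; fun_prop

lemma ww_zero (ν μ η α : ℝ) : ww ν μ η α 0 = exp (α * I) := s1_zero _ _ _ _ _ _

lemma conj_exp_I (α : ℝ) : conj (exp (α * I)) = exp (-(α * I)) := by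
  rw [← exp_conj]; simp

lemma conj_exp_neg_I (α : ℝ) : conj (exp (-(α * I))) = exp (α * I) := by
  rw [← exp_conj]; simp

lemma s2_eq_conj (ν μ η α : ℝ) :
    s2 ν μ (η / 2 : ℝ) (η / 2 : ℝ) (exp (α * I)) (exp (-(α * I))) =
      fun τ => conj (ww ν μ η α τ) := by
  have h := s_isSol ν μ (η / 2 : ℝ) (η / 2 : ℝ) (exp (α * I)) (exp (-(α * I)))
  exact (h.unique h.swapConj (t := 0) (by simp only [s1_zero, s2_zero, conj_exp_neg_I])
    (by simp only [s1_zero, s2_zero, conj_exp_I])).2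

lemma ww_isSol (ν μ η α : ℝ) : IsSol ν μ (η / 2 : ℝ) (η / 2 : ℝ) (ww ν μ η α)
    (fun τ => conj (ww ν μ η α τ)) := by
  rw [← s2_eq_conj]
  exact s_isSol _ _ _ _ _ _

lemma ww_deriv (ν μ η α τ : ℝ) : HasDerivAt (ww ν μ η α)
    (I * (ar ν μ τ * ww ν μ η α τ - (η / 2 : ℝ) * conj (ww ν μ η α τ))) τ := by
  rw [← aa_real]; exact (ww_isSol ν μ η α).1 τ

lemma ww_ne (ν μ η α τ : ℝ) : ww ν μ η α τ ≠ 0 := by
  intro h
  have := ((ww_isSol ν μ η α).unique (IsSol.zero _ _ _ _) (t := τ) h (by simp [h])).1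
  have h2 := congrFun this 0
  rw [ww_zero] at h2
  exact exp_ne_zero _ h2

lemma ww_rev (ν μ η α τ : ℝ) : ww ν μ η α (-τ) = conj (ww ν μ η (-α) τ) := by
  have h := ((ww_isSol ν μ η α).unique (ww_isSol ν μ η (-α)).revConj (t := 0)
    (by simp only [neg_zero, ww_zero, ofReal_neg, neg_mul, conj_exp_neg_I])
    (by simp only [neg_zero, ww_zero, ofReal_neg, neg_mul, conj_exp_neg_I, conj_exp_I])).1
  have := congrFun h (-τ)
  simpa using this

lemma ww_comb (ν μ η α τ : ℝ) : ww ν μ η α τ =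
    Real.cos α * ww ν μ η 0 τ + Real.sin α * ww ν μ η (Real.pi / 2) τ := by
  have h := ((ww_isSol ν μ η α).unique
    ((ww_isSol ν μ η 0).comb (ww_isSol ν μ η (Real.pi / 2)) (Real.cos α) (Real.sin α)) (t := 0)
    (by simp [ww_zero, exp_mul_I])
    (by simp [ww_zero, exp_mul_I, ← ofReal_cos, ← ofReal_sin])).1
  exact congrFun h τ

/-- logarithm of the solution -/
noncomputable def Lam (ν μ η α τ : ℝ) : ℂ :=
  ∫ σ in (0:ℝ)..τ, I * (ar ν μ σ - (η / 2 : ℝ) * conj (ww ν μ η α σ) / ww ν μ η α σ)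

lemma Lam_cont {X : Type*} [TopologicalSpace X] {ν μ η α τ : X → ℝ}
    (hν : Continuous ν) (hμ : Continuous μ) (hη : Continuous η) (hα : Continuous α)
    (hτ : Continuous τ) : Continuous fun x => Lam (ν x) (μ x) (η x) (α x) (τ x) := by
  unfold Lam
  refine continuous_parametric_intervalIntegral_of_continuous ?_ hτ
  refine continuous_const.mul (Continuous.sub (by fun_prop) (Continuous.div (by fun_prop)
    (by fun_prop) fun q => ww_ne _ _ _ _ _))

lemma Lam_deriv (ν μ η α τ : ℝ) : HasDerivAt (Lam ν μ η α)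
    (I * (ar ν μ τ - (η / 2 : ℝ) * conj (ww ν μ η α τ) / ww ν μ η α τ)) τ := by
  refine (Continuous.integral_hasStrictDerivAt (f := fun σ =>
    I * (ar ν μ σ - (η / 2 : ℝ) * conj (ww ν μ η α σ) / ww ν μ η α σ)) ?_ 0 τ).hasDerivAt
  refine continuous_const.mul (Continuous.sub (by fun_prop) (Continuous.div (by fun_prop)
    (by fun_prop) fun q => ww_ne _ _ _ _ _))

lemma ww_eq_exp (ν μ η α τ : ℝ) : ww ν μ η α τ = exp (α * I + Lam ν μ η α τ) := by
  have h : ∀ τ, HasDerivAt (fun τ => ww ν μ η α τ * exp (-Lam ν μ η α τ)) 0 τ := by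
    intro τ
    refine ((ww_deriv ν μ η α τ).mul (Lam_deriv ν μ η α τ).neg.cexp).congr_deriv ?_
    have := ww_ne ν μ η α τ
    simp only [Pi.neg_apply]
    field_simp
    ring
  have h2 := is_const_of_deriv_eq_zero (fun τ => (h τ).differentiableAt)
    (fun τ => (h τ).deriv) τ 0
  simp only [ww_zero, Lam, integral_same, neg_zero, exp_zero, mul_one] at h2
  rw [exp_add, ← h2, mul_assoc, ← exp_add]
  simp [Lam]

/-- the phase -/
noncomputable def th (ν μ η α τ : ℝ) : ℝ := α + (Lam ν μ η α τ).im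

/-- the modulus -/
noncomputable def rr (ν μ η α τ : ℝ) : ℝ := Real.exp (Lam ν μ η α τ).re

lemma rr_pos (ν μ η α τ : ℝ) : 0 < rr ν μ η α τ := Real.exp_pos _

@[fun_prop] lemma th_cont {X : Type*} [TopologicalSpace X] {ν μ η α τ : X → ℝ}
    (hν : Continuous ν) (hμ : Continuous μ) (hη : Continuous η) (hα : Continuous α)
    (hτ : Continuous τ) : Continuous fun x => th (ν x) (μ x) (η x) (α x) (τ x) :=
  hα.add (continuous_im.comp (Lam_cont hν hμ hη hα hτ))

lemma th_zero (ν μ η α : ℝ) : th ν μ η α 0 = α := by simp [th, Lam]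

lemma ww_polar (ν μ η α τ : ℝ) :
    ww ν μ η α τ = rr ν μ η α τ * exp (th ν μ η α τ * I) := by
  rw [ww_eq_exp, rr, th, ofReal_exp, ← exp_add]
  congr 1
  conv_lhs => rw [← re_add_im (Lam ν μ η α τ)]
  push_cast; ring

/-- the phase equation -/
def IsTh (ν μ η : ℝ) (θ : ℝ → ℝ) : Prop :=
  ∀ τ, HasDerivAt θ (ar ν μ τ - η / 2 * Real.cos (2 * θ τ)) τ

lemma th_isTh (ν μ η α : ℝ) : IsTh ν μ η (th ν μ η α) := by
  intro τ
  refine ((hasDerivAt_im (Lam_deriv ν μ η α τ)).const_add α).congr_deriv ?_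
  have h : conj (ww ν μ η α τ) / ww ν μ η α τ = exp ((-(2 * th ν μ η α τ) : ℝ) * I) := by
    rw [ww_polar, map_mul, conj_ofReal, conj_exp_I,
      mul_div_mul_left _ _ (ofReal_ne_zero.2 (rr_pos _ _ _ _ _).ne'), ← exp_sub]
    congr 1; push_cast; ring
  rw [mul_div_assoc, h, I_mul_im, sub_re, ofReal_re, re_ofReal_mul, exp_ofReal_mul_I_re,
    Real.cos_neg]

lemma IsTh.cont {ν μ η : ℝ} {θ : ℝ → ℝ} (h : IsTh ν μ η θ) : Continuous θ :=
  continuous_iff_continuousAt.2 fun τ => (h τ).continuousAt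

lemma IsTh.unique {ν μ η : ℝ} {θ θ' : ℝ → ℝ} (h : IsTh ν μ η θ) (h' : IsTh ν μ η θ') {t : ℝ}
    (ht : θ t = θ' t) : θ = θ' := by
  refine ODE_solution_unique_univ (v := fun τ x => ar ν μ τ - η / 2 * Real.cos (2 * x))
    (s := fun _ => Set.univ) (K := ⟨|η|, abs_nonneg _⟩) (fun τ => ?_) (fun τ => ⟨h τ, trivial⟩)
    (fun τ => ⟨h' τ, trivial⟩) ht
  refine LipschitzWith.lipschitzOnWith (LipschitzWith.of_dist_le_mul fun x y => ?_)
  rw [Real.dist_eq, Real.dist_eq]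
  have h1 := Real.abs_cos_sub_cos_le (2 * y) (2 * x)
  have : ar ν μ τ - η / 2 * Real.cos (2 * x) - (ar ν μ τ - η / 2 * Real.cos (2 * y))
      = η / 2 * (Real.cos (2 * y) - Real.cos (2 * x)) := by ring
  rw [this, abs_mul]
  have h2 : |2 * y - 2 * x| = 2 * |x - y| := by
    rw [← mul_sub, abs_mul, abs_sub_comm]; simp
  have h3 : |η / 2| = |η| / 2 := by rw [abs_div]; simp
  rw [h2] at h1
  rw [h3]
  change _ ≤ |η| * |x - y|
  nlinarith [abs_nonneg η, abs_nonneg (x - y)]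

lemma IsTh.eq_th {ν μ η : ℝ} {θ : ℝ → ℝ} (h : IsTh ν μ η θ) : θ = th ν μ η (θ 0) :=
  h.unique (th_isTh _ _ _ _) (t := 0) (th_zero _ _ _ _).symm

lemma IsTh.rev {ν μ η : ℝ} {θ : ℝ → ℝ} (h : IsTh ν μ η θ) : IsTh ν μ η fun τ => -θ (-τ) := by
  intro τ
  have := ((h (-τ)).scomp τ (hasDerivAt_neg τ)).neg
  refine HasDerivAt.congr_deriv this ?_
  simp [ar]

lemma IsTh.addPi {ν μ η : ℝ} {θ : ℝ → ℝ} (h : IsTh ν μ η θ) (k : ℤ) :
    IsTh ν μ η fun τ => θ τ + k * Real.pi := by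
  intro τ
  refine ((h τ).add_const _).congr_deriv ?_
  have : 2 * (θ τ + k * Real.pi) = 2 * θ τ + k * (2 * Real.pi) := by ring
  rw [this, Real.cos_add_int_mul_two_pi]

lemma IsTh.shift {ν μ η : ℝ} {θ : ℝ → ℝ} (h : IsTh ν μ η θ) (k : ℤ) :
    IsTh ν μ η fun τ => θ (τ + k * (2 * Real.pi)) := by
  intro τ
  have := (h (τ + k * (2 * Real.pi))).comp_add_const τ (k * (2 * Real.pi))
  refine HasDerivAt.congr_deriv this ?_
  simp [ar, Real.cos_add_int_mul_two_pi]

lemma th_rev (ν μ η α τ : ℝ) : th ν μ η α (-τ) = -th ν μ η (-α) τ := by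
  have h := (th_isTh ν μ η α).unique (th_isTh ν μ η (-α)).rev (t := 0) (by simp [th_zero])
  have := congrFun h (-τ)
  simpa using this

lemma th_addPi (ν μ η α τ : ℝ) (k : ℤ) :
    th ν μ η (α + k * Real.pi) τ = th ν μ η α τ + k * Real.pi :=
  congrFun ((th_isTh ν μ η _).unique ((th_isTh ν μ η α).addPi k) (t := 0) (by simp [th_zero])) τ

lemma conj_mul_polar (r₁ r₂ θ₁ θ₂ : ℝ) :
    (conj (r₁ * exp (θ₁ * I)) * (r₂ * exp (θ₂ * I))).im = r₁ * r₂ * Real.sin (θ₂ - θ₁) := by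
  have : conj (r₁ * exp (θ₁ * I)) * (r₂ * exp (θ₂ * I)) =
      (r₁ * r₂ : ℝ) * exp ((θ₂ - θ₁ : ℝ) * I) := by
    rw [map_mul, conj_ofReal, conj_exp_I]
    have : exp ((θ₂ - θ₁ : ℝ) * I) = exp (-(θ₁ * I)) * exp (θ₂ * I) := by
      rw [← exp_add]; congr 1; push_cast; ring
    rw [this]; push_cast; ring
  rw [this, im_ofReal_mul, exp_ofReal_mul_I_im]

/-- the Lagrange identity -/
lemma lagrange (ν₁ μ₁ η₁ α₁ ν₂ μ₂ η₂ α₂ τ : ℝ) :
    rr ν₁ μ₁ η₁ α₁ τ * rr ν₂ μ₂ η₂ α₂ τ * Real.sin (th ν₂ μ₂ η₂ α₂ τ - th ν₁ μ₁ η₁ α₁ τ) =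
      Real.sin (α₂ - α₁) + ∫ σ in (0:ℝ)..τ,
        ((ar ν₂ μ₂ σ - ar ν₁ μ₁ σ) * (conj (ww ν₁ μ₁ η₁ α₁ σ) * ww ν₂ μ₂ η₂ α₂ σ).re
          - (η₂ - η₁) / 2 * (ww ν₁ μ₁ η₁ α₁ σ * ww ν₂ μ₂ η₂ α₂ σ).re) := by
  have h : ∀ σ, HasDerivAt (fun σ => (conj (ww ν₁ μ₁ η₁ α₁ σ) * ww ν₂ μ₂ η₂ α₂ σ).im)
      ((ar ν₂ μ₂ σ - ar ν₁ μ₁ σ) * (conj (ww ν₁ μ₁ η₁ α₁ σ) * ww ν₂ μ₂ η₂ α₂ σ).re
          - (η₂ - η₁) / 2 * (ww ν₁ μ₁ η₁ α₁ σ * ww ν₂ μ₂ η₂ α₂ σ).re) σ := by
    intro σ
    refine (hasDerivAt_im ((hasDerivAt_conj (ww_deriv ν₁ μ₁ η₁ α₁ σ)).mul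
      (ww_deriv ν₂ μ₂ η₂ α₂ σ))).congr_deriv ?_
    simp only [map_mul, map_sub, conj_I, conj_ofReal, conj_conj, add_im, mul_im, mul_re, neg_re,
      neg_im, I_re, I_im, sub_re, sub_im, ofReal_re, ofReal_im, conj_re, conj_im]
    ring
  rw [integral_eq_sub_of_hasDerivAt (fun σ _ => h σ)
    (Continuous.intervalIntegrable (by fun_prop) _ _)]
  rw [ww_polar ν₁ μ₁ η₁ α₁ τ, ww_polar ν₂ μ₂ η₂ α₂ τ, conj_mul_polar, ww_zero, ww_zero]
  have := conj_mul_polar 1 1 α₁ α₂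
  simp only [ofReal_one, one_mul] at this
  rw [this]; ring

lemma wronsk_th (ν μ η α β τ : ℝ) :
    rr ν μ η α τ * rr ν μ η β τ * Real.sin (th ν μ η β τ - th ν μ η α τ) = Real.sin (β - α) := by
  rw [lagrange]; simp

lemma mem_Ioo_of_ne {f : ℝ → ℝ} (hf : Continuous f) {a b : ℝ} (ha : ∀ t, f t ≠ a)
    (hb : ∀ t, f t ≠ b) {t₀ : ℝ} (h0 : f t₀ ∈ Ioo a b) (t : ℝ) : f t ∈ Ioo a b := by
  constructor
  · by_contra h
    obtain ⟨u, hu⟩ := intermediate_value_univ t t₀ hf ⟨not_lt.1 h, h0.1.le⟩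
    exact ha u hu
  · by_contra h
    obtain ⟨u, hu⟩ := intermediate_value_univ t₀ t hf ⟨h0.2.le, not_lt.1 h⟩
    exact hb u hu

/-- normalised phase increment over half a period -/
noncomputable def Ps (ν μ η α : ℝ) : ℝ := 2 * (th ν μ η α Real.pi - α) / Real.pi

@[fun_prop] lemma Ps_cont {X : Type*} [TopologicalSpace X] {ν μ η α : X → ℝ}
    (hν : Continuous ν) (hμ : Continuous μ) (hη : Continuous η) (hα : Continuous α) :
    Continuous fun x => Ps (ν x) (μ x) (η x) (α x) := by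
  unfold Ps; fun_prop

lemma th_pi (ν μ η α : ℝ) : th ν μ η α Real.pi = α + Real.pi * Ps ν μ η α / 2 := by
  have := Real.pi_pos
  unfold Ps; field_simp; ring

lemma Ps_close (ν μ η : ℝ) : |Ps ν μ η 0 - Ps ν μ η (Real.pi / 2)| < 1 := by
  have hpi := Real.pi_pos
  have hs : ∀ t, Real.sin (th ν μ η (Real.pi / 2) t - th ν μ η 0 t) ≠ 0 := by
    intro t ht
    have := wronsk_th ν μ η 0 (Real.pi / 2) t
    rw [ht] at this
    simp at this
  have h := mem_Ioo_of_ne (f := fun t => th ν μ η (Real.pi / 2) t - th ν μ η 0 t) (by fun_prop)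
    (a := 0) (b := Real.pi) (fun t ht => hs t (by rw [ht]; simp))
    (fun t ht => hs t (by rw [ht]; simp)) (t₀ := 0)
    (by simp only [th_zero]; constructor <;> linarith) Real.pi
  simp only [th_pi] at h
  rw [abs_lt]
  constructor <;> nlinarith [h.1, h.2]

lemma Ps_wronsk (ν μ η : ℝ) : rr ν μ η 0 Real.pi * rr ν μ η (Real.pi / 2) Real.pi *
    Real.cos (Real.pi * (Ps ν μ η 0 - Ps ν μ η (Real.pi / 2)) / 2) = 1 := by
  have := wronsk_th ν μ η 0 (Real.pi / 2) Real.pi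
  rw [th_pi, th_pi, sub_zero, Real.sin_pi_div_two] at this
  rw [← this, ← Real.sin_pi_div_two_sub]
  congr 2; ring

end Pool.Agent.Lib.MP_60675c_an
end

-- part Pool.Agent.Lib.MP_60675c_an.Local
section

/-! Local monotonicity of the phase increments in the parameters. -/

set_option autoImplicit false

open Filter Topology MeasureTheory intervalIntegral Complex ComplexConjugate Set

namespace Pool.Agent.Lib.MP_60675c_an

lemma sign_local {f G ρ : ℝ → ℝ} {x₁ : ℝ} (hf : ContinuousAt f x₁) (hG : ContinuousAt G x₁)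
    (hρ : ∀ x, 0 < ρ x) (h : ∀ x, ρ x * Real.sin (f x - f x₁) = (x - x₁) * G x)
    (h0 : G x₁ ≠ 0) : ∀ᶠ x in 𝓝 x₁, x ≠ x₁ → 0 < (x - x₁) * G x₁ * (f x - f x₁) := by
  have h1 : ∀ᶠ x in 𝓝 x₁, 0 < G x * G x₁ :=
    (hG.mul continuousAt_const).eventually (lt_mem_nhds (mul_self_pos.2 h0))
  have h2 : ∀ᶠ x in 𝓝 x₁, |f x - f x₁| < Real.pi := by
    have : ContinuousAt (fun x => |f x - f x₁|) x₁ := (hf.sub continuousAt_const).abs
    exact this.eventually (gt_mem_nhds (by simpa using Real.pi_pos))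
  filter_upwards [h1, h2] with x hx1 hx2 hx
  have h3 : 0 < ρ x * (Real.sin (f x - f x₁) * ((x - x₁) * G x₁)) := by
    rw [← mul_assoc, h x]
    have : 0 < (x - x₁) * (x - x₁) := mul_self_pos.2 (sub_ne_zero.2 hx)
    nlinarith [mul_pos this hx1]
  have h4 := (mul_pos_iff_of_pos_left (hρ x)).1 h3
  rw [abs_lt] at hx2
  rcases lt_trichotomy (f x - f x₁) 0 with hd | hd | hd
  · have := Real.sin_neg_of_neg_of_neg_pi_lt hd hx2.1
    have h5 : (x - x₁) * G x₁ < 0 := by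
      by_contra h6
      nlinarith [mul_nonneg (neg_nonneg.2 this.le) (not_lt.1 h6)]
    exact mul_pos_of_neg_of_neg h5 hd
  · rw [hd] at h4; simp at h4
  · have := Real.sin_pos_of_pos_of_lt_pi hd hx2.2
    exact mul_pos ((mul_pos_iff_of_pos_left this).1 h4) hd

/-- derivative of the phase with respect to `η`, up to a negative factor -/
noncomputable def SS (ν μ η α : ℝ) : ℝ :=
  ∫ σ in (0:ℝ)..Real.pi, (ww ν μ η α σ * ww ν μ η α σ).re

/-- derivative of the phase with respect to `μ`, up to a positive factor -/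
noncomputable def RR (ν μ η α : ℝ) : ℝ :=
  ∫ σ in (0:ℝ)..Real.pi, Real.cos σ * (conj (ww ν μ η α σ) * ww ν μ η α σ).re

@[fun_prop] lemma SS_cont {X : Type*} [TopologicalSpace X] {ν μ η α : X → ℝ}
    (hν : Continuous ν) (hμ : Continuous μ) (hη : Continuous η) (hα : Continuous α) :
    Continuous fun x => SS (ν x) (μ x) (η x) (α x) := by
  unfold SS
  exact continuous_parametric_intervalIntegral_of_continuous' (by fun_prop) _ _

lemma Ps_sub_sign {u : ℝ} {ν μ η ν' μ' η' α : ℝ}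
    (h : 0 < u * (th ν' μ' η' α Real.pi - th ν μ η α Real.pi)) :
    0 < u * (Ps ν' μ' η' α - Ps ν μ η α) := by
  rw [th_pi, th_pi] at h
  have := Real.pi_pos
  have h2 : 0 < Real.pi / 2 * (u * (Ps ν' μ' η' α - Ps ν μ η α)) := by
    convert h using 1; ring
  exact (mul_pos_iff_of_pos_left (by positivity)).1 h2

lemma Ps_loc_eta {ν μ η α : ℝ} (h : 0 < SS ν μ η α) :
    (∀ᶠ η' in 𝓝[<] η, Ps ν μ η α < Ps ν μ η' α) ∧ (∀ᶠ η' in 𝓝[>] η, Ps ν μ η' α < Ps ν μ η α) := by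
  have key := sign_local (f := fun η' => th ν μ η' α Real.pi)
    (G := fun η' => -(1 / 2) * ∫ σ in (0:ℝ)..Real.pi, (ww ν μ η α σ * ww ν μ η' α σ).re)
    (ρ := fun η' => rr ν μ η α Real.pi * rr ν μ η' α Real.pi) (x₁ := η)
    (Continuous.continuousAt (by fun_prop))
    (Continuous.continuousAt (continuous_const.mul
      (continuous_parametric_intervalIntegral_of_continuous' (by fun_prop) _ _)))
    (fun x => mul_pos (rr_pos _ _ _ _ _) (rr_pos _ _ _ _ _))
    (fun x => by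
      rw [lagrange]
      simp only [sub_self, Real.sin_zero, zero_mul, zero_add, zero_sub]
      rw [intervalIntegral.integral_neg, intervalIntegral.integral_const_mul]
      ring)
    (by change -(1 / 2) * SS ν μ η α ≠ 0; linarith)
  constructor
  · filter_upwards [nhdsWithin_le_nhds key, self_mem_nhdsWithin] with x hx hx'
    have h1 := Ps_sub_sign (hx (ne_of_lt hx'))
    change 0 < (x - η) * (-(1 / 2) * SS ν μ η α) * _ at h1
    have h2 : 0 < (x - η) * (-(1 / 2) * SS ν μ η α) :=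
      mul_pos_of_neg_of_neg (sub_neg.2 hx') (by linarith)
    have := (mul_pos_iff_of_pos_left h2).1 h1
    linarith
  · filter_upwards [nhdsWithin_le_nhds key, self_mem_nhdsWithin] with x hx hx'
    have h1 := Ps_sub_sign (hx (ne_of_gt hx'))
    change 0 < (x - η) * (-(1 / 2) * SS ν μ η α) * _ at h1
    have h2 : (x - η) * (-(1 / 2) * SS ν μ η α) < 0 :=
      mul_neg_of_pos_of_neg (sub_pos.2 hx') (by linarith)
    by_contra h3
    nlinarith [mul_nonneg (neg_nonneg.2 h2.le) (sub_nonneg.2 (not_lt.1 h3))]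

lemma Ps_loc_mu {ν μ η α : ℝ} (h : RR ν μ η α ≠ 0) :
    ∀ᶠ μ' in 𝓝 μ, μ' ≠ μ → 0 < (μ' - μ) * RR ν μ η α * (Ps ν μ' η α - Ps ν μ η α) := by
  have key := sign_local (f := fun μ' => th ν μ' η α Real.pi)
    (G := fun μ' => ∫ σ in (0:ℝ)..Real.pi,
      Real.cos σ * (conj (ww ν μ η α σ) * ww ν μ' η α σ).re)
    (ρ := fun μ' => rr ν μ η α Real.pi * rr ν μ' η α Real.pi) (x₁ := μ)
    (Continuous.continuousAt (by fun_prop))
    (Continuous.continuousAt
      (continuous_parametric_intervalIntegral_of_continuous' (by fun_prop) _ _))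
    (fun x => mul_pos (rr_pos _ _ _ _ _) (rr_pos _ _ _ _ _))
    (fun x => by
      rw [lagrange, ← intervalIntegral.integral_const_mul]
      simp only [sub_self, Real.sin_zero, zero_add]
      congr 1
      funext σ
      simp only [ar]
      ring)
    h
  filter_upwards [key] with x hx hx'
  exact Ps_sub_sign (hx hx')

lemma Ps_loc_nu (ν μ η α : ℝ) : ∀ᶠ ν' in 𝓝[>] ν, Ps ν μ η α < Ps ν' μ η α := by
  have hpos : 0 < ∫ σ in (0:ℝ)..Real.pi, (conj (ww ν μ η α σ) * ww ν μ η α σ).re := by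
    refine intervalIntegral_pos_of_pos (Continuous.intervalIntegrable (by fun_prop) _ _)
      (fun σ => ?_) Real.pi_pos
    rw [← normSq_eq_conj_mul_self, ofReal_re]
    exact normSq_pos.2 (ww_ne _ _ _ _ _)
  have key := sign_local (f := fun ν' => th ν' μ η α Real.pi)
    (G := fun ν' => (1 / 2) * ∫ σ in (0:ℝ)..Real.pi, (conj (ww ν μ η α σ) * ww ν' μ η α σ).re)
    (ρ := fun ν' => rr ν μ η α Real.pi * rr ν' μ η α Real.pi) (x₁ := ν)
    (Continuous.continuousAt (by fun_prop))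
    (Continuous.continuousAt (continuous_const.mul
      (continuous_parametric_intervalIntegral_of_continuous' (by fun_prop) _ _)))
    (fun x => mul_pos (rr_pos _ _ _ _ _) (rr_pos _ _ _ _ _))
    (fun x => by
      rw [lagrange, ← mul_assoc, ← intervalIntegral.integral_const_mul]
      simp only [sub_self, Real.sin_zero, zero_add]
      congr 1
      funext σ
      simp only [ar]
      ring)
    (by positivity)
  filter_upwards [nhdsWithin_le_nhds key, self_mem_nhdsWithin] with x hx hx'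
  have h1 := Ps_sub_sign (hx (ne_of_gt hx'))
  have h2 : 0 < (x - ν) *
      ((1 / 2) * ∫ σ in (0:ℝ)..Real.pi, (conj (ww ν μ η α σ) * ww ν μ η α σ).re) :=
    mul_pos (sub_pos.2 hx') (by positivity)
  have := (mul_pos_iff_of_pos_left h2).1 h1
  linarith

/-- a level cannot be crossed upwards if at each point of the level the function does not
exceed it immediately to the right -/
lemma le_of_level {f : ℝ → ℝ} (hf : Continuous f) {a b e : ℝ} (hab : a ≤ b) (ha : f a ≤ e)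
    (h : ∀ x ∈ Ico a b, f x = e → ∀ᶠ y in 𝓝[>] x, f y ≤ e) : f b ≤ e := by
  have hc : IsClosed ({x | f x ≤ e} ∩ Icc a b) :=
    (isClosed_le hf continuous_const).inter isClosed_Icc
  refine hc.Icc_subset_of_forall_mem_nhdsWithin ha (fun x hx => ?_) ⟨hab, le_rfl⟩
  rcases eq_or_lt_of_le (show f x ≤ e from hx.1) with h1 | h1
  · exact h x hx.2 h1
  · have : ∀ᶠ y in 𝓝 x, f y < e := hf.continuousAt.eventually (gt_mem_nhds h1)
    filter_upwards [nhdsWithin_le_nhds this] with y hy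
    exact hy.le

/-- mirror image of `le_of_level` -/
lemma ge_of_level {f : ℝ → ℝ} (hf : Continuous f) {a b e : ℝ} (hab : a ≤ b) (hb : e ≤ f b)
    (h : ∀ x ∈ Ioc a b, f x = e → ∀ᶠ y in 𝓝[<] x, e ≤ f y) : e ≤ f a := by
  have := le_of_level (f := fun x => -f (-x)) (by fun_prop) (a := -b) (b := -a) (e := -e)
    (neg_le_neg hab) (by simpa using hb) (fun x hx hx' => by
      have h1 := h (-x) ⟨by linarith [hx.2], by linarith [hx.1]⟩ (by linarith)
      have h2 : Tendsto (fun y : ℝ => -y) (𝓝[>] x) (𝓝[<] (-x)) := tendsto_neg_nhdsGT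
      filter_upwards [h2.eventually h1] with y hy
      linarith)
  simpa using this

lemma Ps_strictMono (μ η α : ℝ) : StrictMono fun ν => Ps ν μ η α := by
  intro ν₁ ν₂ h
  obtain ⟨ν', h1, h2⟩ := ((Ps_loc_nu ν₁ μ η α).and (Ioo_mem_nhdsGT h)).exists
  have := le_of_level (f := fun ν => -Ps ν μ η α) (by fun_prop) h2.2.le le_rfl
    (fun x _ hx => by
      filter_upwards [Ps_loc_nu x μ η α] with y hy
      linarith)
  simp only at this ⊢
  linarith

lemma Ps_nonpos {ν μ η : ℝ} (h : ν + 2 * |μ| < η) : Ps ν μ η 0 ≤ 0 := by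
  have key : th ν μ η 0 Real.pi ≤ 0 := by
    refine le_of_level (th_isTh ν μ η 0).cont Real.pi_pos.le (th_zero _ _ _ _).le
      (fun x _ hx => ?_)
    have hd := th_isTh ν μ η 0 x
    have hneg : ar ν μ x - η / 2 * Real.cos (2 * th ν μ η 0 x) < 0 := by
      rw [hx, mul_zero, Real.cos_zero, ar]
      have : μ * Real.cos x ≤ |μ| := by
        refine (le_abs_self _).trans ?_
        rw [abs_mul]
        exact mul_le_of_le_one_right (abs_nonneg _) (Real.abs_cos_le_one x)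
      linarith
    have h1 := (hasDerivAt_iff_tendsto_slope.1 hd).eventually (gt_mem_nhds hneg)
    have h2 : 𝓝[>] x ≤ 𝓝[≠] x := nhdsGT_le_nhdsNE x
    filter_upwards [h2 h1, self_mem_nhdsWithin] with y hy hy'
    rw [slope_def_field, hx, sub_zero] at hy
    have h3 : 0 < y - x := sub_pos.2 hy'
    exact ((div_neg_iff.1 hy).elim (fun h => absurd h.2 (not_lt.2 h3.le)) (fun h => h.1)).le
  rw [th_pi] at key
  have := Real.pi_pos
  nlinarith

lemma th_eta_zero (ν μ α τ : ℝ) : th ν μ 0 α τ = α + ν / 2 * τ + μ * Real.sin τ := by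
  have h : IsTh ν μ 0 fun τ => α + ν / 2 * τ + μ * Real.sin τ := by
    intro τ
    refine ((((hasDerivAt_id' τ).const_mul (ν / 2)).const_add α).add
      ((Real.hasDerivAt_sin τ).const_mul μ)).congr_deriv ?_
    simp [ar]
  have := congrFun h.eq_th τ
  simpa using this.symm

lemma Ps_eta_zero (ν μ α : ℝ) : Ps ν μ 0 α = ν := by
  have := Real.pi_pos
  rw [Ps, th_eta_zero, Real.sin_pi]
  field_simp
  ring

end Pool.Agent.Lib.MP_60675c_an
end

-- part Pool.Agent.Lib.MP_60675c_an.Rot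
section

/-! The phase-lock areas in terms of the two symmetric solutions. -/

set_option autoImplicit false

open Filter Topology MeasureTheory intervalIntegral Complex ComplexConjugate Set

namespace Pool.Agent.Lib.MP_60675c_an

/-- smaller increment -/
noncomputable def mn (ν μ η : ℝ) : ℝ := min (Ps ν μ η 0) (Ps ν μ η (Real.pi / 2))

/-- larger increment -/
noncomputable def mx (ν μ η : ℝ) : ℝ := max (Ps ν μ η 0) (Ps ν μ η (Real.pi / 2))

@[fun_prop] lemma mn_cont {X : Type*} [TopologicalSpace X] {ν μ η : X → ℝ}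
    (hν : Continuous ν) (hμ : Continuous μ) (hη : Continuous η) :
    Continuous fun x => mn (ν x) (μ x) (η x) := by
  unfold mn; fun_prop

@[fun_prop] lemma mx_cont {X : Type*} [TopologicalSpace X] {ν μ η : X → ℝ}
    (hν : Continuous ν) (hμ : Continuous μ) (hη : Continuous η) :
    Continuous fun x => mx (ν x) (μ x) (η x) := by
  unfold mx; fun_prop

lemma mx_lt (ν μ η : ℝ) : mx ν μ η < mn ν μ η + 1 := by
  have := abs_lt.1 (Ps_close ν μ η)
  unfold mx mn
  rcases le_total (Ps ν μ η 0) (Ps ν μ η (Real.pi / 2)) with h | h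
  · rw [max_eq_right h, min_eq_left h]; linarith
  · rw [max_eq_left h, min_eq_right h]; linarith

lemma mn_le (ν μ η : ℝ) : mn ν μ η ≤ mx ν μ η := min_le_max

lemma mn_strictMono (μ η : ℝ) : StrictMono fun ν => mn ν μ η := fun _ _ h =>
  min_lt_min (Ps_strictMono μ η _ h) (Ps_strictMono μ η _ h)

lemma mx_strictMono (μ η : ℝ) : StrictMono fun ν => mx ν μ η := fun _ _ h =>
  max_lt_max (Ps_strictMono μ η _ h) (Ps_strictMono μ η _ h)

lemma ww_pi0 (ν μ η : ℝ) : ww ν μ η 0 Real.pi =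
    rr ν μ η 0 Real.pi * exp ((Real.pi * Ps ν μ η 0 / 2 : ℝ) * I) := by
  rw [ww_polar, th_pi, zero_add]

lemma ww_pi1 (ν μ η : ℝ) : ww ν μ η (Real.pi / 2) Real.pi =
    I * (rr ν μ η (Real.pi / 2) Real.pi *
      exp ((Real.pi * Ps ν μ η (Real.pi / 2) / 2 : ℝ) * I)) := by
  rw [ww_polar, th_pi, ofReal_add, add_mul, exp_add]
  have : exp ((Real.pi / 2 : ℝ) * I) = I := by
    push_cast; exact exp_pi_div_two_mul_I
  rw [this]; ring

lemma kappa_sin (ν μ η α β : ℝ) :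
    rr ν μ η α Real.pi * rr ν μ η (-α) Real.pi *
      Real.sin (th ν μ η α Real.pi + th ν μ η (-α) Real.pi - β) =
    (Real.cos α * rr ν μ η 0 Real.pi) ^ 2 * Real.sin (Real.pi * Ps ν μ η 0 - β) +
    (Real.sin α * rr ν μ η (Real.pi / 2) Real.pi) ^ 2 *
      Real.sin (Real.pi * Ps ν μ η (Real.pi / 2) - β) := by
  have h1 : ww ν μ η α Real.pi * ww ν μ η (-α) Real.pi * exp (-(β * I)) =
      (rr ν μ η α Real.pi * rr ν μ η (-α) Real.pi : ℝ) *
        exp ((th ν μ η α Real.pi + th ν μ η (-α) Real.pi - β : ℝ) * I) := by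
    rw [ww_polar, ww_polar]
    have : exp ((th ν μ η α Real.pi + th ν μ η (-α) Real.pi - β : ℝ) * I) =
        exp (th ν μ η α Real.pi * I) * exp (th ν μ η (-α) Real.pi * I) * exp (-(β * I)) := by
      rw [← exp_add, ← exp_add]; congr 1; push_cast; ring
    rw [this]; push_cast; ring
  have h2 : ww ν μ η α Real.pi * ww ν μ η (-α) Real.pi * exp (-(β * I)) =
      ((Real.cos α * rr ν μ η 0 Real.pi) ^ 2 : ℝ) * exp ((Real.pi * Ps ν μ η 0 - β : ℝ) * I) +
      ((Real.sin α * rr ν μ η (Real.pi / 2) Real.pi) ^ 2 : ℝ) *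
        exp ((Real.pi * Ps ν μ η (Real.pi / 2) - β : ℝ) * I) := by
    rw [ww_comb ν μ η α, ww_comb ν μ η (-α), ww_pi0, ww_pi1, Real.cos_neg, Real.sin_neg]
    have e : ∀ P : ℝ, exp ((Real.pi * P - β : ℝ) * I) =
        exp ((Real.pi * P / 2 : ℝ) * I) ^ 2 * exp (-(β * I)) := by
      intro P
      rw [sq, ← exp_add, ← exp_add]; congr 1; push_cast; ring
    rw [e, e]
    simp only [ofReal_pow, ofReal_mul, ofReal_neg]
    linear_combination (-(Real.sin α : ℂ) ^ 2 * (rr ν μ η (Real.pi / 2) Real.pi : ℂ) ^ 2 *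
      exp ((Real.pi * Ps ν μ η (Real.pi / 2) / 2 : ℝ) * I) ^ 2 * exp (-(β * I))) * I_mul_I
  have h3 := congrArg Complex.im (h1.symm.trans h2)
  simpa only [add_im, im_ofReal_mul, exp_ofReal_mul_I_im] using h3

lemma kappa_bounds (ν μ η α : ℝ) :
    Real.pi * mn ν μ η ≤ th ν μ η α Real.pi + th ν μ η (-α) Real.pi ∧
    th ν μ η α Real.pi + th ν μ η (-α) Real.pi ≤ Real.pi * mx ν μ η := by
  have hpi := Real.pi_pos
  have hc := abs_lt.1 (Ps_close ν μ η)
  set P := Ps ν μ η 0 with hP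
  set Q := Ps ν μ η (Real.pi / 2) with hQ
  have hcos : 0 < Real.cos (Real.pi * (P - Q) / 2) :=
    Real.cos_pos_of_mem_Ioo ⟨by nlinarith [hc.1], by nlinarith [hc.2]⟩
  have hs : ∀ α, 0 < Real.sin (th ν μ η α Real.pi + th ν μ η (-α) Real.pi
      - (Real.pi * (P + Q) / 2 - Real.pi / 2)) := by
    intro α
    have h := kappa_sin ν μ η α (Real.pi * (P + Q) / 2 - Real.pi / 2)
    have e1 : Real.sin (Real.pi * P - (Real.pi * (P + Q) / 2 - Real.pi / 2)) =
        Real.cos (Real.pi * (P - Q) / 2) := by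
      rw [← Real.sin_add_pi_div_two]; congr 1; ring
    have e2 : Real.sin (Real.pi * Q - (Real.pi * (P + Q) / 2 - Real.pi / 2)) =
        Real.cos (Real.pi * (P - Q) / 2) := by
      rw [← Real.sin_pi_div_two_sub]; congr 1; ring
    rw [e1, e2, ← add_mul] at h
    have h0 : 0 < (Real.cos α * rr ν μ η 0 Real.pi) ^ 2 +
        (Real.sin α * rr ν μ η (Real.pi / 2) Real.pi) ^ 2 := by
      have r1 := rr_pos ν μ η 0 Real.pi
      have r2 := rr_pos ν μ η (Real.pi / 2) Real.pi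
      by_cases hα : Real.cos α = 0
      · have : Real.sin α ≠ 0 := by
          intro h'
          have := Real.sin_sq_add_cos_sq α
          rw [hα, h'] at this; simp at this
        positivity
      · positivity
    have h1 := mul_pos h0 hcos
    rw [← h] at h1
    exact (mul_pos_iff_of_pos_left (mul_pos (rr_pos _ _ _ _ _) (rr_pos _ _ _ _ _))).1 h1
  have hI := mem_Ioo_of_ne (f := fun α => th ν μ η α Real.pi + th ν μ η (-α) Real.pi
      - (Real.pi * (P + Q) / 2 - Real.pi / 2)) (by fun_prop) (a := 0) (b := Real.pi)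
    (fun t ht => by have := hs t; rw [ht] at this; simp at this)
    (fun t ht => by have := hs t; rw [ht] at this; simp at this) (t₀ := 0)
    (by simp only [neg_zero, th_pi]; constructor <;> nlinarith [hc.1, hc.2]) α
  have rpos := mul_pos (rr_pos ν μ η α Real.pi) (rr_pos ν μ η (-α) Real.pi)
  have hmn1 : mn ν μ η ≤ P := min_le_left _ _
  have hmn2 : mn ν μ η ≤ Q := min_le_right _ _
  have hmx1 : P ≤ mx ν μ η := le_max_left _ _
  have hmx2 : Q ≤ mx ν μ η := le_max_right _ _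
  have hlt := mx_lt ν μ η
  constructor
  · by_contra hn
    have h := kappa_sin ν μ η α (Real.pi * mn ν μ η)
    have s1 : 0 ≤ Real.sin (Real.pi * P - Real.pi * mn ν μ η) :=
      Real.sin_nonneg_of_nonneg_of_le_pi (by nlinarith) (by nlinarith)
    have s2 : 0 ≤ Real.sin (Real.pi * Q - Real.pi * mn ν μ η) :=
      Real.sin_nonneg_of_nonneg_of_le_pi (by nlinarith) (by nlinarith)
    have s3 : Real.sin (th ν μ η α Real.pi + th ν μ η (-α) Real.pi - Real.pi * mn ν μ η) < 0 :=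
      Real.sin_neg_of_neg_of_neg_pi_lt (by linarith) (by nlinarith [hI.1])
    have := mul_neg_of_pos_of_neg rpos s3
    rw [h] at this
    have : 0 ≤ (Real.cos α * rr ν μ η 0 Real.pi) ^ 2 * Real.sin (Real.pi * P - Real.pi * mn ν μ η)
      + (Real.sin α * rr ν μ η (Real.pi / 2) Real.pi) ^ 2 *
        Real.sin (Real.pi * Q - Real.pi * mn ν μ η) := by positivity
    linarith
  · by_contra hn
    have h := kappa_sin ν μ η α (Real.pi * mx ν μ η)
    have s1 : Real.sin (Real.pi * P - Real.pi * mx ν μ η) ≤ 0 :=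
      Real.sin_nonpos_of_nonpos_of_neg_pi_le (by nlinarith) (by nlinarith)
    have s2 : Real.sin (Real.pi * Q - Real.pi * mx ν μ η) ≤ 0 :=
      Real.sin_nonpos_of_nonpos_of_neg_pi_le (by nlinarith) (by nlinarith)
    have s3 : 0 < Real.sin (th ν μ η α Real.pi + th ν μ η (-α) Real.pi - Real.pi * mx ν μ η) :=
      Real.sin_pos_of_pos_of_lt_pi (by linarith) (by nlinarith [hI.2])
    have := mul_pos rpos s3
    rw [h] at this
    nlinarith [mul_nonneg (sq_nonneg (Real.cos α * rr ν μ η 0 Real.pi)) (neg_nonneg.2 s1),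
      mul_nonneg (sq_nonneg (Real.sin α * rr ν μ η (Real.pi / 2) Real.pi)) (neg_nonneg.2 s2)]

lemma IsTh.incr {ν μ η : ℝ} {θ : ℝ → ℝ} (h : IsTh ν μ η θ) (k : ℤ) :
    Real.pi * mn ν μ η ≤ θ (Real.pi + k * (2 * Real.pi)) - θ (-Real.pi + k * (2 * Real.pi)) ∧
    θ (Real.pi + k * (2 * Real.pi)) - θ (-Real.pi + k * (2 * Real.pi)) ≤ Real.pi * mx ν μ η := by
  have h1 := (h.shift k).eq_th
  have h2 := congrFun h1 Real.pi
  have h3 := congrFun h1 (-Real.pi)
  rw [h2, h3, th_rev, sub_neg_eq_add]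
  exact kappa_bounds _ _ _ _

lemma le_of_incr {θ : ℝ → ℝ} {ρ c : ℝ} (h : Tendsto (fun τ => θ τ / τ) atTop (𝓝 ρ))
    (hc : ∀ k : ℤ, c ≤ θ (Real.pi + k * (2 * Real.pi)) - θ (-Real.pi + k * (2 * Real.pi))) :
    c / (2 * Real.pi) ≤ ρ := by
  have hpi := Real.pi_pos
  have h1 : ∀ n : ℕ, θ Real.pi + n * c ≤ θ (Real.pi + n * (2 * Real.pi)) := by
    intro n
    induction n with
    | zero => simp
    | succ n ih =>
      have := hc (n + 1)
      have e : -Real.pi + ((n + 1 : ℤ) : ℝ) * (2 * Real.pi) = Real.pi + n * (2 * Real.pi) := by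
        push_cast; ring
      rw [e] at this
      push_cast at this ⊢
      linarith
  have ht : Tendsto (fun n : ℕ => Real.pi + n * (2 * Real.pi)) atTop atTop :=
    tendsto_atTop_add_const_left _ _
      (tendsto_natCast_atTop_atTop.atTop_mul_const (by positivity))
  have h2 := h.comp ht
  have h3 : Tendsto (fun n : ℕ => c / (2 * Real.pi) +
      (θ Real.pi - c / 2) / (Real.pi + n * (2 * Real.pi))) atTop (𝓝 (c / (2 * Real.pi) + 0)) :=
    tendsto_const_nhds.add (tendsto_const_nhds.div_atTop ht)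
  rw [add_zero] at h3
  refine le_of_tendsto_of_tendsto' h3 h2 fun n => ?_
  have hp : 0 < Real.pi + n * (2 * Real.pi) := by positivity
  simp only [Function.comp_apply]
  rw [le_div_iff₀ hp]
  refine le_trans (le_of_eq ?_) (h1 n)
  field_simp
  ring

/-- rotation number for the phase equation -/
def RotTh (ν μ η s : ℝ) : Prop :=
  ∀ θ, IsTh ν μ η θ → Tendsto (fun τ => θ τ / τ) atTop (𝓝 (s / 2))

lemma rotTh_iff (ν μ η : ℝ) (s : ℤ) : RotTh ν μ η s ↔ mn ν μ η ≤ s ∧ s ≤ mx ν μ η := by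
  have hpi := Real.pi_pos
  constructor
  · intro h
    have h1 := h _ (th_isTh ν μ η 0)
    constructor
    · have := le_of_incr h1 fun k => ((th_isTh ν μ η 0).incr k).1
      rw [div_le_iff₀ (by positivity)] at this
      nlinarith
    · have h2 : Tendsto (fun τ => -th ν μ η 0 τ / τ) atTop (𝓝 (-(s / 2))) := by
        simpa only [neg_div] using h1.neg
      have := le_of_incr (θ := fun τ => -th ν μ η 0 τ) (c := -(Real.pi * mx ν μ η)) h2
        fun k => by linarith [((th_isTh ν μ η 0).incr k).2]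
      rw [div_le_iff₀ (by positivity)] at this
      nlinarith
  · rintro ⟨h1, h2⟩ θ hθ
    have hk : Continuous fun α => th ν μ η α Real.pi + th ν μ η (-α) Real.pi := by fun_prop
    have e0 : th ν μ η 0 Real.pi + th ν μ η (-0) Real.pi = Real.pi * Ps ν μ η 0 := by
      rw [neg_zero, th_pi]; ring
    have e1 : th ν μ η (Real.pi / 2) Real.pi + th ν μ η (-(Real.pi / 2)) Real.pi =
        Real.pi * Ps ν μ η (Real.pi / 2) := by
      have : -(Real.pi / 2) = Real.pi / 2 + ((-1 : ℤ) : ℝ) * Real.pi := by push_cast; ring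
      rw [this, th_addPi, th_pi]; push_cast; ring
    obtain ⟨α, hα⟩ : ∃ α, th ν μ η α Real.pi + th ν μ η (-α) Real.pi = Real.pi * s := by
      rcases le_total (Ps ν μ η 0) (Ps ν μ η (Real.pi / 2)) with h | h
      · rw [mn, min_eq_left h] at h1
        rw [mx, max_eq_right h] at h2
        exact intermediate_value_univ 0 (Real.pi / 2) hk
          ⟨by simp only [e0]; nlinarith, by simp only [e1]; nlinarith⟩
      · rw [mn, min_eq_right h] at h1
        rw [mx, max_eq_left h] at h2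
        exact intermediate_value_univ (Real.pi / 2) 0 hk
          ⟨by simp only [e1]; nlinarith, by simp only [e0]; nlinarith⟩
    have h0 := th_isTh ν μ η α
    have hper := (h0.shift 1).unique (h0.addPi s) (t := -Real.pi) (by
      have : -Real.pi + ((1 : ℤ) : ℝ) * (2 * Real.pi) = Real.pi := by push_cast; ring
      simp only [this, th_rev]
      linarith)
    have hp : Function.Periodic (fun τ => th ν μ η α τ - s / 2 * τ) (2 * Real.pi) := by
      intro τ
      have := congrFun hper τ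
      simp only [Int.cast_one, one_mul] at this
      simp only [this]
      ring
    obtain ⟨C, hC⟩ := (hp.isBounded_of_continuous (by positivity) (by fun_prop)).exists_norm_le
    have hdiff : ∃ D, ∀ τ, |θ τ - th ν μ η α τ| ≤ D := by
      set k := ⌊(θ 0 - α) / Real.pi⌋ with hk
      by_cases hex : ∃ (j : ℤ) (t : ℝ), θ t - th ν μ η α t = j * Real.pi
      · obtain ⟨j, t, ht⟩ := hex
        have := hθ.unique (h0.addPi j) (t := t) (by linarith)
        exact ⟨|j * Real.pi|, fun τ => by rw [this]; simp⟩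
      · push Not at hex
        have l1 : k * Real.pi ≤ θ 0 - α := by
          rw [← le_div_iff₀ hpi]; exact Int.floor_le _
        have l2 : θ 0 - α < ((k + 1 : ℤ) : ℝ) * Real.pi := by
          rw [← div_lt_iff₀ hpi]; push_cast; exact Int.lt_floor_add_one _
        have l3 : θ 0 - α ≠ k * Real.pi := by simpa [th_zero] using hex k 0
        refine ⟨max |k * Real.pi| |((k + 1 : ℤ) : ℝ) * Real.pi|, fun τ => ?_⟩
        have := mem_Ioo_of_ne (f := fun τ => θ τ - th ν μ η α τ) (hθ.cont.sub h0.cont)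
          (hex k) (hex (k + 1)) (t₀ := 0)
          (by simp only [th_zero]; exact ⟨lt_of_le_of_ne l1 l3.symm, l2⟩) τ
        exact abs_le_max_abs_abs this.1.le this.2.le
    obtain ⟨D, hD⟩ := hdiff
    have hb : ∀ τ, |θ τ - s / 2 * τ| ≤ D + C := by
      intro τ
      have a1 := hD τ
      have a2 : |th ν μ η α τ - s / 2 * τ| ≤ C := hC _ ⟨τ, rfl⟩
      have := abs_add_le (θ τ - th ν μ η α τ) (th ν μ η α τ - s / 2 * τ)
      rw [sub_add_sub_cancel] at this
      linarith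
    have ht := (bdd_le_mul_tendsto_zero' (D + C) (Eventually.of_forall hb)
      (tendsto_inv_atTop_zero (𝕜 := ℝ))).const_add ((s : ℝ) / 2)
    rw [add_zero] at ht
    refine ht.congr' ?_
    filter_upwards [eventually_gt_atTop 0] with τ hτ
    field_simp
    ring

/-- rotation number of the original equation -/
def RotEq (ω B A s : ℝ) : Prop :=
  ∀ φ : ℝ → ℝ, (∀ t : ℝ, HasDerivAt φ (-Real.sin (φ t) + B + A * Real.cos (ω * t)) t) →
    Tendsto (fun t : ℝ => φ t / (ω * t)) atTop (𝓝 s)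

lemma rotEq_iff {ω : ℝ} (hω : 0 < ω) (B A s : ℝ) :
    RotEq ω B A s ↔ RotTh (B / ω) (A / (2 * ω)) (1 / ω) s := by
  have hω' := hω.ne'
  constructor
  · intro h θ hθ
    have h1 := h (fun t => 2 * θ (ω * t) + Real.pi / 2) (fun t => by
      refine ((((hθ (ω * t)).comp t ((hasDerivAt_id' t).const_mul ω)).const_mul 2).add_const
        _).congr_deriv ?_
      rw [Real.sin_add_pi_div_two, ar]
      field_simp
      ring)
    have ht : Tendsto (fun τ : ℝ => τ / ω) atTop atTop := tendsto_id.atTop_div_const hω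
    have h2 := ((h1.comp ht).div_const 2).sub
      ((tendsto_const_nhds (x := Real.pi / 4)).div_atTop tendsto_id)
    rw [sub_zero] at h2
    refine h2.congr' ?_
    filter_upwards [eventually_gt_atTop 0] with τ hτ
    simp only [Function.comp_apply, id, mul_div_cancel₀ τ hω']
    field_simp
    ring
  · intro h φ hφ
    have h1 := h (fun τ => (φ (τ / ω) - Real.pi / 2) / 2) (fun τ => by
      refine ((((hφ (τ / ω)).comp τ ((hasDerivAt_id' τ).div_const ω)).sub_const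
        _).div_const 2).congr_deriv ?_
      have : 2 * ((φ (τ / ω) - Real.pi / 2) / 2) = φ (τ / ω) - Real.pi / 2 := by ring
      rw [this, Real.cos_sub_pi_div_two, ar, mul_div_cancel₀ τ hω']
      field_simp
      ring)
    have ht : Tendsto (fun t : ℝ => ω * t) atTop atTop := tendsto_id.const_mul_atTop hω
    have h2 := ((h1.comp ht).const_mul 2).add
      ((tendsto_const_nhds (x := Real.pi / 2)).div_atTop ht)
    have e : 2 * (s / 2) + 0 = s := by ring
    rw [e] at h2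
    refine h2.congr' ?_
    filter_upwards [eventually_gt_atTop 0] with t ht
    simp only [Function.comp_apply, mul_div_cancel_left₀ t hω']
    field_simp
    ring

end Pool.Agent.Lib.MP_60675c_an
end
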