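import Pool.Agent.Lib.MP_60675c_an.Rot
import Pool.Agent.Lib.MP_60675c_an.Laguerre

-- part Pool.Agent.Lib.MP_60675c_an.Four
section

/-! Fourier analysis of the periodic solutions. -/

set_option autoImplicit false

open Filter Topology MeasureTheory intervalIntegral Complex ComplexConjugate Set

namespace Pool.Agent.Lib.MP_60675c_an

/-- the gauge factor -/
noncomputable def eT (ν μ τ : ℝ) : ℂ := exp ((ν / 2 * τ + μ * Real.sin τ : ℝ) * I)

@[fun_prop] lemma eT_cont (ν μ : ℝ) : Continuous (eT ν μ) := by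
  unfold eT; fun_prop

lemma eT_deriv (ν μ τ : ℝ) : HasDerivAt (eT ν μ) (I * aa ν μ τ * eT ν μ τ) τ := by
  have h := (((((hasDerivAt_id' τ).const_mul (ν / 2)).add
      ((Real.hasDerivAt_sin τ).const_mul μ)).ofReal_comp).mul_const I).cexp
  refine HasDerivAt.congr_deriv h ?_
  simp only [aa, eT, Pi.add_apply]
  push_cast; ring

lemma eT_zero (ν μ : ℝ) : eT ν μ 0 = 1 := by simp [eT]

lemma eT_mul_conj (ν μ τ : ℝ) : eT ν μ τ * conj (eT ν μ τ) = 1 := by
  rw [eT, conj_exp_I, ← exp_add]; simp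

lemma neg_one_pow_eq (l : ℕ) : (-1 : ℂ) ^ l = exp (l * Real.pi * I) := by
  rw [← exp_pi_mul_I, ← exp_nat_mul, mul_assoc]

/-- periodicity in the gauge -/
def Per (l : ℕ) (y : ℝ → ℂ) : Prop := y (-Real.pi) = (-1) ^ l * y Real.pi

lemma eT_neg_pi (l : ℕ) (μ : ℝ) : eT l μ (-Real.pi) * (-1) ^ l = eT l μ Real.pi := by
  rw [neg_one_pow_eq, eT, eT, ← exp_add]
  congr 1
  simp only [Real.sin_neg, Real.sin_pi]
  push_cast; ring

lemma Per.gauge {l : ℕ} {y : ℝ → ℂ} (h : Per l y) (μ : ℝ) :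
    eT l μ (-Real.pi) * y (-Real.pi) = eT l μ Real.pi * y Real.pi := by
  rw [h, ← mul_assoc, eT_neg_pi]

lemma Per.comb {l : ℕ} {y y' : ℝ → ℂ} (h : Per l y) (h' : Per l y') (p q : ℂ) :
    Per l fun τ => p * y τ + q * y' τ := by
  unfold Per at *
  beta_reduce
  rw [h, h']; ring

/-- Fourier coefficients in the gauge -/
noncomputable def cg (l : ℕ) (μ : ℝ) (y : ℝ → ℂ) (n : ℤ) : ℂ := co (fun τ => eT l μ τ * y τ) n

lemma cg_comb (l : ℕ) (μ : ℝ) {y y' : ℝ → ℂ} (h : Continuous y) (h' : Continuous y') (p q : ℂ)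
    (n : ℤ) : cg l μ (fun τ => p * y τ + q * y' τ) n = p * cg l μ y n + q * cg l μ y' n := by
  unfold cg
  rw [← co_comb (by fun_prop) (by fun_prop)]
  congr 1; funext τ; ring

lemma zero_of_cg {l : ℕ} {μ : ℝ} {y : ℝ → ℂ} (h : Continuous y) (h0 : ∀ n, cg l μ y n = 0) :
    y 0 = 0 := by
  have := zero_of_co (f := fun τ => eT l μ τ * y τ) (by fun_prop) h0
  simpa [eT_zero] using this

section recs

variable {l : ℕ} {μ : ℝ} {b c : ℂ} {y z : ℝ → ℂ}

lemma rec_u (h : IsSol (l : ℝ) μ b c y z) (hz : Per l z) (n : ℤ) :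
    -(n * cg l μ z n) = c * cg l μ y n := by
  have hy := h.cont1
  have h1 := co_deriv (f := fun τ => eT l μ τ * z τ)
    (f' := fun τ => (I * c) * (eT l μ τ * y τ) + 0 * (eT l μ τ * y τ))
    (fun τ => ((eT_deriv l μ τ).mul (h.2 τ)).congr_deriv (by ring)) (by fun_prop)
    (hz.gauge μ) n
  rw [co_comb (by fun_prop) (by fun_prop)] at h1
  unfold cg
  linear_combination I * h1 - (c * co (fun τ => eT l μ τ * y τ) n
    + n * co (fun τ => eT l μ τ * z τ) n) * I_mul_I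

lemma rec_g (h : IsSol (l : ℝ) μ b c y z) (hy : Per l y) (n : ℤ) :
    (n + l) * cg l μ y n + μ * (cg l μ y (n + 1) + cg l μ y (n - 1)) = b * cg l μ z n := by
  have hyc := h.cont1
  have hzc := h.cont2
  have h1 := co_deriv (f := fun τ => eT l μ τ * y τ)
    (f' := fun τ => I * (l * (eT l μ τ * y τ) + μ * (2 * (Real.cos τ : ℝ) * (eT l μ τ * y τ)))
      + (-(I * b)) * (eT l μ τ * z τ))
    (fun τ => ((eT_deriv l μ τ).mul (h.1 τ)).congr_deriv (by
      simp only [aa]; push_cast; ring)) (by fun_prop)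
    (hy.gauge μ) n
  rw [co_comb (by fun_prop) (by fun_prop), co_comb (by fun_prop) (by fun_prop),
    co_cos (by fun_prop)] at h1
  unfold cg
  linear_combination (-I) * h1 + ((n + l) * co (fun τ => eT l μ τ * y τ) n +
    μ * (co (fun τ => eT l μ τ * y τ) (n + 1) + co (fun τ => eT l μ τ * y τ) (n - 1))
    - b * co (fun τ => eT l μ τ * z τ) n) * I_mul_I

lemma cg_zero (h : IsSol (l : ℝ) μ b c y z) (hz : Per l z) (hc : c ≠ 0) : cg l μ y 0 = 0 := by
  have := rec_u h hz 0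
  simpa [hc] using this

lemma rec_pos (h : IsSol (l : ℝ) μ b c y z) (hy : Per l y) (hz : Per l z) (k : ℕ) :
    (((k + 1 + l : ℝ) : ℂ) + b * c / (k + 1)) * cg l μ y (k + 1 : ℕ) +
      μ * (cg l μ y (k + 2 : ℕ) + cg l μ y k) = 0 := by
  have h1 := rec_u h hz (k + 1)
  have h2 := rec_g h hy (k + 1)
  have hk : (k : ℂ) + 1 ≠ 0 := by exact_mod_cast Nat.succ_ne_zero k
  rw [add_sub_cancel_right, show (k : ℤ) + 1 + 1 = (k + 2 : ℕ) by push_cast; ring] at h2
  push_cast at h1 h2 ⊢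
  field_simp
  linear_combination (k + 1) * h2 - b * h1

lemma rec_neg (h : IsSol (l : ℝ) μ b c y z) (hy : Per l y) (hz : Per l z) (k : ℕ) :
    (((l - (k + 1) : ℝ) : ℂ) + -(b * c) / (k + 1)) * cg l μ y (-(k + 1 : ℕ)) +
      μ * (cg l μ y (-(k + 2 : ℕ)) + cg l μ y (-k)) = 0 := by
  have h1 := rec_u h hz (-(k + 1))
  have h2 := rec_g h hy (-(k + 1))
  have hk : (k : ℂ) + 1 ≠ 0 := by exact_mod_cast Nat.succ_ne_zero k
  rw [show -((k : ℤ) + 1) + 1 = -k by ring,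
    show -((k : ℤ) + 1) - 1 = -(k + 2 : ℕ) by push_cast; ring] at h2
  push_cast at h1 h2 ⊢
  field_simp
  linear_combination (k + 1) * h2 + b * h1

lemma zero_of_cg_both (h : IsSol (l : ℝ) μ b c y z) (hy : Per l y) (hb : b ≠ 0)
    (h0 : ∀ n, cg l μ y n = 0) : y 0 = 0 ∧ z 0 = 0 := by
  refine ⟨zero_of_cg h.cont1 h0, zero_of_cg (l := l) (μ := μ) h.cont2 fun n => ?_⟩
  have := rec_g h hy n
  simpa [h0, hb] using this

/-- periodic solutions only exist for real spectral parameter -/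
lemma per_real (hμ : μ ≠ 0) (h : IsSol (l : ℝ) μ 1 c y z) (hy : Per l y) (hz : Per l z)
    (hne : y 0 ≠ 0 ∨ z 0 ≠ 0) : c.im = 0 := by
  by_contra hc
  have hc0 : c ≠ 0 := by rintro rfl; simp at hc
  have hyc := h.cont1
  have g0 := cg_zero h hz hc0
  have p1 := eq_zero_of_im hμ hc (b := fun k => k + 1 + l) (c := fun k : ℕ => cg l μ y k)
    (by simpa using g0) (fun k => by simpa using rec_pos h hy hz k)
    (co_tendsto_pos (by fun_prop))
  have p2 := eq_zero_of_im hμ (x := -c) (by simpa using hc) (b := fun k => l - (k + 1))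
    (c := fun k : ℕ => cg l μ y (-k))
    (by simpa using g0) (fun k => by simpa using rec_neg h hy hz k)
    (co_tendsto_neg (by fun_prop))
  have := zero_of_cg_both h hy one_ne_zero fun n => by
    obtain ⟨k, rfl | rfl⟩ := n.eq_nat_or_neg
    · exact p1 k
    · exact p2 k
  tauto

end recs

/-- first form -/
noncomputable def Sf (y z : ℝ → ℂ) : ℂ := ∫ τ in (-Real.pi)..Real.pi, y τ * conj (z τ)

/-- second form -/
noncomputable def Rf (y y' : ℝ → ℂ) : ℂ :=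
  ∫ τ in (-Real.pi)..Real.pi, 2 * (Real.cos τ : ℝ) * y τ * conj (y' τ)

section forms

variable {l : ℕ} {μ β : ℝ} {y z y' z' : ℝ → ℂ}

lemma Sf_sum (h : IsSol (l : ℝ) μ β β y z) (hz : Per l z) (h' : IsSol (l : ℝ) μ β β y' z')
    (hz' : Per l z') (hβ : β ≠ 0) :
    HasSum (fun n : ℤ => ((-(β / n) : ℝ) : ℂ) * (cg l μ y n * conj (cg l μ y' n)))
      (2 * Real.pi * Sf y z') := by
  have c1 := h.cont1
  have c2 := h'.cont2
  have key := parseval (f := fun τ => eT l μ τ * y τ) (g := fun τ => eT l μ τ * z' τ)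
    (by fun_prop) (by fun_prop)
  have e : ∀ τ, eT l μ τ * y τ * conj (eT l μ τ * z' τ) = y τ * conj (z' τ) := by
    intro τ
    rw [map_mul]
    linear_combination (y τ * conj (z' τ)) * eT_mul_conj l μ τ
  simp only [e] at key
  refine key.congr_fun fun n => ?_
  change _ = cg l μ y n * conj (cg l μ z' n)
  by_cases hn : n = 0
  · rw [hn, cg_zero h hz (ofReal_ne_zero.2 hβ)]; simp
  · have h1 := congrArg conj (rec_u h' hz' n)
    simp only [map_neg, map_mul, conj_ofReal, map_intCast] at h1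
    have hn' : (n : ℂ) ≠ 0 := Int.cast_ne_zero.2 hn
    push_cast
    field_simp
    linear_combination (cg l μ y n) * h1

lemma Rf_sum (h : Continuous y) (h' : Continuous y') :
    HasSum (fun n : ℤ => (cg l μ y (n + 1) + cg l μ y (n - 1)) * conj (cg l μ y' n))
      (2 * Real.pi * Rf y y') := by
  have key := parseval (f := fun τ => 2 * (Real.cos τ : ℝ) * (eT l μ τ * y τ))
    (g := fun τ => eT l μ τ * y' τ) (by fun_prop) (by fun_prop)
  have e : ∀ τ, 2 * (Real.cos τ : ℝ) * (eT l μ τ * y τ) * conj (eT l μ τ * y' τ) =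
      2 * (Real.cos τ : ℝ) * y τ * conj (y' τ) := by
    intro τ
    rw [map_mul]
    linear_combination (2 * (Real.cos τ : ℝ) * y τ * conj (y' τ)) * eT_mul_conj l μ τ
  simp only [e, co_cos (f := fun τ => eT l μ τ * y τ) (by fun_prop)] at key
  exact key

lemma Sf_herm (h : IsSol (l : ℝ) μ β β y z) (hz : Per l z) (h' : IsSol (l : ℝ) μ β β y' z')
    (hz' : Per l z') (hβ : β ≠ 0) : Sf y' z = conj (Sf y z') := by
  have h1 := Sf_sum h' hz' h hz hβ
  have h2 := (Sf_sum h hz h' hz' hβ).star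
  have h3 : 2 * Real.pi * Sf y' z = star (2 * Real.pi * Sf y z') := by
    refine h1.unique (h2.congr_fun fun n => ?_)
    simp only [star_def, map_mul, conj_ofReal, conj_conj]
    ring
  have hpi : (2 * Real.pi : ℂ) ≠ 0 := mul_ne_zero two_ne_zero (ofReal_ne_zero.2 Real.pi_pos.ne')
  apply mul_left_cancel₀ hpi
  rw [h3]
  simp only [star_def, map_mul, conj_ofReal, map_ofNat]

lemma re_two_pi_mul (w : ℂ) : (2 * Real.pi * w).re = 2 * Real.pi * w.re := by
  have : (2 * Real.pi : ℂ) = ((2 * Real.pi : ℝ) : ℂ) := by push_cast; ring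
  rw [this, re_ofReal_mul]

lemma cg_pos_zero (hμ : μ ≠ 0) (h : IsSol (l : ℝ) μ β β y z) (hy : Per l y) (hz : Per l z)
    (hβ : β ≠ 0) (h1 : cg l μ y 1 = 0) (n : ℤ) (hn : 0 ≤ n) : cg l μ y n = 0 := by
  obtain ⟨k, rfl⟩ := Int.eq_ofNat_of_zero_le hn
  exact eq_zero_of_rec (ofReal_ne_zero.2 hμ) (c := fun k : ℕ => cg l μ y k)
    (by simpa using cg_zero h hz (ofReal_ne_zero.2 hβ)) (by simpa using h1) (rec_pos h hy hz) k

lemma Sf_pos (h : IsSol (l : ℝ) μ β β y z) (hy : Per l y) (hz : Per l z) (hβ : 0 < β)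
    (h0 : ∀ n : ℤ, 0 ≤ n → cg l μ y n = 0) (hne : y 0 ≠ 0 ∨ z 0 ≠ 0) : 0 < (Sf y z).re := by
  have hs := Complex.hasSum_re (Sf_sum h hz h hz hβ.ne')
  simp only [mul_conj, ← ofReal_mul, ofReal_re] at hs
  rw [re_two_pi_mul] at hs
  obtain ⟨n, hn⟩ : ∃ n, cg l μ y n ≠ 0 := by
    by_contra hc
    push Not at hc
    have := zero_of_cg_both h hy (ofReal_ne_zero.2 hβ.ne') hc
    tauto
  have hn0 : n < 0 := by
    by_contra hc
    exact hn (h0 n (not_lt.1 hc))
  have hpos := hasSum_lt (i := n) (f := fun _ => (0 : ℝ)) (fun m => ?_) ?_ hasSum_zero hs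
  · exact (mul_pos_iff_of_pos_left (by linarith [Real.pi_pos])).1 hpos
  · by_cases hm : 0 ≤ m
    · simp [h0 m hm]
    · have : (m : ℝ) < 0 := by exact_mod_cast not_le.1 hm
      exact mul_nonneg (neg_nonneg.2 (div_neg_of_pos_of_neg hβ this).le) (normSq_nonneg _)
  · have : (n : ℝ) < 0 := by exact_mod_cast hn0
    exact mul_pos (neg_pos.2 (div_neg_of_pos_of_neg hβ this)) (normSq_pos.2 hn)

lemma Sf_neg (h : IsSol (l : ℝ) μ β β y z) (hz : Per l z) (hβ : 0 < β)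
    (h0 : ∀ n : ℤ, n ≤ 0 → cg l μ y n = 0) (hne : cg l μ y 1 ≠ 0) : (Sf y z).re < 0 := by
  have hs := Complex.hasSum_re (Sf_sum h hz h hz hβ.ne')
  simp only [mul_conj, ← ofReal_mul, ofReal_re] at hs
  rw [re_two_pi_mul] at hs
  have hpos := hasSum_lt (i := 1) (g := fun _ => (0 : ℝ)) (fun m => ?_) ?_ hs hasSum_zero
  · by_contra hc
    nlinarith [Real.pi_pos, not_lt.1 hc]
  · by_cases hm : m ≤ 0
    · simp [h0 m hm]
    · have : (0 : ℝ) < m := by exact_mod_cast not_le.1 hm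
      exact mul_nonpos_of_nonpos_of_nonneg (neg_nonpos.2 (div_pos hβ this).le) (normSq_nonneg _)
  · exact mul_neg_of_neg_of_pos (by simpa using hβ) (normSq_pos.2 hne)

lemma Rf_ne (h : IsSol (l : ℝ) μ β β y z) (hy : Per l y) (hz : Per l z)
    (h0 : ∀ n : ℤ, n ≤ 0 → cg l μ y n = 0) (hne : cg l μ y 1 ≠ 0) : Rf y y ≠ 0 := by
  intro hR
  have hs := (Rf_sum (l := l) (μ := μ) h.cont1 h.cont1).mul_left (μ : ℂ)
  rw [hR, mul_zero, mul_zero] at hs
  have e : ∀ n : ℤ, (μ : ℂ) * ((cg l μ y (n + 1) + cg l μ y (n - 1)) * conj (cg l μ y n)) =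
      ((-((n + l + β * β / n) * normSq (cg l μ y n)) : ℝ) : ℂ) := by
    intro n
    by_cases hn : n ≤ 0
    · simp [h0 n hn]
    · have hn' : (n : ℂ) ≠ 0 := Int.cast_ne_zero.2 (by omega)
      have h1 := rec_u h hz n
      have h2 := rec_g h hy n
      push_cast
      rw [← mul_conj]
      field_simp
      linear_combination (n * conj (cg l μ y n)) * h2 - (β * conj (cg l μ y n)) * h1
  simp only [e] at hs
  have hs2 := Complex.hasSum_re hs
  simp only [ofReal_re, zero_re] at hs2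
  have hpos := hasSum_lt (i := 1) (g := fun _ => (0 : ℝ)) (fun m => ?_) ?_ hs2 hasSum_zero
  · exact lt_irrefl _ hpos
  · by_cases hm : m ≤ 0
    · simp [h0 m hm]
    · have : (0 : ℝ) < m := by exact_mod_cast not_le.1 hm
      have : 0 ≤ β * β := mul_self_nonneg β
      exact neg_nonpos.2 (mul_nonneg (by positivity) (normSq_nonneg _))
  · have : 0 ≤ β * β := mul_self_nonneg β
    exact neg_neg_of_pos (mul_pos (by push_cast; positivity) (normSq_pos.2 hne))

lemma Sf_cross (h : IsSol (l : ℝ) μ β β y z) (hz : Per l z) (h' : IsSol (l : ℝ) μ β β y' z')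
    (hz' : Per l z') (hβ : β ≠ 0) (h0 : ∀ n : ℤ, n ≤ 0 → cg l μ y n = 0)
    (h1 : ∀ n : ℤ, 0 ≤ n → cg l μ y' n = 0) : Sf y z' = 0 := by
  have hs := Sf_sum h hz h' hz' hβ
  have : 2 * Real.pi * Sf y z' = 0 := by
    refine hs.unique (hasSum_zero.congr_fun fun n => ?_)
    rcases le_total n 0 with hn | hn
    · simp [h0 n hn]
    · simp [h1 n hn]
  simpa using this

lemma Rf_cross (h : Continuous y) (h' : Continuous y') (h0 : ∀ n : ℤ, n ≤ 0 → cg l μ y n = 0)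
    (h1 : ∀ n : ℤ, 0 ≤ n → cg l μ y' n = 0) : Rf y y' = 0 := by
  have hs := Rf_sum (l := l) (μ := μ) h h'
  have : 2 * Real.pi * Rf y y' = 0 := by
    refine hs.unique (hasSum_zero.congr_fun fun n => ?_)
    rcases lt_or_ge n 0 with hn | hn
    · simp [h0 (n + 1) (by omega), h0 (n - 1) (by omega)]
    · simp [h1 n hn]
  simpa using this

lemma dec_of_cg (hμ : μ ≠ 0) (h : IsSol (l : ℝ) μ β β y z) (hy : Per l y) (hz : Per l z)
    (hβ : β ≠ 0) (h1 : cg l μ y 1 ≠ 0) : Dec l μ (β * β) := by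
  have hyc := h.cont1
  have key := eq_mul_HH (l := l) (x := β * β) hμ (c := fun k : ℕ => cg l μ y k)
    (by simpa using cg_zero h hz (ofReal_ne_zero.2 hβ))
    (fun k => by
      have := rec_pos h hy hz k
      simp only [dg]
      push_cast at this ⊢
      exact this)
  obtain ⟨C, hC⟩ := (co_tendsto_pos (f := fun τ => eT l μ τ * y τ) (by fun_prop)).norm.bddAbove_range
  refine ⟨C / ‖cg l μ y 1‖, fun k => ?_⟩
  rw [le_div_iff₀ (norm_pos_iff.2 h1)]
  have h2 : ‖cg l μ y k‖ ≤ C := hC ⟨k, rfl⟩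
  rw [key k, norm_mul, norm_real, Real.norm_eq_abs, Nat.cast_one, mul_comm] at h2
  exact h2

end forms

end Pool.Agent.Lib.MP_60675c_an
end

-- part Pool.Agent.Lib.MP_60675c_an.Synth
section

/-! Synthesis of a periodic solution from a decaying solution of the recurrence. -/

set_option autoImplicit false

open Filter Topology MeasureTheory intervalIntegral Complex ComplexConjugate Set

namespace Pool.Agent.Lib.MP_60675c_an

/-- power series without constant term -/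
noncomputable def PS (c : ℕ → ℂ) (ζ : ℂ) : ℂ := ∑' k, c k * ζ ^ (k + 1)

/-- geometric decay -/
def Geo (c : ℕ → ℂ) : Prop := ∃ C, 0 ≤ C ∧ ∀ k, ‖c k‖ ≤ C * (1 / 4) ^ k

lemma PS_zero (c : ℕ → ℂ) : PS c 0 = 0 := by simp [PS]

lemma Geo.diff {c : ℕ → ℂ} (h : Geo c) : DifferentiableOn ℂ (PS c) (Metric.ball 0 2) := by
  obtain ⟨C, hC, h⟩ := h
  refine differentiableOn_tsum_of_summable_norm (u := fun k => 2 * C * (1 / 2) ^ k)
    (summable_geometric_two.mul_left _) (fun k => by fun_prop) Metric.isOpen_ball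
    (fun k w hw => ?_)
  have hw' : ‖w‖ ≤ 2 := (mem_ball_zero_iff.1 hw).le
  rw [norm_mul, norm_pow]
  calc ‖c k‖ * ‖w‖ ^ (k + 1) ≤ C * (1 / 4) ^ k * 2 ^ (k + 1) := by gcongr; exact h k
    _ = 2 * C * ((1 / 4) * 2) ^ k := by rw [mul_pow, pow_succ]; ring
    _ = 2 * C * (1 / 2) ^ k := by norm_num

/-- point on the circle -/
noncomputable def ze (τ : ℝ) : ℂ := exp (-(τ * I))

lemma ze_norm (τ : ℝ) : ‖ze τ‖ = 1 := by
  rw [ze, ← neg_mul, ← ofReal_neg, norm_exp_ofReal_mul_I]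

lemma ze_ne (τ : ℝ) : ze τ ≠ 0 := exp_ne_zero _

lemma ze_deriv (τ : ℝ) : HasDerivAt ze (-I * ze τ) τ := by
  have := (((hasDerivAt_id' τ).ofReal_comp).mul_const I).neg.cexp
  refine HasDerivAt.congr_deriv this ?_
  simp [ze]; ring

lemma ze_cos (τ : ℝ) : (2 * (Real.cos τ : ℝ) : ℂ) = ze τ + (ze τ)⁻¹ := by
  rw [ofReal_cos, two_cos, ze, ← exp_neg, neg_neg, neg_mul, add_comm]

lemma Geo.bound {c : ℕ → ℂ} (h : Geo c) : ∃ u : ℕ → ℝ, Summable u ∧
    ∀ k : ℕ, ((k : ℝ) + 1) * ‖c k‖ ≤ u k := by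
  obtain ⟨C, hC, h⟩ := h
  refine ⟨fun k => C * ((k : ℝ) ^ 1 * (1 / 4) ^ k + (1 / 4) ^ k), ?_, fun k => ?_⟩
  · refine Summable.mul_left _ (Summable.add ?_ ?_)
    · exact summable_pow_mul_geometric_of_norm_lt_one 1 (by norm_num)
    · exact summable_geometric_of_lt_one (by norm_num) (by norm_num)
  · have := mul_le_mul_of_nonneg_left (h k) (show (0 : ℝ) ≤ k + 1 by positivity)
    refine this.trans (le_of_eq ?_)
    ring

lemma Geo.summ {c : ℕ → ℂ} (h : Geo c) (τ : ℝ) : Summable fun k => c k * ze τ ^ (k + 1) := by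
  obtain ⟨u, hu, h⟩ := h.bound
  refine Summable.of_norm_bounded hu fun k => le_trans ?_ (h k)
  rw [norm_mul, norm_pow, ze_norm, one_pow, mul_one]
  exact le_mul_of_one_le_left (norm_nonneg _) (by linarith [Nat.cast_nonneg (α := ℝ) k])

lemma Geo.summ' {c : ℕ → ℂ} (h : Geo c) (τ : ℝ) :
    Summable fun k : ℕ => ((k : ℂ) + 1) * c k * ze τ ^ (k + 1) := by
  obtain ⟨u, hu, h⟩ := h.bound
  refine Summable.of_norm_bounded hu fun k => le_trans (le_of_eq ?_) (h k)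
  rw [norm_mul, norm_mul, norm_pow, ze_norm, one_pow, mul_one]
  congr 1
  exact_mod_cast Complex.norm_natCast (k + 1)

lemma Geo.deriv {c : ℕ → ℂ} (h : Geo c) (τ : ℝ) :
    HasDerivAt (fun τ => PS c (ze τ)) (-I * PS (fun k => (k + 1) * c k) (ze τ)) τ := by
  obtain ⟨u, hu, hb⟩ := h.bound
  have key := hasDerivAt_tsum (g := fun k τ => c k * ze τ ^ (k + 1))
    (g' := fun k τ => -I * (((k : ℂ) + 1) * c k * ze τ ^ (k + 1))) hu
    (fun k τ => by
      refine (((ze_deriv τ).pow (k + 1)).const_mul (c k)).congr_deriv ?_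
      simp only [add_tsub_cancel_right, pow_succ]
      push_cast; ring)
    (fun k τ => by
      refine le_trans (le_of_eq ?_) (hb k)
      rw [norm_mul, norm_neg, norm_I, one_mul, norm_mul, norm_mul, norm_pow, ze_norm, one_pow,
        mul_one]
      congr 1
      exact_mod_cast Complex.norm_natCast (k + 1))
    (h.summ 0) τ
  rw [tsum_mul_left] at key
  exact key

lemma synth {l : ℕ} {μ β : ℝ} (hμ : 0 < μ) (hβ : 0 < β) (hD : Dec l μ (β * β)) :
    ∃ y z : ℝ → ℂ, IsSol (l : ℝ) μ β β y z ∧ Per l y ∧ Per l z ∧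
      (∀ n : ℤ, n ≤ 0 → cg l μ y n = 0) ∧ cg l μ y 1 ≠ 0 ∧
      ∫ τ in (-Real.pi)..Real.pi, y τ * z τ * (Real.exp (2 * μ * Real.cos τ) : ℝ) = 0 := by
  obtain ⟨C, hC, hH⟩ := hD.decay (Nat.cast_nonneg l) (mul_self_nonneg β) hμ
  have hβ' : (β : ℂ) ≠ 0 := ofReal_ne_zero.2 hβ.ne'
  have hμ' : (μ : ℂ) ≠ 0 := ofReal_ne_zero.2 hμ.ne'
  set h : ℕ → ℂ := fun k => (HH l μ (β * β) k : ℝ) with hh
  have hn : ∀ k, ‖h k‖ ≤ C * (1 / 4) ^ k := fun k => by
    simpa only [hh, norm_real, Real.norm_eq_abs] using hH k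
  have hn' : ∀ j k, ‖h (k + j)‖ ≤ C * (1 / 4) ^ k := fun j k =>
    (hn _).trans (mul_le_mul_of_nonneg_left
      (pow_le_pow_of_le_one (by norm_num) (by norm_num) (Nat.le_add_right k j)) hC)
  have g0 : Geo h := ⟨C, hC, hn⟩
  have g1 : Geo fun k => h (k + 1) := ⟨C, hC, hn' 1⟩
  have g2 : Geo fun k => h (k + 2) := ⟨C, hC, hn' 2⟩
  have gv : Geo fun k => -(β / (k + 1)) * h (k + 1) := by
    refine ⟨β * C, by positivity, fun k => ?_⟩
    rw [norm_mul, norm_neg, norm_div, norm_real, Real.norm_eq_abs, abs_of_pos hβ, mul_assoc]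
    have e : ‖(k : ℂ) + 1‖ = k + 1 := by exact_mod_cast Complex.norm_natCast (k + 1)
    rw [e]
    exact mul_le_mul (div_le_self hβ.le (by linarith [Nat.cast_nonneg (α := ℝ) k])) (hn' 1 k)
      (norm_nonneg _) hβ.le
  set G : ℂ → ℂ := PS fun k => h (k + 1) with hG
  set V : ℂ → ℂ := fun ζ => μ / β + PS (fun k => -(β / (k + 1)) * h (k + 1)) ζ with hV
  have Gd : DifferentiableOn ℂ G (Metric.ball 0 2) := g1.diff
  have Vd : DifferentiableOn ℂ V (Metric.ball 0 2) := gv.diff.const_add _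
  have h0 : h 0 = 0 := by simp [hh, HH_zero]
  have h1 : h 1 = 1 := by simp [hh, HH_one]
  have du : ∀ τ, HasDerivAt (fun τ => V (ze τ)) (I * β * G (ze τ)) τ := by
    intro τ
    refine ((gv.deriv τ).const_add _).congr_deriv ?_
    rw [hG, PS, PS, ← tsum_mul_left, ← tsum_mul_left]
    congr 1; funext k
    have hk : (k : ℂ) + 1 ≠ 0 := by exact_mod_cast Nat.succ_ne_zero k
    field_simp
  have dg' : ∀ τ, HasDerivAt (fun τ => G (ze τ))
      (I * (2 * aa (l : ℝ) μ τ * G (ze τ) - β * V (ze τ))) τ := by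
    intro τ
    refine (g1.deriv τ).congr_deriv ?_
    have hz := ze_ne τ
    have sN := (g1.summ' τ).hasSum
    have sG := (g1.summ τ).hasSum
    have sW := (gv.summ τ).hasSum
    have s0 := (g0.summ τ).hasSum
    have s2 := (g2.summ τ).hasSum
    have e0 : ∑' k, h k * ze τ ^ (k + 1) = ze τ * G (ze τ) := by
      rw [(g0.summ τ).tsum_eq_zero_add, h0, zero_mul, zero_add, hG, PS, ← tsum_mul_left]
      congr 1; funext k; ring
    have e2 : G (ze τ) = ze τ + ze τ * ∑' k, h (k + 2) * ze τ ^ (k + 1) := by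
      rw [hG, PS, (g1.summ τ).tsum_eq_zero_add, zero_add, h1, ← tsum_mul_left]
      congr 1
      · simp
      · congr 1; funext k; ring
    have tot := ((sN.add (sG.mul_left (l : ℂ))).add ((s0.add s2).mul_left (μ : ℂ))).sub
      (sW.mul_left (β : ℂ))
    have tot0 := tot.unique (hasSum_zero.congr_fun fun k => by
      have hr := congrArg (fun t : ℝ => (t : ℂ)) (HH_rec l (β * β) hμ.ne' k)
      have hk : (k : ℂ) + 1 ≠ 0 := by exact_mod_cast Nat.succ_ne_zero k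
      simp only [dg] at hr
      push_cast at hr
      simp only [hh]
      linear_combination (ze τ ^ (k + 1)) * hr)
    have ea : 2 * aa (l : ℝ) μ τ = l + μ * (ze τ + (ze τ)⁻¹) := by
      rw [← ze_cos, aa]; push_cast; ring
    have e3 : (ze τ)⁻¹ * G (ze τ) = 1 + ∑' k, h (k + 2) * ze τ ^ (k + 1) := by
      rw [e2]; field_simp
    have e4 : β * V (ze τ) = μ + β * ∑' k, -(β / (k + 1)) * h (k + 1) * ze τ ^ (k + 1) := by
      simp only [hV, PS]; field_simp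
    have e5 : ∑' k, h (k + 1) * ze τ ^ (k + 1) = G (ze τ) := rfl
    rw [e0, e5] at tot0
    rw [ea, e4, PS]
    linear_combination (-I) * tot0 - I * μ * e3
  have dc : ∀ τ, HasDerivAt (fun τ => conj (eT l μ τ)) (-(I * aa (l : ℝ) μ τ) * conj (eT l μ τ)) τ := by
    intro τ
    refine (hasDerivAt_conj (eT_deriv l μ τ)).congr_deriv ?_
    rw [aa_real, map_mul, map_mul, conj_I, conj_ofReal]; ring
  have hper : ∀ F : ℂ → ℂ, Per l fun τ => conj (eT l μ τ) * F (ze τ) := by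
    intro F
    have e1 : ze (-Real.pi) = ze Real.pi := by
      simp [ze, exp_pi_mul_I, exp_neg]
    have e2 := congrArg conj (eT_neg_pi l μ)
    simp only [map_mul, map_pow, map_neg, map_one] at e2
    have e3 : ((-1 : ℂ) ^ l) * (-1) ^ l = 1 := by rw [← mul_pow]; simp
    unfold Per
    beta_reduce
    rw [e1, ← e2]
    linear_combination (-(conj (eT l μ (-Real.pi)) * F (ze Real.pi))) * e3
  have hcg : ∀ (F : ℂ → ℂ), DifferentiableOn ℂ F (Metric.ball 0 2) → ∀ m : ℕ,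
      cg l μ (fun τ => conj (eT l μ τ) * F (ze τ)) (-m) = 2 * Real.pi * (F 0 * 0 ^ m) := by
    intro F hF m
    rw [← mean_val (F := fun ζ => F ζ * ζ ^ m) (hF.mul (by fun_prop)), cg, co]
    congr 1; funext τ
    have : exp (((-m : ℤ) : ℂ) * τ * I) = exp (-(τ * I)) ^ m := by
      rw [← exp_nat_mul]; congr 1; push_cast; ring
    rw [this, ← mul_assoc, eT_mul_conj, one_mul, ze]
  have hsol : IsSol (l : ℝ) μ β β (fun τ => conj (eT l μ τ) * G (ze τ))
      (fun τ => conj (eT l μ τ) * V (ze τ)) :=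
    ⟨fun τ => ((dc τ).mul (dg' τ)).congr_deriv (by ring),
     fun τ => ((dc τ).mul (du τ)).congr_deriv (by ring)⟩
  have hneg : ∀ n : ℤ, n ≤ 0 → cg l μ (fun τ => conj (eT l μ τ) * G (ze τ)) n = 0 := by
    intro n hn
    obtain ⟨m, rfl⟩ := Int.exists_eq_neg_ofNat hn
    rw [hcg G Gd m, hG, PS_zero]; simp
  refine ⟨_, _, hsol, hper G, hper V, hneg, ?_, ?_⟩
  · intro hc
    have r := rec_g hsol (hper G) 0
    have v := hcg V Vd 0
    simp only [CharP.cast_eq_zero, neg_zero, pow_zero, mul_one, hV, PS_zero, add_zero] at v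
    rw [zero_add 1, hc, hneg 0 le_rfl, hneg (0 - 1) (by norm_num), v] at r
    have hpi : (Real.pi : ℂ) ≠ 0 := ofReal_ne_zero.2 Real.pi_pos.ne'
    simp [hβ', hμ', hpi] at r
  · have := mean_val (F := fun ζ => G ζ * V ζ * (ζ ^ l * exp (2 * μ * ζ)))
      ((Gd.mul Vd).mul (by fun_prop))
    simp only [hG, PS_zero, zero_mul, mul_zero] at this
    rw [← this]
    congr 1; funext τ
    have e : conj (eT l μ τ) * conj (eT l μ τ) * (Real.exp (2 * μ * Real.cos τ) : ℝ) =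
        exp (-(τ * I)) ^ l * exp (2 * μ * exp (-(τ * I))) := by
      rw [eT, conj_exp_I, ← exp_nat_mul, ofReal_exp, ← exp_add, ← exp_add, ← exp_add]
      congr 1
      rw [← neg_mul (τ : ℂ) I, exp_mul_I, cos_neg, sin_neg]
      push_cast; ring
    rw [← e, ze]; ring

end Pool.Agent.Lib.MP_60675c_an
end

-- part Pool.Agent.Lib.MP_60675c_an.Constr
section

/-! Points of even type: generalized simple intersections and constrictions. -/

set_option autoImplicit false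

open Filter Topology MeasureTheory intervalIntegral Complex ComplexConjugate Set

namespace Pool.Agent.Lib.MP_60675c_an

lemma ww0_rev (ν μ η τ : ℝ) : ww ν μ η 0 (-τ) = conj (ww ν μ η 0 τ) := by
  rw [ww_rev, neg_zero]

lemma ww1_rev (ν μ η τ : ℝ) :
    ww ν μ η (Real.pi / 2) (-τ) = -conj (ww ν μ η (Real.pi / 2) τ) := by
  rw [ww_rev, ww_comb ν μ η (-(Real.pi / 2))]
  simp

/-- same parity as `l` -/
def Ev (l : ℕ) (P : ℝ) : Prop := ∃ k : ℤ, P = l + 2 * k

lemma ev_iff (l : ℕ) (P : ℝ) : Ev l P ↔ Real.sin (Real.pi * (P - l) / 2) = 0 := by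
  have hpi := Real.pi_pos
  rw [Real.sin_eq_zero_iff]
  constructor
  · rintro ⟨k, hk⟩
    exact ⟨k, by rw [hk]; ring⟩
  · rintro ⟨k, hk⟩
    refine ⟨k, ?_⟩
    have : Real.pi * (P - (l + 2 * k)) = 0 := by linarith
    have := (mul_eq_zero.1 this).resolve_left hpi.ne'
    linarith

lemma polar_sub (l : ℕ) (P : ℝ) :
    conj (exp ((Real.pi * P / 2 : ℝ) * I)) - (-1) ^ l * exp ((Real.pi * P / 2 : ℝ) * I) =
      -2 * I * exp (-((Real.pi * l / 2 : ℝ) * I)) * Real.sin (Real.pi * (P - l) / 2) := by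
  have e0 : (-1 : ℂ) ^ l = exp (-(l * Real.pi * I)) := by
    rw [exp_neg, ← neg_one_pow_eq, ← inv_pow]; simp
  have e1 : exp (-((Real.pi * P / 2 : ℝ) * I)) = exp (-((Real.pi * l / 2 : ℝ) * I)) *
      exp (-((Real.pi * (P - l) / 2 : ℝ) : ℂ) * I) := by
    rw [← exp_add]; congr 1; push_cast; ring
  have e2 : exp (-(l * Real.pi * I)) * exp ((Real.pi * P / 2 : ℝ) * I) =
      exp (-((Real.pi * l / 2 : ℝ) * I)) * exp (((Real.pi * (P - l) / 2 : ℝ) : ℂ) * I) := by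
    rw [← exp_add, ← exp_add]; congr 1; push_cast; ring
  rw [conj_exp_I, e0, e1, e2, ofReal_sin]
  have := two_sin ((Real.pi * (P - l) / 2 : ℝ) : ℂ)
  linear_combination (I * exp (-((Real.pi * l / 2 : ℝ) * I))) * this
    + (exp (-((Real.pi * l / 2 : ℝ) * I)) * (exp (-((Real.pi * (P - l) / 2 : ℝ) : ℂ) * I)
      - exp (((Real.pi * (P - l) / 2 : ℝ) : ℂ) * I))) * I_mul_I

/-- periodicity defect -/
noncomputable def df (l : ℕ) (y : ℝ → ℂ) : ℂ := y (-Real.pi) - (-1) ^ l * y Real.pi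

lemma per_iff_df (l : ℕ) (y : ℝ → ℂ) : Per l y ↔ df l y = 0 := sub_eq_zero.symm

lemma df_conj (l : ℕ) (y : ℝ → ℂ) : df l (fun τ => conj (y τ)) = conj (df l y) := by
  simp [df]

lemma df_comb (l : ℕ) (y y' : ℝ → ℂ) (p q : ℂ) :
    df l (fun τ => p * y τ + q * y' τ) = p * df l y + q * df l y' := by
  simp only [df]; ring

lemma df0 (l : ℕ) (ν μ η : ℝ) : df l (ww ν μ η 0) = rr ν μ η 0 Real.pi *
    (-2 * I * exp (-((Real.pi * l / 2 : ℝ) * I)) * Real.sin (Real.pi * (Ps ν μ η 0 - l) / 2)) := by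
  rw [df, ww0_rev, ww_pi0, ← polar_sub, map_mul, conj_ofReal]; ring

lemma df1 (l : ℕ) (ν μ η : ℝ) : df l (ww ν μ η (Real.pi / 2)) =
    I * (rr ν μ η (Real.pi / 2) Real.pi * (-2 * I * exp (-((Real.pi * l / 2 : ℝ) * I)) *
      Real.sin (Real.pi * (Ps ν μ η (Real.pi / 2) - l) / 2))) := by
  rw [df, ww1_rev, ww_pi1, ← polar_sub, map_mul, map_mul, conj_ofReal, conj_I]; ring

lemma conj_df0 (l : ℕ) (ν μ η : ℝ) :
    conj (df l (ww ν μ η 0)) = -((-1) ^ l * df l (ww ν μ η 0)) := by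
  have e3 : ((-1 : ℂ) ^ l) * (-1) ^ l = 1 := by rw [← mul_pow]; simp
  simp only [df, ww0_rev, map_sub, map_mul, map_pow, map_neg, map_one, conj_conj]
  linear_combination (-ww ν μ η 0 Real.pi) * e3

lemma conj_df1 (l : ℕ) (ν μ η : ℝ) :
    conj (df l (ww ν μ η (Real.pi / 2))) = (-1) ^ l * df l (ww ν μ η (Real.pi / 2)) := by
  have e3 : ((-1 : ℂ) ^ l) * (-1) ^ l = 1 := by rw [← mul_pow]; simp
  simp only [df, ww1_rev, map_sub, map_mul, map_pow, map_neg, map_one, conj_conj]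
  linear_combination (ww ν μ η (Real.pi / 2) Real.pi) * e3

/-- the two symmetric initial phases -/
def Sy (α : ℝ) : Prop := α = 0 ∨ α = Real.pi / 2

lemma per_iff_ev (l : ℕ) (ν μ η : ℝ) {α : ℝ} (hα : Sy α) :
    Per l (ww ν μ η α) ↔ Ev l (Ps ν μ η α) := by
  rw [per_iff_df, ev_iff]
  rcases hα with rfl | rfl
  · rw [df0]
    simp [(rr_pos ν μ η 0 Real.pi).ne', -ofReal_sin]
  · rw [df1]
    simp [(rr_pos ν μ η (Real.pi / 2) Real.pi).ne', -ofReal_sin]

lemma Per.conj {l : ℕ} {y : ℝ → ℂ} (h : Per l y) : Per l fun τ => conj (y τ) := by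
  rw [per_iff_df] at h ⊢
  rw [df_conj, h, map_zero]

lemma ww0_zero (ν μ η : ℝ) : ww ν μ η 0 0 = 1 := by simp [ww_zero]

lemma ww1_zero (ν μ η : ℝ) : ww ν μ η (Real.pi / 2) 0 = I := by simp [ww_zero]

lemma decomp {ν μ η : ℝ} {y z : ℝ → ℂ} (h : IsSol ν μ (η / 2 : ℝ) (η / 2 : ℝ) y z) :
    ∃ p q : ℂ, y = (fun τ => p * ww ν μ η 0 τ + q * ww ν μ η (Real.pi / 2) τ) ∧
      z = fun τ => p * conj (ww ν μ η 0 τ) + q * conj (ww ν μ η (Real.pi / 2) τ) :=
  ⟨(y 0 + z 0) / 2, -I * (y 0 - z 0) / 2,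
    h.unique ((ww_isSol ν μ η 0).comb (ww_isSol ν μ η (Real.pi / 2)) _ _) (t := 0)
      (by rw [ww0_zero, ww1_zero]; linear_combination ((y 0 - z 0) / 2) * I_mul_I)
      (by rw [ww0_zero, ww1_zero, map_one, conj_I]
          linear_combination (-(y 0 - z 0) / 2) * I_mul_I)⟩

lemma Sf_comb {y y' z z' : ℝ → ℂ} (hy : Continuous y) (hy' : Continuous y') (hz : Continuous z)
    (hz' : Continuous z') (p q p' q' : ℂ) :
    Sf (fun τ => p * y τ + q * y' τ) (fun τ => p' * z τ + q' * z' τ) =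
      p * conj p' * Sf y z + p * conj q' * Sf y z' + q * conj p' * Sf y' z
        + q * conj q' * Sf y' z' := by
  unfold Sf
  simp only [← intervalIntegral.integral_const_mul]
  rw [← intervalIntegral.integral_add (Continuous.intervalIntegrable (by fun_prop) _ _)
      (Continuous.intervalIntegrable (by fun_prop) _ _),
    ← intervalIntegral.integral_add (Continuous.intervalIntegrable (by fun_prop) _ _)
      (Continuous.intervalIntegrable (by fun_prop) _ _),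
    ← intervalIntegral.integral_add (Continuous.intervalIntegrable (by fun_prop) _ _)
      (Continuous.intervalIntegrable (by fun_prop) _ _)]
  congr 1; funext τ
  simp only [map_add, map_mul]; ring

lemma Rf_eq_Sf (y z : ℝ → ℂ) : Rf y z = Sf (fun τ => 2 * (Real.cos τ : ℝ) * y τ) z := rfl

lemma Rf_comb {y y' z z' : ℝ → ℂ} (hy : Continuous y) (hy' : Continuous y') (hz : Continuous z)
    (hz' : Continuous z') (p q p' q' : ℂ) :
    Rf (fun τ => p * y τ + q * y' τ) (fun τ => p' * z τ + q' * z' τ) =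
      p * conj p' * Rf y z + p * conj q' * Rf y z' + q * conj p' * Rf y' z
        + q * conj q' * Rf y' z' := by
  simp only [Rf_eq_Sf]
  rw [← Sf_comb (by fun_prop) (by fun_prop) hz hz']
  congr 1; funext τ; ring

lemma Sf_self (ν μ η : ℝ) {α : ℝ} (hα : Sy α) :
    Sf (ww ν μ η α) (fun τ => conj (ww ν μ η α τ)) = (2 * SS ν μ η α : ℝ) := by
  rw [Sf, integral_fold (by fun_prop), SS, ← intervalIntegral.integral_const_mul,
    ← intervalIntegral.integral_ofReal]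
  congr 1; funext τ
  rw [← add_conj]
  rcases hα with rfl | rfl
  · simp [ww0_rev]
  · simp [ww1_rev]

lemma Rf_self (ν μ η : ℝ) {α : ℝ} (hα : Sy α) :
    Rf (ww ν μ η α) (ww ν μ η α) = (4 * RR ν μ η α : ℝ) := by
  rw [Rf, integral_fold (by fun_prop), RR, ← intervalIntegral.integral_const_mul,
    ← intervalIntegral.integral_ofReal]
  congr 1; funext τ
  rw [← normSq_eq_conj_mul_self, ofReal_re, Real.cos_neg]
  push_cast
  rw [← mul_conj]
  rcases hα with rfl | rfl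
  · simp only [ww0_rev, conj_conj]; ring
  · simp only [ww1_rev, map_neg, conj_conj]; ring

lemma Rf_01 (ν μ η : ℝ) : Rf (ww ν μ η 0) (ww ν μ η (Real.pi / 2)) = 0 ∧
    Rf (ww ν μ η (Real.pi / 2)) (ww ν μ η 0) = 0 := by
  have hw := fun τ => (ww_isSol ν μ η 0).wronsk (ww_isSol ν μ η (Real.pi / 2)) τ
  simp only [ww0_zero, ww1_zero, map_one, conj_I] at hw
  have hc : ∫ τ in (0:ℝ)..Real.pi, ((Real.cos τ : ℝ) : ℂ) = 0 := by
    rw [intervalIntegral.integral_ofReal]; simp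
  constructor
  · rw [Rf, integral_fold (by fun_prop)]
    have : ∀ τ, 2 * (Real.cos τ : ℝ) * ww ν μ η 0 τ * conj (ww ν μ η (Real.pi / 2) τ) +
        2 * (Real.cos (-τ) : ℝ) * ww ν μ η 0 (-τ) * conj (ww ν μ η (Real.pi / 2) (-τ)) =
        (-4 * I) * (Real.cos τ : ℝ) := by
      intro τ
      simp only [ww0_rev, ww1_rev, map_neg, conj_conj, Real.cos_neg]
      linear_combination (2 * ((Real.cos τ : ℝ) : ℂ)) * hw τ
    simp only [this]
    rw [intervalIntegral.integral_const_mul, hc, mul_zero]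
  · rw [Rf, integral_fold (by fun_prop)]
    have : ∀ τ, 2 * (Real.cos τ : ℝ) * ww ν μ η (Real.pi / 2) τ * conj (ww ν μ η 0 τ) +
        2 * (Real.cos (-τ) : ℝ) * ww ν μ η (Real.pi / 2) (-τ) * conj (ww ν μ η 0 (-τ)) =
        (4 * I) * (Real.cos τ : ℝ) := by
      intro τ
      simp only [ww0_rev, ww1_rev, conj_conj, Real.cos_neg]
      linear_combination (-2 * ((Real.cos τ : ℝ) : ℂ)) * hw τ
    simp only [this]
    rw [intervalIntegral.integral_const_mul, hc, mul_zero]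

lemma Sf_01 {l : ℕ} {μ η : ℝ} (hη : η ≠ 0) (h0 : Per l (ww l μ η 0))
    (h1 : Per l (ww l μ η (Real.pi / 2))) :
    Sf (ww l μ η 0) (fun τ => conj (ww l μ η (Real.pi / 2) τ)) = 0 ∧
    Sf (ww l μ η (Real.pi / 2)) (fun τ => conj (ww l μ η 0 τ)) = 0 := by
  have hs : Sf (ww l μ η (Real.pi / 2)) (fun τ => conj (ww l μ η 0 τ)) =
      Sf (ww l μ η 0) (fun τ => conj (ww l μ η (Real.pi / 2) τ)) := by
    unfold Sf
    congr 1; funext τ
    simp only [conj_conj]; ring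
  have hh := Sf_herm (ww_isSol l μ η 0) h0.conj (ww_isSol l μ η (Real.pi / 2)) h1.conj
    (div_ne_zero hη two_ne_zero)
  have hi : Sf (ww l μ η 0) (fun τ => conj (ww l μ η (Real.pi / 2) τ)) =
      ((∫ τ in (0:ℝ)..Real.pi, 2 * (ww l μ η 0 τ * ww l μ η (Real.pi / 2) τ).im : ℝ) : ℂ) * I := by
    rw [Sf, integral_fold (by fun_prop), ← intervalIntegral.integral_ofReal,
      ← intervalIntegral.integral_mul_const]
    congr 1; funext τ
    rw [← sub_conj]
    simp only [ww0_rev, ww1_rev, conj_conj, map_mul]; ring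
  rw [hs] at hh ⊢
  rw [and_self]
  rw [hi, map_mul, conj_ofReal, conj_I] at hh
  rw [hi]
  linear_combination (1 / 2) * hh

lemma even_alt {l : ℕ} {μ η α : ℝ} (hμ : μ ≠ 0) (hη : 0 < η) (hα : Sy α)
    (h : Ev l (Ps l μ η α)) : 0 < SS l μ η α ∨ Dec l μ (η / 2 * (η / 2)) := by
  have hp := (per_iff_ev l l μ η hα).2 h
  have hβ : 0 < η / 2 := by positivity
  by_cases h1 : cg l μ (ww l μ η α) 1 = 0
  · left
    have := Sf_pos (ww_isSol l μ η α) hp hp.conj hβ
      (cg_pos_zero hμ (ww_isSol l μ η α) hp hp.conj hβ.ne' h1) (Or.inl (ww_ne _ _ _ _ _))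
    rw [Sf_self _ _ _ hα, ofReal_re] at this
    linarith
  · exact Or.inr (dec_of_cg hμ (ww_isSol l μ η α) hp hp.conj hβ.ne' h1)

lemma constr {l : ℕ} {μ η : ℝ} (hμ : 0 < μ) (hη : 0 < η) (hD : Dec l μ (η / 2 * (η / 2))) :
    Ev l (Ps l μ η 0) ∧ Ev l (Ps l μ η (Real.pi / 2)) ∧ RR l μ η 0 ≠ 0 ∧
      RR l μ η (Real.pi / 2) ≠ 0 ∧ SS l μ η 0 * SS l μ η (Real.pi / 2) < 0 := by
  have hβ : 0 < η / 2 := by positivity
  obtain ⟨y, z, hsol, py, pz, hneg, hone, hardy⟩ := synth hμ hβ hD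
  obtain ⟨p, q, rfl, rfl⟩ := decomp hsol
  have c0 : Continuous (ww l μ η 0) := by fun_prop
  have c1 : Continuous (ww l μ η (Real.pi / 2)) := by fun_prop
  have c0' : Continuous fun τ => conj (ww l μ η 0 τ) := by fun_prop
  have c1' : Continuous fun τ => conj (ww l μ η (Real.pi / 2) τ) := by fun_prop
  have hpos : ∀ α, (∫ τ in (-Real.pi)..Real.pi, ww l μ η α τ * conj (ww l μ η α τ) *
      (Real.exp (2 * μ * Real.cos τ) : ℝ)) ≠ 0 := by
    intro α
    simp only [mul_conj, ← ofReal_mul]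
    rw [intervalIntegral.integral_ofReal, ofReal_ne_zero]
    exact (intervalIntegral_pos_of_pos (Continuous.intervalIntegrable (by fun_prop) _ _)
      (fun τ => mul_pos (normSq_pos.2 (ww_ne _ _ _ _ _)) (Real.exp_pos _)) neg_pi_lt).ne'
  rw [cg_comb l μ c0 c1] at hone
  have hp : p ≠ 0 := by
    rintro rfl
    have hq : q ≠ 0 := by rintro rfl; simp at hone
    apply mul_ne_zero (mul_ne_zero hq hq) (hpos (Real.pi / 2))
    rw [← hardy, ← intervalIntegral.integral_const_mul]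
    congr 1; funext τ; ring
  have hq : q ≠ 0 := by
    rintro rfl
    apply mul_ne_zero (mul_ne_zero hp hp) (hpos 0)
    rw [← hardy, ← intervalIntegral.integral_const_mul]
    congr 1; funext τ; ring
  have d1 := (per_iff_df _ _).1 py
  have d2 := (per_iff_df _ _).1 pz
  rw [df_comb] at d1 d2
  rw [df_conj, df_conj, conj_df0, conj_df1] at d2
  have e3 : ((-1 : ℂ) ^ l) * (-1) ^ l = 1 := by rw [← mul_pow]; simp
  have P0 : Per l (ww l μ η 0) := by
    rw [per_iff_df]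
    apply mul_left_cancel₀ hp
    linear_combination (1 / 2) * d1 - ((-1) ^ l / 2) * d2 +
      ((q * df l (ww l μ η (Real.pi / 2)) - p * df l (ww l μ η 0)) / 2) * e3
  have P1 : Per l (ww l μ η (Real.pi / 2)) := by
    rw [per_iff_df]
    apply mul_left_cancel₀ hq
    linear_combination (1 / 2) * d1 + ((-1) ^ l / 2) * d2 -
      ((q * df l (ww l μ η (Real.pi / 2)) - p * df l (ww l μ η 0)) / 2) * e3
  set p' := cg l μ (ww l μ η (Real.pi / 2)) 1 with hp'
  set q' := -cg l μ (ww l μ η 0) 1 with hq'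
  have hpq : p' ≠ 0 ∨ q' ≠ 0 := by
    by_contra hc
    push Not at hc
    apply hone
    have : cg l μ (ww l μ η 0) 1 = 0 := neg_eq_zero.1 hc.2
    rw [this, hc.1]; simp
  have sol' := (ww_isSol l μ η 0).comb (ww_isSol l μ η (Real.pi / 2)) p' q'
  have py' := P0.comb P1 p' q'
  have pz' := P0.conj.comb P1.conj p' q'
  have hz' := cg_pos_zero hμ.ne' sol' py' pz' hβ.ne' (by
    rw [cg_comb l μ c0 c1, hq', ← hp']; ring)
  have hS := Sf_01 hη.ne' P0 P1
  have hR := Rf_01 l μ η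
  have s1 := Sf_neg hsol pz hβ hneg (by rwa [cg_comb l μ c0 c1])
  have s2 := Sf_pos sol' py' pz' hβ hz' (by
    by_contra hc
    push Not at hc
    simp only [ww0_zero, ww1_zero, map_one, conj_I] at hc
    rcases hpq with h | h
    · exact h (by linear_combination (1 / 2) * hc.1 + (1 / 2) * hc.2)
    · exact h (by linear_combination (-I / 2) * hc.1 + (I / 2) * hc.2 + q' * I_mul_I))
  have s3 := Sf_cross hsol pz sol' pz' hβ.ne' hneg hz'
  have r1 := Rf_ne hsol py pz hneg (by rwa [cg_comb l μ c0 c1])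
  have r3 := Rf_cross hsol.cont1 sol'.cont1 hneg hz'
  rw [Sf_comb c0 c1 c0' c1', hS.1, hS.2, Sf_self _ _ _ (Or.inl rfl), Sf_self _ _ _ (Or.inr rfl)]
    at s1 s2 s3
  rw [Rf_comb c0 c1 c0 c1, hR.1, hR.2, Rf_self _ _ _ (Or.inl rfl), Rf_self _ _ _ (Or.inr rfl)]
    at r1 r3
  simp only [mul_conj, mul_zero, add_zero, ← ofReal_mul, ← ofReal_add, ofReal_re] at s1 s2
  simp only [mul_zero, add_zero] at s3 r1 r3
  have hSS : SS l μ η 0 * SS l μ η (Real.pi / 2) < 0 := by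
    by_contra hc
    have n1 := normSq_nonneg p
    have n2 := normSq_nonneg q
    have n3 := normSq_nonneg p'
    have n4 := normSq_nonneg q'
    rcases mul_nonneg_iff.1 (not_lt.1 hc) with h | h
    · nlinarith [mul_nonneg n1 h.1, mul_nonneg n2 h.2]
    · nlinarith [mul_nonneg n3 (neg_nonneg.2 h.1), mul_nonneg n4 (neg_nonneg.2 h.2)]
  have S0 : SS l μ η 0 ≠ 0 := by rintro h; simp [h] at hSS
  have S1 : SS l μ η (Real.pi / 2) ≠ 0 := by rintro h; simp [h] at hSS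
  have hp0 : p' ≠ 0 := by
    intro h
    have h' : q' ≠ 0 := hpq.resolve_left (not_not.2 h)
    rw [h] at s3
    simp [hq, h', S1] at s3
  have hq0 : q' ≠ 0 := by
    intro h
    rw [h] at s3
    simp [hp, hp0, S0] at s3
  refine ⟨(per_iff_ev l l μ η (Or.inl rfl)).1 P0, (per_iff_ev l l μ η (Or.inr rfl)).1 P1,
    fun h => ?_, fun h => ?_, hSS⟩
  · rw [h] at r1 r3
    simp [hq, hq0] at r1 r3
    exact r1 r3
  · rw [h] at r1 r3
    simp [hp, hp0] at r1 r3
    exact r1 r3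

lemma ev_eq {l : ℕ} {P Q : ℝ} (hP : Ev l P) (hQ : Ev l Q) (h : |P - Q| < 1) : P = Q := by
  obtain ⟨k, rfl⟩ := hP
  obtain ⟨j, rfl⟩ := hQ
  rw [abs_lt] at h
  have h1 : ((k - j : ℤ) : ℝ) < 1 := by push_cast; linarith [h.2]
  have h2 : (-1 : ℝ) < ((k - j : ℤ) : ℝ) := by push_cast; linarith [h.1]
  have h3 : k - j < 1 := by exact_mod_cast h1
  have h4 : -1 < k - j := by exact_mod_cast h2
  have : k = j := by omega
  rw [this]

/-- at a point of even type one of the phases passes the level downwards -/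
lemma even_cross {l : ℕ} {μ η α : ℝ} (hμ : 0 < μ) (hη : 0 < η) (hα : Sy α)
    (h : Ev l (Ps l μ η α)) : ∃ α', Sy α' ∧ Ps l μ η α' = Ps l μ η α ∧ 0 < SS l μ η α' := by
  rcases even_alt hμ.ne' hη hα h with h1 | h1
  · exact ⟨α, hα, rfl, h1⟩
  · obtain ⟨e0, e1, -, -, hS⟩ := constr hμ hη h1
    have e := ev_eq e0 e1 (Ps_close _ _ _)
    rcases mul_neg_iff.1 hS with h2 | h2
    · refine ⟨0, Or.inl rfl, ?_, h2.1⟩
      rcases hα with rfl | rfl
      · rfl
      · exact e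
    · refine ⟨Real.pi / 2, Or.inr rfl, ?_, h2.2⟩
      rcases hα with rfl | rfl
      · exact e.symm
      · rfl

end Pool.Agent.Lib.MP_60675c_an
end

-- part Pool.Agent.Lib.MP_60675c_an.Trace
section

/-! The trace of the monodromy as an entire function of the spectral parameter. -/

set_option autoImplicit false

open Filter Topology MeasureTheory intervalIntegral Complex ComplexConjugate Set

namespace Pool.Agent.Lib.MP_60675c_an

/-- normalised trace of the monodromy -/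
noncomputable def TT (l : ℕ) (μ x : ℂ) : ℂ :=
  -(1 / 4) * (df l (s1 (l : ℝ) μ 1 x 1 0) * df l (s2 (l : ℝ) μ 1 x 0 1) -
    df l (s2 (l : ℝ) μ 1 x 1 0) * df l (s1 (l : ℝ) μ 1 x 0 1))

lemma TT_diff_x (l : ℕ) (μ : ℂ) : Differentiable ℂ fun x => TT l μ x := by
  unfold TT df; fun_prop

lemma TT_diff_mu (l : ℕ) (x : ℂ) : Differentiable ℂ fun μ => TT l μ x := by
  unfold TT df; fun_prop

lemma df_growth (l : ℕ) (μ : ℂ) : ∃ C k : ℝ, 0 ≤ C ∧ 0 ≤ k ∧ ∀ x u v : ℂ, ‖u‖ ≤ 1 → ‖v‖ ≤ 1 →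
    ‖df l (s1 (l : ℝ) μ 1 x u v)‖ ≤ C * Real.exp (k * ‖x‖) ∧
    ‖df l (s2 (l : ℝ) μ 1 x u v)‖ ≤ C * Real.exp (k * ‖x‖) := by
  obtain ⟨C₁, k₁, hC₁, hk₁, h₁⟩ := s_growth (l : ℝ) μ 1 Real.pi
  obtain ⟨C₂, k₂, hC₂, hk₂, h₂⟩ := s_growth (l : ℝ) μ 1 (-Real.pi)
  refine ⟨C₁ + C₂, k₁ + k₂, by positivity, by positivity, fun x u v hu hv => ?_⟩
  have key : ∀ y : ℝ → ℂ, ‖y Real.pi‖ ≤ C₁ * Real.exp (k₁ * ‖x‖) →
      ‖y (-Real.pi)‖ ≤ C₂ * Real.exp (k₂ * ‖x‖) →
      ‖df l y‖ ≤ (C₁ + C₂) * Real.exp ((k₁ + k₂) * ‖x‖) := by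
    intro y a b
    refine (norm_sub_le _ _).trans ?_
    rw [norm_mul, norm_pow, norm_neg, norm_one, one_pow, one_mul]
    have hx := norm_nonneg x
    have e1 : Real.exp (k₁ * ‖x‖) ≤ Real.exp ((k₁ + k₂) * ‖x‖) :=
      Real.exp_le_exp.2 (by nlinarith)
    have e2 : Real.exp (k₂ * ‖x‖) ≤ Real.exp ((k₁ + k₂) * ‖x‖) :=
      Real.exp_le_exp.2 (by nlinarith)
    nlinarith [mul_le_mul_of_nonneg_left e1 hC₁, mul_le_mul_of_nonneg_left e2 hC₂]
  exact ⟨key _ (h₁ x u v hu hv).1 (h₂ x u v hu hv).1, key _ (h₁ x u v hu hv).2 (h₂ x u v hu hv).2⟩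

lemma TT_growth (l : ℕ) (μ : ℂ) : ∃ C k : ℝ, 0 ≤ C ∧ 0 ≤ k ∧
    ∀ x, ‖TT l μ x‖ ≤ C * Real.exp (k * ‖x‖) := by
  obtain ⟨C, k, hC, hk, h⟩ := df_growth l μ
  refine ⟨C * C, k + k, by positivity, by positivity, fun x => ?_⟩
  have a := h x 1 0 (by simp) (by simp)
  have b := h x 0 1 (by simp) (by simp)
  have e : C * C * Real.exp ((k + k) * ‖x‖) =
      (C * Real.exp (k * ‖x‖)) * (C * Real.exp (k * ‖x‖)) := by
    rw [add_mul, Real.exp_add]; ring
  have p : 0 ≤ C * Real.exp (k * ‖x‖) := by positivity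
  rw [TT, norm_mul, e]
  have h1 := norm_sub_le (df l (s1 (l : ℝ) μ 1 x 1 0) * df l (s2 (l : ℝ) μ 1 x 0 1))
    (df l (s2 (l : ℝ) μ 1 x 1 0) * df l (s1 (l : ℝ) μ 1 x 0 1))
  rw [norm_mul, norm_mul] at h1
  have h2 := mul_le_mul a.1 b.2 (norm_nonneg _) p
  have h3 := mul_le_mul a.2 b.1 (norm_nonneg _) p
  have h4 : ‖(-(1 / 4) : ℂ)‖ = 1 / 4 := by simp
  rw [h4]
  nlinarith [mul_nonneg p p]

lemma IsSol.basis {ν μ b c : ℂ} {y z : ℝ → ℂ} (h : IsSol ν μ b c y z) :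
    y = (fun τ => y 0 * s1 ν μ b c 1 0 τ + z 0 * s1 ν μ b c 0 1 τ) ∧
    z = fun τ => y 0 * s2 ν μ b c 1 0 τ + z 0 * s2 ν μ b c 0 1 τ :=
  h.unique ((s_isSol ν μ b c 1 0).comb (s_isSol ν μ b c 0 1) _ _) (t := 0)
    (by simp [s1_zero]) (by simp [s2_zero])

lemma TT_zero (l : ℕ) (μ : ℝ) : TT l μ 0 = 0 := by
  have h : IsSol (l : ℝ) μ 1 0 (eT l μ) (fun _ => 0) :=
    ⟨fun τ => (eT_deriv l μ τ).congr_deriv (by ring),
      fun τ => by simpa using hasDerivAt_const τ (0 : ℂ)⟩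
  have h2 := h.eq_s
  rw [eT_zero] at h2
  have e3 : ((-1 : ℂ) ^ l) * (-1) ^ l = 1 := by rw [← mul_pow]; simp
  have d1 : df l (eT l μ) = 0 := by
    rw [df, ← eT_neg_pi]
    linear_combination (-eT l μ (-Real.pi)) * e3
  have d2 : df l (fun _ => 0) = 0 := by simp [df]
  rw [TT, ← h2.1, ← h2.2, d1, d2]; simp

lemma TT_real (l : ℕ) {μ : ℝ} (hμ : μ ≠ 0) (x : ℂ) (h : TT l μ x = 0) : x.im = 0 := by
  set a := df l (s1 (l : ℝ) μ 1 x 1 0) with ha
  set b := df l (s1 (l : ℝ) μ 1 x 0 1) with hb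
  set c := df l (s2 (l : ℝ) μ 1 x 1 0) with hc
  set d := df l (s2 (l : ℝ) μ 1 x 0 1) with hd
  have hdet : a * d - c * b = 0 := by
    have : -(1 / 4) * (a * d - c * b) = 0 := h
    linear_combination (-4) * this
  obtain ⟨p, q, hpq, h1, h2⟩ : ∃ p q : ℂ, (p ≠ 0 ∨ q ≠ 0) ∧ p * a + q * b = 0 ∧
      p * c + q * d = 0 := by
    by_cases h1 : a = 0 ∧ b = 0
    · by_cases h2 : c = 0 ∧ d = 0
      · exact ⟨1, 0, Or.inl one_ne_zero, by simp [h1.1], by simp [h2.1]⟩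
      · exact ⟨d, -c, by rw [neg_ne_zero]; tauto, by simp [h1.1, h1.2], by ring⟩
    · exact ⟨b, -a, by rw [neg_ne_zero]; tauto, by ring, by linear_combination -hdet⟩
  refine per_real hμ ((s_isSol (l : ℝ) μ 1 x 1 0).comb (s_isSol (l : ℝ) μ 1 x 0 1) p q)
    (by rw [per_iff_df, df_comb]; exact h1) (by rw [per_iff_df, df_comb]; exact h2) ?_
  simpa [s1_zero, s2_zero] using hpq

lemma IsSol.scale {ν μ β : ℂ} {y z : ℝ → ℂ} (h : IsSol ν μ β β y z) :
    IsSol ν μ 1 (β * β) y fun τ => β * z τ :=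
  ⟨fun τ => (h.1 τ).congr_deriv (by ring),
    fun τ => ((h.2 τ).const_mul β).congr_deriv (by ring)⟩

lemma df_mul (l : ℕ) (y : ℝ → ℂ) (p : ℂ) : df l (fun τ => p * y τ) = p * df l y := by
  simp only [df]; ring

lemma TT_eq (l : ℕ) (μ : ℝ) {η : ℝ} (hη : η ≠ 0) :
    TT l μ (η / 2 * (η / 2) : ℝ) = (-(rr l μ η 0 Real.pi * rr l μ η (Real.pi / 2) Real.pi *
      (Real.sin (Real.pi * (Ps l μ η 0 - l) / 2) *
        Real.sin (Real.pi * (Ps l μ η (Real.pi / 2) - l) / 2))) : ℝ) := by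
  have hβ : ((η / 2 : ℝ) : ℂ) ≠ 0 := ofReal_ne_zero.2 (div_ne_zero hη two_ne_zero)
  have b0 := (ww_isSol l μ η 0).scale.basis
  have b1 := (ww_isSol l μ η (Real.pi / 2)).scale.basis
  have a1 := congrArg (df l) b0.1
  have a2 := congrArg (df l) b0.2
  have a3 := congrArg (df l) b1.1
  have a4 := congrArg (df l) b1.2
  rw [df_comb] at a1 a2 a3 a4
  rw [df_mul, df_conj] at a2 a4
  rw [conj_df0] at a2
  rw [conj_df1] at a4
  simp only [ww0_zero, ww1_zero, map_one, conj_I] at a1 a2 a3 a4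
  have e0 : exp (-((Real.pi * l / 2 : ℝ) * I)) * exp (-((Real.pi * l / 2 : ℝ) * I)) * (-1) ^ l
      = 1 := by
    rw [neg_one_pow_eq, ← exp_add, ← exp_add, ← exp_zero]
    congr 1; push_cast; ring
  have key : df l (ww l μ η 0) * df l (ww l μ η (Real.pi / 2)) * (-1) ^ l =
      -4 * I * ((rr l μ η 0 Real.pi * rr l μ η (Real.pi / 2) Real.pi *
      (Real.sin (Real.pi * (Ps l μ η 0 - l) / 2) *
        Real.sin (Real.pi * (Ps l μ η (Real.pi / 2) - l) / 2)) : ℝ) : ℂ) := by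
    rw [df0, df1]
    simp only [ofReal_mul]
    generalize ((Real.sin (Real.pi * (Ps l μ η 0 - l) / 2) : ℝ) : ℂ) = s
    generalize ((Real.sin (Real.pi * (Ps l μ η (Real.pi / 2) - l) / 2) : ℝ) : ℂ) = t
    generalize (rr l μ η 0 Real.pi : ℂ) = r
    generalize (rr l μ η (Real.pi / 2) Real.pi : ℂ) = r'
    linear_combination (-4 * I * r * r' * s * t) * e0 +
      (4 * I * r * r' * s * t * (exp (-((Real.pi * l / 2 : ℝ) * I)) *
        exp (-((Real.pi * l / 2 : ℝ) * I)) * (-1) ^ l)) * I_mul_I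
  rw [TT, ofReal_mul, ofReal_neg]
  apply mul_left_cancel₀ hβ
  apply mul_left_cancel₀ I_ne_zero
  generalize df l (s1 (l : ℝ) μ 1 ((η / 2 : ℝ) * (η / 2 : ℝ)) 1 0) = a at *
  generalize df l (s1 (l : ℝ) μ 1 ((η / 2 : ℝ) * (η / 2 : ℝ)) 0 1) = b at *
  generalize df l (s2 (l : ℝ) μ 1 ((η / 2 : ℝ) * (η / 2 : ℝ)) 1 0) = c at *
  generalize df l (s2 (l : ℝ) μ 1 ((η / 2 : ℝ) * (η / 2 : ℝ)) 0 1) = d at *
  generalize df l (ww l μ η 0) = u at *
  generalize df l (ww l μ η (Real.pi / 2)) = v at *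
  generalize ((η / 2 : ℝ) : ℂ) = β at *
  have k1 : u * (β * ((-1) ^ l * v)) - (β * -((-1) ^ l * u)) * v = -2 * I * β * (a * d - c * b) := by
    rw [a2, a4, a1, a3]; ring
  linear_combination (-1 / 8) * k1 + (β / 4) * key

lemma TT_add_one (l : ℕ) (μ : ℝ) {η : ℝ} (hη : η ≠ 0) :
    TT l μ (η / 2 * (η / 2) : ℝ) + 1 = ((rr l μ η 0 Real.pi *
      Real.cos (Real.pi * (Ps l μ η 0 - l) / 2)) * (rr l μ η (Real.pi / 2) Real.pi *
        Real.cos (Real.pi * (Ps l μ η (Real.pi / 2) - l) / 2)) : ℝ) := by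
  have h := Ps_wronsk l μ η
  have e : Real.pi * (Ps l μ η 0 - Ps l μ η (Real.pi / 2)) / 2 =
      Real.pi * (Ps l μ η 0 - l) / 2 - Real.pi * (Ps l μ η (Real.pi / 2) - l) / 2 := by ring
  rw [e, Real.cos_sub] at h
  rw [TT_eq l μ hη, ← ofReal_one, ← ofReal_add]
  congr 1
  linarith

lemma rcos_diff (l : ℕ) (μ α η₀ : ℝ) : DifferentiableAt ℝ
    (fun η => rr l μ η α Real.pi * Real.cos (Real.pi * (Ps l μ η α - l) / 2)) η₀ := by
  have h1 : Differentiable ℂ fun z : ℂ => exp (-((α + Real.pi * l / 2 : ℝ) * I)) *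
      s1 (l : ℝ) μ (z / 2) (z / 2) (exp (α * I)) (exp (-(α * I))) Real.pi := by fun_prop
  have h2 := (h1 η₀).hasDerivAt.real_of_complex.differentiableAt
  refine h2.congr_of_eventuallyEq (Eventually.of_forall fun η => ?_)
  have e : s1 (l : ℝ) μ (η / 2) (η / 2) (exp (α * I)) (exp (-(α * I))) Real.pi =
      ww l μ η α Real.pi := by
    rw [ww]; push_cast; rfl
  beta_reduce
  rw [e, ww_polar, th_pi, mul_left_comm, ← exp_add, re_ofReal_mul]
  congr 1
  rw [← exp_ofReal_mul_I_re]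
  congr 2
  push_cast; ring

lemma TT_double (l : ℕ) (μ : ℝ) {η₀ : ℝ} (hη : η₀ ≠ 0)
    (h0 : Real.cos (Real.pi * (Ps l μ η₀ 0 - l) / 2) = 0)
    (h1 : Real.cos (Real.pi * (Ps l μ η₀ (Real.pi / 2) - l) / 2) = 0) :
    deriv (fun x => TT l μ x) (η₀ / 2 * (η₀ / 2) : ℝ) = 0 := by
  have d0 := (rcos_diff l μ 0 η₀).hasDerivAt
  have d1 := (rcos_diff l μ (Real.pi / 2) η₀).hasDerivAt
  have d2 := (d0.mul d1).ofReal_comp
  simp only [h0, h1, mul_zero, zero_mul, add_zero, ofReal_zero] at d2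
  have d3 : HasDerivAt (fun η : ℝ => ((η / 2 * (η / 2) : ℝ) : ℂ)) ((η₀ / 2 : ℝ) : ℂ) η₀ := by
    refine HasDerivAt.ofReal_comp ?_
    refine (((hasDerivAt_id' η₀).div_const 2).mul ((hasDerivAt_id' η₀).div_const 2)).congr_deriv ?_
    ring
  have d4 := ((TT_diff_x l μ _).hasDerivAt.comp η₀ d3).add_const 1
  have d5 : HasDerivAt (fun η : ℝ => TT l μ (η / 2 * (η / 2) : ℝ) + 1) 0 η₀ := by
    refine d2.congr_of_eventuallyEq ?_
    filter_upwards [eventually_ne_nhds hη] with η h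
    rw [TT_add_one l μ h]; rfl
  have := d4.unique d5
  exact (mul_eq_zero.1 this).resolve_right (ofReal_ne_zero.2 (div_ne_zero hη two_ne_zero))

lemma TT_laguerre (l : ℕ) {μ : ℝ} (hμ : μ ≠ 0) (x : ℝ) (hx : TT l μ x ≠ 0) :
    (deriv (logDeriv fun x => TT l μ x) x).re < 0 := by
  obtain ⟨C, k, hC, hk, h⟩ := TT_growth l μ
  exact laguerre_strict (TT_diff_x l μ) (TT_real l hμ) (TT_zero l μ) hC hk h hx

end Pool.Agent.Lib.MP_60675c_an
end
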